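import Pool.Agent.Run7.h274.Itm.Paw
import Pool.Agent.Run7.h274.Itm.Blk

/-! The bounded cases: `P₄`, the paw, the diamond. -/

namespace Run7.h274.Itm

open Pool.Agent.H175R2 Finset Classical

/-! ### induced subgraphs of the excluded graph -/

lemma itm_of_emb {V W : Type} {H : SimpleGraph V} {S : SimpleGraph W} (h : IsSubdivision H S) :
    ∀ {U : Type} {F : SimpleGraph U} (_ : F ↪g H), IsITM F S := by
  induction h with
  | @iso V W H S e =>
    intro U F f
    have g : F ↪g S := f.trans e.toEmbedding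
    refine ⟨Set.range g, .iso ?_⟩
    exact g.isoInduceRange
  | @step V W H S u v huv h ih =>
    intro U F f
    by_cases hr : (∃ a, f a = u) ∧ (∃ b, f b = v)
    · obtain ⟨⟨a, rfl⟩, ⟨b, rfl⟩⟩ := hr
      have g : subdivideEdge F a b ↪g subdivideEdge H (f a) (f b) := by
        refine ⟨f.toEmbedding.optionMap, ?_⟩
        rintro (_ | x) (_ | y)
        · simp
        · simp [subdiv_none]
        · simp [subdiv_none']
        · simp [subdiv_some]
      obtain ⟨X, hX⟩ := ih g
      refine ⟨X, .step (u := a) (v := b) ?_ hX⟩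
      rw [← f.map_adj_iff]
      exact huv
    · have g : F ↪g subdivideEdge H u v := by
        refine ⟨f.toEmbedding.trans Function.Embedding.some, ?_⟩
        intro x y
        simp only [Function.Embedding.trans_apply, Function.Embedding.some_apply, subdiv_some,
          RelEmbedding.coe_toEmbedding, f.map_adj_iff]
        constructor
        · exact fun h => h.1
        · intro h
          refine ⟨h, ?_, ?_⟩
          · rintro ⟨h1, h2⟩; exact hr ⟨⟨x, h1⟩, ⟨y, h2⟩⟩
          · rintro ⟨h1, h2⟩; exact hr ⟨⟨y, h2⟩, ⟨x, h1⟩⟩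
      exact ih g

lemma IsITM.mono {V U W : Type} {H : SimpleGraph U} {F : SimpleGraph W} {G : SimpleGraph V}
    (f : F ↪g H) (h : IsITM H G) : IsITM F G := by
  obtain ⟨X, hX⟩ := h
  exact (itm_of_emb hX f).of_induce

lemma BddItm.mono {U W : Type} {H : SimpleGraph U} {F : SimpleGraph W} (f : F ↪g H)
    (h : BddItm H) : BddItm F := by
  obtain ⟨c, hc⟩ := h
  exact ⟨c, fun V _ G hG => hc V G fun h => hG (h.mono f)⟩

/-! ### bounded cases -/

lemma dt_of_p4free {V : Type} [Fintype V] {G : SimpleGraph V} (hc : (univ : Finset V).Nonempty)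
    (h : P4Free G univ) : DT G 1 univ univ :=
  dt_cograph _ univ univ le_rfl hc (Subset.refl _) h
    (fun _ _ _ _ z _ hz => absurd (mem_univ z) hz)

lemma dt_of_deg {V : Type} [Fintype V] {G : SimpleGraph V} (hc : Cn G univ)
    (h : ∀ x : V, dg G univ x ≤ 2) : DT G 2 univ univ :=
  dt_deg_two (R := univ) (fun x _ => h x) _ univ (Subset.refl _) le_rfl hc

theorem bdd_P4 : BddItm P4 := by
  refine ⟨3 * (1 + 1), fun V _ G hG => ?_⟩
  refine cw_of_conn (fun {V} G => ¬ IsITM P4 G) (fun f G h h' => h (h'.of_comap f)) 1 ?_ V G hG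
  intro V _ G hc hG
  apply dt_of_p4free hc.1
  intro a _ b _ c _ d _ hac had hbd hab hbc hcd
  by_contra hcon
  push Not at hcon
  obtain ⟨n1, n2, n3⟩ := hcon
  apply hG
  refine ⟨(({a, b, c, d} : Finset V) : Set V), .iso (iso_of_fn (S := G)
    (X := {a, b, c, d}) (H := P4) ![a, b, c, d] ?_ ?_ ?_).some⟩
  · have e1 := hab.ne
    have e2 := hbc.ne
    have e3 := hcd.ne
    intro i j hij
    fin_cases i <;> fin_cases j <;> simp at hij ⊢ <;>
      first
      | exact absurd hij e1 | exact absurd hij.symm e1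
      | exact absurd hij e2 | exact absurd hij.symm e2
      | exact absurd hij e3 | exact absurd hij.symm e3
      | exact absurd hij hac | exact absurd hij.symm hac
      | exact absurd hij had | exact absurd hij.symm had
      | exact absurd hij hbd | exact absurd hij.symm hbd
  · intro x
    simp only [mem_insert, mem_singleton]
    constructor
    · rintro (rfl | rfl | rfl | rfl)
      · exact ⟨0, rfl⟩
      · exact ⟨1, rfl⟩
      · exact ⟨2, rfl⟩
      · exact ⟨3, rfl⟩
    · rintro ⟨i, rfl⟩
      fin_cases i <;> simp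
  · have e1 := hab.symm
    have e2 := hbc.symm
    have e3 := hcd.symm
    have m1 : ¬ G.Adj c a := fun h => n1 h.symm
    have m2 : ¬ G.Adj d a := fun h => n2 h.symm
    have m3 : ¬ G.Adj d b := fun h => n3 h.symm
    intro i j
    fin_cases i <;> fin_cases j <;>
      simp [P4, SimpleGraph.fromRel_adj, hab, hbc, hcd, e1, e2, e3, n1, n2, n3, m1, m2, m3]

theorem bdd_diamond : BddItm diamond := by
  refine ⟨3 * (3 + 1), fun V _ G hG => ?_⟩
  refine cw_of_conn (fun {V} G => ¬ IsITM diamond G) (fun f G h h' => h (h'.of_comap f)) 3 ?_ V G hG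
  intro V _ G hc hG
  refine dt_of_blocks_her (fun {V} G => ¬ IsITM diamond G) (fun f G h h' => h (h'.of_comap f)) 2
    ?_ _ V G le_rfl hc hG
  intro V _ G h2 hG
  rcases two_conn_dia h2 hG with h | h
  · refine (dt_of_p4free h2.conn.1 ?_).mono (by omega)
    intro a _ b _ c _ d _ hac _ _ _ _ _
    exact Or.inl (h a c hac)
  · exact dt_of_deg h2.conn h

theorem bdd_paw : BddItm paw := by
  refine ⟨3 * (3 + 1), fun V _ G hG => ?_⟩
  refine cw_of_conn (fun {V} G => ¬ IsITM paw G) (fun f G h h' => h (h'.of_comap f)) 3 ?_ V G hG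
  intro V _ G hc hG
  by_cases htf : TF G
  · refine dt_of_blocks_her (fun {V} G => TF G ∧ ¬ IsITM paw G)
      (fun f G h => ⟨fun a b c => h.1 (f a) (f b) (f c), fun h' => h.2 (h'.of_comap f)⟩) 2
      ?_ _ V G le_rfl hc ⟨htf, hG⟩
    intro V _ G h2 hG
    rcases two_conn_paw h2 hG.1 hG.2 with h | h
    · exact (dt_of_p4free h2.conn.1 h).mono (by omega)
    · exact dt_of_deg h2.conn h
  · unfold TF at htf
    push Not at htf
    obtain ⟨a, b, c, h1, h2, h3⟩ := htf
    exact (dt_of_p4free hc.1 (p4free_of_tri hc hG h1 h3 h2)).mono (by omega)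

end Run7.h274.Itm
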