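import Pool.Agent.Run7.h274.Itm.Sub

/-! Properties of graphs that are preserved by subdividing edges. -/

namespace Run7.h274.Itm

open Pool.Agent.H175R2

lemma IsSubdivision.inv (Q : ∀ {V : Type}, SimpleGraph V → Prop)
    (hiso : ∀ {V W : Type} {H : SimpleGraph V} {S : SimpleGraph W}, (H ≃g S) → Q H → Q S)
    (hstep : ∀ {V : Type} {H : SimpleGraph V} {u v : V}, H.Adj u v → Q H → Q (subdivideEdge H u v))
    {V W : Type} {H : SimpleGraph V} {S : SimpleGraph W} (h : IsSubdivision H S) (hH : Q H) :
    Q S := by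
  induction h with
  | iso e => exact hiso e hH
  | step huv _ ih => exact ih (hstep huv hH)

section
variable {V : Type}

/-- three pairwise nonadjacent vertices -/
def Q1 (G : SimpleGraph V) : Prop :=
  ∃ a b c : V, a ≠ b ∧ a ≠ c ∧ b ≠ c ∧ ¬ G.Adj a b ∧ ¬ G.Adj a c ∧ ¬ G.Adj b c

/-- two edges without vertices or edges in common -/
def Q2 (G : SimpleGraph V) : Prop :=
  ∃ a b c d : V, G.Adj a b ∧ G.Adj c d ∧ a ≠ c ∧ a ≠ d ∧ b ≠ c ∧ b ≠ d ∧
    ¬ G.Adj a c ∧ ¬ G.Adj a d ∧ ¬ G.Adj b c ∧ ¬ G.Adj b d

/-- `x` has exactly two neighbours -/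
def Two (G : SimpleGraph V) (x : V) : Prop := ∃ p q, p ≠ q ∧ ∀ y, G.Adj x y ↔ y = p ∨ y = q

/-- all degrees are two and there are four vertices -/
def Q3 (G : SimpleGraph V) : Prop :=
  (∀ x, Two G x) ∧ ∃ a b c d : V, a ≠ b ∧ a ≠ c ∧ a ≠ d ∧ b ≠ c ∧ b ≠ d ∧ c ≠ d

/-- an isolated vertex, all other degrees are two, at least one other vertex -/
def Q4 (G : SimpleGraph V) : Prop :=
  ∃ w, (∀ y, ¬ G.Adj w y) ∧ (∀ x, x ≠ w → Two G x) ∧ ∃ x, x ≠ w

/-- a vertex with four neighbours -/
def Q5 (G : SimpleGraph V) : Prop :=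
  ∃ v p q r s : V, G.Adj v p ∧ G.Adj v q ∧ G.Adj v r ∧ G.Adj v s ∧
    p ≠ q ∧ p ≠ r ∧ p ≠ s ∧ q ≠ r ∧ q ≠ s ∧ r ≠ s

/-- four branch vertices with three distinct neighbours each, which are adjacent only if they are
branch vertices -/
def Q6 (G : SimpleGraph V) : Prop :=
  ∃ (b : Fin 4 → V) (x : Fin 4 → Fin 4 → V), Function.Injective b ∧
    (∀ i j, i ≠ j → G.Adj (b i) (x i j)) ∧
    (∀ i j k, i ≠ j → i ≠ k → j ≠ k → x i j ≠ x i k) ∧
    (∀ i j k, i ≠ j → i ≠ k → j ≠ k → G.Adj (x i j) (x i k) → x i j = b j ∧ x i k = b k)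

end

section
variable {V W : Type} {H : SimpleGraph V} {S : SimpleGraph W}

lemma Two.iso (e : H ≃g S) {x : V} (h : Two H x) : Two S (e x) := by
  obtain ⟨p, q, hpq, h⟩ := h
  refine ⟨e p, e q, fun h => hpq (e.injective h), fun y => ?_⟩
  obtain ⟨y, rfl⟩ := e.surjective y
  rw [e.map_adj_iff, h, e.injective.eq_iff, e.injective.eq_iff]

lemma Two.subdiv {u v : V} (huv : H.Adj u v) {x : V} (h : Two H x) :
    Two (subdivideEdge H u v) (some x) := by
  have aux : ∀ u v p q : V, H.Adj u v → p ≠ q → (∀ y, H.Adj u y ↔ y = p ∨ y = q) →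
      p = v → Two (subdivideEdge H u v) (some u) := by
    rintro u v p q huv hpq h rfl
    refine ⟨none, some q, by simp, ?_⟩
    rintro (_ | y)
    · simp [subdiv_none']
    · rw [subdiv_some, h]
      constructor
      · rintro ⟨h1 | h1, h2, h3⟩
        · exact absurd ⟨rfl, h1⟩ h2
        · exact Or.inr (congrArg some h1)
      · rintro (h1 | h1)
        · cases h1
        · have h1 := Option.some.inj h1
          refine ⟨Or.inr h1, ?_, ?_⟩
          · rintro ⟨_, h2⟩; exact hpq (h2.symm.trans h1)
          · rintro ⟨h2, h3⟩; exact huv.ne h2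
  have sw : subdivideEdge H u v = subdivideEdge H v u := by
    ext a b
    rcases a with _ | a <;> rcases b with _ | b
    · simp
    · simp only [subdiv_none]; tauto
    · simp only [subdiv_none']; tauto
    · simp only [subdiv_some]; tauto
  obtain ⟨p, q, hpq, h⟩ := h
  by_cases hxu : x = u
  · subst hxu
    rcases (h v).1 huv with h1 | h1
    · exact aux x v p q huv hpq h h1.symm
    · exact aux x v q p huv hpq.symm (fun y => by rw [h]; tauto) h1.symm
  by_cases hxv : x = v
  · subst hxv
    rw [sw]
    rcases (h u).1 huv.symm with h1 | h1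
    · exact aux x u p q huv.symm hpq h h1.symm
    · exact aux x u q p huv.symm hpq.symm (fun y => by rw [h]; tauto) h1.symm
  refine ⟨some p, some q, by simpa using hpq, ?_⟩
  rintro (_ | y)
  · simp [subdiv_none', hxu, hxv]
  · simp [subdiv_some, h, hxu, hxv]

lemma Two.new {u v : V} (huv : H.Adj u v) : Two (subdivideEdge H u v) none := by
  refine ⟨some u, some v, by simpa using huv.ne, ?_⟩
  rintro (_ | y)
  · simp
  · simp [subdiv_none]

theorem q1_inv (h : IsSubdivision H S) (hH : Q1 H) : Q1 S := by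
  refine h.inv (fun {V} G => Q1 G) ?_ ?_ hH
  · rintro V W H S e ⟨a, b, c, h1, h2, h3, h4, h5, h6⟩
    exact ⟨e a, e b, e c, fun h => h1 (e.injective h), fun h => h2 (e.injective h),
      fun h => h3 (e.injective h), by rwa [e.map_adj_iff], by rwa [e.map_adj_iff],
      by rwa [e.map_adj_iff]⟩
  · rintro V H u v huv ⟨a, b, c, h1, h2, h3, h4, h5, h6⟩
    exact ⟨some a, some b, some c, by simpa using h1, by simpa using h2, by simpa using h3,
      fun h => h4 (subdiv_some.1 h).1, fun h => h5 (subdiv_some.1 h).1,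
      fun h => h6 (subdiv_some.1 h).1⟩

lemma subdiv_comm {u v : V} : subdivideEdge H u v = subdivideEdge H v u := by
  ext a b
  rcases a with _ | a <;> rcases b with _ | b
  · simp
  · simp only [subdiv_none]; tauto
  · simp only [subdiv_none']; tauto
  · simp only [subdiv_some]; tauto

/-- after a subdivision an edge `ab` still gives an edge at `a`, whose other end is `b` or the new
vertex -/
lemma edge_subdiv {u v a b : V} (hab : H.Adj a b) :
    (subdivideEdge H u v).Adj (some a) (some b) ∨
      ((subdivideEdge H u v).Adj (some a) none ∧ ((a = u ∧ b = v) ∨ (a = v ∧ b = u))) := by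
  by_cases h1 : (a = u ∧ b = v) ∨ (a = v ∧ b = u)
  · right
    refine ⟨?_, h1⟩
    rw [subdiv_none']
    tauto
  · left
    rw [subdiv_some]
    tauto

theorem q2_inv (h : IsSubdivision H S) (hH : Q2 H) : Q2 S := by
  refine h.inv (fun {V} G => Q2 G) ?_ ?_ hH
  · rintro V W H S e ⟨a, b, c, d, hab, hcd, h1, h2, h3, h4, k1, k2, k3, k4⟩
    exact ⟨e a, e b, e c, e d, by rwa [e.map_adj_iff], by rwa [e.map_adj_iff],
      fun h => h1 (e.injective h), fun h => h2 (e.injective h),
      fun h => h3 (e.injective h), fun h => h4 (e.injective h), by rwa [e.map_adj_iff],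
      by rwa [e.map_adj_iff], by rwa [e.map_adj_iff], by rwa [e.map_adj_iff]⟩
  · rintro V H u v huv ⟨a, b, c, d, hab, hcd, h1, h2, h3, h4, k1, k2, k3, k4⟩
    have n1 : ∀ x y : V, ¬ H.Adj x y → ¬ (subdivideEdge H u v).Adj (some x) (some y) :=
      fun x y h h' => h (subdiv_some.1 h').1
    have ne : ∀ x y : V, x ≠ y → (some x : Option V) ≠ some y := fun x y h => by simpa using h
    rcases edge_subdiv (u := u) (v := v) hab with e1 | ⟨e1, e2⟩
    · rcases edge_subdiv (u := u) (v := v) hcd with f1 | ⟨f1, f2⟩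
      · exact ⟨some a, some b, some c, some d, e1, f1, ne _ _ h1, ne _ _ h2, ne _ _ h3, ne _ _ h4,
          n1 _ _ k1, n1 _ _ k2, n1 _ _ k3, n1 _ _ k4⟩
      · refine ⟨some a, some b, some c, none, e1, f1, ne _ _ h1, by simp, ne _ _ h3, by simp,
          n1 _ _ k1, ?_, n1 _ _ k3, ?_⟩
        · rw [subdiv_none']
          rintro (h | h) <;> rcases f2 with ⟨f2, f3⟩ | ⟨f2, f3⟩
          · exact h1 (h.trans f2.symm)
          · exact h2 (h.trans f3.symm)
          · exact h2 (h.trans f3.symm)
          · exact h1 (h.trans f2.symm)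
        · rw [subdiv_none']
          rintro (h | h) <;> rcases f2 with ⟨f2, f3⟩ | ⟨f2, f3⟩
          · exact h3 (h.trans f2.symm)
          · exact h4 (h.trans f3.symm)
          · exact h4 (h.trans f3.symm)
          · exact h3 (h.trans f2.symm)
    · -- `ab` is subdivided, so `cd` is not
      have f1 : (subdivideEdge H u v).Adj (some c) (some d) := by
        rw [subdiv_some]
        refine ⟨hcd, ?_, ?_⟩
        · rintro ⟨f1, f2⟩
          rcases e2 with ⟨e2, e3⟩ | ⟨e2, e3⟩
          · exact h1 (e2.trans f1.symm)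
          · exact h2 (e2.trans f2.symm)
        · rintro ⟨f1, f2⟩
          rcases e2 with ⟨e2, e3⟩ | ⟨e2, e3⟩
          · exact h2 (e2.trans f2.symm)
          · exact h1 (e2.trans f1.symm)
      refine ⟨some a, none, some c, some d, e1, f1, ne _ _ h1, ne _ _ h2, by simp, by simp,
        n1 _ _ k1, n1 _ _ k2, ?_, ?_⟩
      · rw [subdiv_none]
        rintro (h | h) <;> rcases e2 with ⟨f2, f3⟩ | ⟨f2, f3⟩
        · exact h1 (f2.trans h.symm)
        · exact h3 (f3.trans h.symm)
        · exact h3 (f3.trans h.symm)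
        · exact h1 (f2.trans h.symm)
      · rw [subdiv_none]
        rintro (h | h) <;> rcases e2 with ⟨f2, f3⟩ | ⟨f2, f3⟩
        · exact h2 (f2.trans h.symm)
        · exact h4 (f3.trans h.symm)
        · exact h4 (f3.trans h.symm)
        · exact h2 (f2.trans h.symm)

theorem q3_inv (h : IsSubdivision H S) (hH : Q3 H) : Q3 S := by
  refine h.inv (fun {V} G => Q3 G) ?_ ?_ hH
  · rintro V W H S e ⟨h, a, b, c, d, h1, h2, h3, h4, h5, h6⟩
    refine ⟨fun x => ?_, e a, e b, e c, e d, fun h => h1 (e.injective h),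
      fun h => h2 (e.injective h), fun h => h3 (e.injective h), fun h => h4 (e.injective h),
      fun h => h5 (e.injective h), fun h => h6 (e.injective h)⟩
    obtain ⟨x, rfl⟩ := e.surjective x
    exact (h x).iso e
  · rintro V H u v huv ⟨h, a, b, c, d, h1, h2, h3, h4, h5, h6⟩
    refine ⟨?_, some a, some b, some c, some d, by simpa using h1, by simpa using h2,
      by simpa using h3, by simpa using h4, by simpa using h5, by simpa using h6⟩
    rintro (_ | x)
    · exact Two.new huv
    · exact (h x).subdiv huv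

theorem q4_inv (h : IsSubdivision H S) (hH : Q4 H) : Q4 S := by
  refine h.inv (fun {V} G => Q4 G) ?_ ?_ hH
  · rintro V W H S e ⟨w, h1, h2, x, hx⟩
    refine ⟨e w, fun y => ?_, fun y hy => ?_, e x, fun h => hx (e.injective h)⟩
    · obtain ⟨y, rfl⟩ := e.surjective y
      rw [e.map_adj_iff]; exact h1 y
    · obtain ⟨y, rfl⟩ := e.surjective y
      exact (h2 y (fun h => hy (congrArg e h))).iso e
  · rintro V H u v huv ⟨w, h1, h2, x, hx⟩
    refine ⟨some w, ?_, ?_, some x, by simpa using hx⟩
    · rintro (_ | y)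
      · rw [subdiv_none']
        rintro (h | h)
        · subst h; exact h1 _ huv
        · subst h; exact h1 _ huv.symm
      · exact fun h => h1 y (subdiv_some.1 h).1
    · rintro (_ | y) hy
      · exact Two.new huv
      · exact (h2 y (by simpa using hy)).subdiv huv

theorem q5_inv (h : IsSubdivision H S) (hH : Q5 H) : Q5 S := by
  refine h.inv (fun {V} G => Q5 G) ?_ ?_ hH
  · rintro V W H S e ⟨v, p, q, r, s, k1, k2, k3, k4, h1, h2, h3, h4, h5, h6⟩
    exact ⟨e v, e p, e q, e r, e s, by rwa [e.map_adj_iff], by rwa [e.map_adj_iff],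
      by rwa [e.map_adj_iff], by rwa [e.map_adj_iff], fun h => h1 (e.injective h),
      fun h => h2 (e.injective h), fun h => h3 (e.injective h), fun h => h4 (e.injective h),
      fun h => h5 (e.injective h), fun h => h6 (e.injective h)⟩
  · rintro V H u w huw ⟨v, p, q, r, s, k1, k2, k3, k4, h1, h2, h3, h4, h5, h6⟩
    -- new neighbours
    have key : ∃ g : V → Option V, ∀ x y, H.Adj v x → H.Adj v y →
        (subdivideEdge H u w).Adj (some v) (g x) ∧ (g x = g y → x = y) := by
      classical
      refine ⟨fun x => if (v = u ∧ x = w) ∨ (v = w ∧ x = u) then none else some x, ?_⟩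
      intro x y hx hy
      constructor
      · rcases edge_subdiv (u := u) (v := w) hx with h | ⟨h, h'⟩
        · have := (subdiv_some.1 h).2
          simp only
          rw [if_neg (by tauto)]
          exact h
        · simp only
          rw [if_pos h']; exact h
      · intro hxy
        by_cases c1 : (v = u ∧ x = w) ∨ (v = w ∧ x = u)
        · by_cases c2 : (v = u ∧ y = w) ∨ (v = w ∧ y = u)
          · rcases c1 with ⟨c1, c1'⟩ | ⟨c1, c1'⟩ <;> rcases c2 with ⟨c2, c2'⟩ | ⟨c2, c2'⟩
            · rw [c1', c2']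
            · exact absurd (c1.symm.trans c2) huw.ne
            · exact absurd (c2.symm.trans c1) huw.ne
            · rw [c1', c2']
          · simp only [c1, c2, if_true, if_false] at hxy
            cases hxy
        · by_cases c2 : (v = u ∧ y = w) ∨ (v = w ∧ y = u)
          · simp only [c1, c2, if_true, if_false] at hxy
            cases hxy
          · simp only [c1, c2, if_false] at hxy
            exact Option.some.inj hxy
    obtain ⟨g, hg⟩ := key
    exact ⟨some v, g p, g q, g r, g s, (hg p p k1 k1).1, (hg q q k2 k2).1, (hg r r k3 k3).1,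
      (hg s s k4 k4).1, fun h => h1 ((hg p q k1 k2).2 h), fun h => h2 ((hg p r k1 k3).2 h),
      fun h => h3 ((hg p s k1 k4).2 h), fun h => h4 ((hg q r k2 k3).2 h),
      fun h => h5 ((hg q s k2 k4).2 h), fun h => h6 ((hg r s k3 k4).2 h)⟩

theorem q6_inv (h : IsSubdivision H S) (hH : Q6 H) : Q6 S := by
  refine h.inv (fun {V} G => Q6 G) ?_ ?_ hH
  · rintro V W H S e ⟨b, x, h1, h2, h3, h4⟩
    refine ⟨fun i => e (b i), fun i j => e (x i j), fun i j h => h1 (e.injective h),
      fun i j hij => ?_, fun i j k hij hik hjk h => h3 i j k hij hik hjk (e.injective h),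
      fun i j k hij hik hjk h => ?_⟩
    · rw [e.map_adj_iff]; exact h2 i j hij
    · rw [e.map_adj_iff] at h
      have := h4 i j k hij hik hjk h
      exact ⟨congrArg e this.1, congrArg e this.2⟩
  · rintro V H u v huv ⟨b, x, h1, h2, h3, h4⟩
    classical
    refine ⟨fun i => some (b i),
      fun i j => if (b i = u ∧ x i j = v) ∨ (b i = v ∧ x i j = u) then none else some (x i j),
      fun i j h => h1 (Option.some.inj h), ?_, ?_, ?_⟩
    · intro i j hij
      rcases edge_subdiv (u := u) (v := v) (h2 i j hij) with h | ⟨h, h'⟩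
      · have := (subdiv_some.1 h).2
        simp only
        rw [if_neg (by tauto)]
        exact h
      · simp only
        rw [if_pos h']; exact h
    · intro i j k hij hik hjk
      simp only
      by_cases c1 : (b i = u ∧ x i j = v) ∨ (b i = v ∧ x i j = u)
      · by_cases c2 : (b i = u ∧ x i k = v) ∨ (b i = v ∧ x i k = u)
        · exfalso
          rcases c1 with ⟨c1, c1'⟩ | ⟨c1, c1'⟩ <;> rcases c2 with ⟨c2, c2'⟩ | ⟨c2, c2'⟩
          · exact h3 i j k hij hik hjk (c1'.trans c2'.symm)
          · exact huv.ne (c1.symm.trans c2)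
          · exact huv.ne (c2.symm.trans c1)
          · exact h3 i j k hij hik hjk (c1'.trans c2'.symm)
        · rw [if_pos c1, if_neg c2]; simp
      · by_cases c2 : (b i = u ∧ x i k = v) ∨ (b i = v ∧ x i k = u)
        · rw [if_neg c1, if_pos c2]; simp
        · rw [if_neg c1, if_neg c2]
          intro h
          exact h3 i j k hij hik hjk (Option.some.inj h)
    · intro i j k hij hik hjk
      simp only
      have base : ∀ j k, i ≠ j → i ≠ k → j ≠ k → (b i = u ∧ x i j = v) ∨ (b i = v ∧ x i j = u) →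
          ¬ (x i k = u ∨ x i k = v) := by
        intro j k hij hik hjk c1 c3
        have n1 : x i k ≠ b i := (h2 i k hik).ne'
        have n2 := h3 i j k hij hik hjk
        rcases c1 with ⟨c1, c1'⟩ | ⟨c1, c1'⟩ <;> rcases c3 with c3 | c3
        · exact n1 (c3.trans c1.symm)
        · exact n2 (c1'.trans c3.symm)
        · exact n2 (c1'.trans c3.symm)
        · exact n1 (c3.trans c1.symm)
      by_cases c1 : (b i = u ∧ x i j = v) ∨ (b i = v ∧ x i j = u)
      · by_cases c2 : (b i = u ∧ x i k = v) ∨ (b i = v ∧ x i k = u)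
        · rw [if_pos c1, if_pos c2]
          intro h; exact absurd h (SimpleGraph.irrefl _)
        · rw [if_pos c1, if_neg c2, subdiv_none]
          intro h; exact absurd h (base j k hij hik hjk c1)
      · by_cases c2 : (b i = u ∧ x i k = v) ∨ (b i = v ∧ x i k = u)
        · rw [if_neg c1, if_pos c2, subdiv_none']
          intro h; exact absurd h (base k j hik hij hjk.symm c2)
        · rw [if_neg c1, if_neg c2]
          intro h
          have := h4 i j k hij hik hjk (subdiv_some.1 h).1
          exact ⟨congrArg some this.1, congrArg some this.2⟩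

end

end Run7.h274.Itm
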