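import Pool.Agent.Run7.h274.Itm.Defs
import Pool.Agent.Run7.h274.Itm.Inv

/-! The finite part of the classification. Every graph is an induced subgraph of `P₄`, the paw or
the diamond, or it has one of seven patterns. The case distinctions were generated by a program. -/

namespace Run7.h274.Itm

open Pool.Agent.H175R2

/-- the cycle on four vertices -/
def C4 : SimpleGraph (Fin 4) := SimpleGraph.fromRel (fun x y => x.val + 1 = y.val ∨ (x.val = 3 ∧ y.val = 0))

/-- the cycle on five vertices -/
def C5 : SimpleGraph (Fin 5) := SimpleGraph.fromRel (fun x y => x.val + 1 = y.val ∨ (x.val = 4 ∧ y.val = 0))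

/-- an isolated vertex `0` and a triangle -/
def P1K3 : SimpleGraph (Fin 4) := SimpleGraph.fromRel (fun x y => x.val ≠ 0 ∧ y.val ≠ 0)

/-- one of the seven patterns -/
def Bad {W : Type} (H : SimpleGraph W) : Prop :=
  Q1 H ∨ Q2 H ∨ Q5 H ∨ Q6 H ∨ Nonempty (C4 ↪g H) ∨ Nonempty (C5 ↪g H) ∨ Nonempty (P1K3 ↪g H)

/-- contained in `P₄`, the paw or the diamond -/
def Good {W : Type} (H : SimpleGraph W) : Prop :=
  Nonempty (H ↪g P4) ∨ Nonempty (H ↪g paw) ∨ Nonempty (H ↪g diamond)

section
variable {W : Type} {H : SimpleGraph W}

lemma b3P1 {a b c : W} (ab : a ≠ b) (ac : a ≠ c) (bc : b ≠ c) (nab : ¬ H.Adj a b)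
    (nac : ¬ H.Adj a c) (nbc : ¬ H.Adj b c) : Bad H :=
  Or.inl ⟨a, b, c, ab, ac, bc, nab, nac, nbc⟩

lemma b2P2 {a b c d : W} (hab : H.Adj a b) (hcd : H.Adj c d) (ac : a ≠ c) (ad : a ≠ d)
    (bc : b ≠ c) (bd : b ≠ d) (nac : ¬ H.Adj a c) (nad : ¬ H.Adj a d) (nbc : ¬ H.Adj b c)
    (nbd : ¬ H.Adj b d) : Bad H :=
  Or.inr (Or.inl ⟨a, b, c, d, hab, hcd, ac, ad, bc, bd, nac, nad, nbc, nbd⟩)

lemma bD4 {v a b c d : W} (hva : H.Adj v a) (hvb : H.Adj v b) (hvc : H.Adj v c)
    (hvd : H.Adj v d) (ab : a ≠ b) (ac : a ≠ c) (ad : a ≠ d) (bc : b ≠ c) (bd : b ≠ d)
    (cd : c ≠ d) : Bad H :=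
  Or.inr (Or.inr (Or.inl ⟨v, a, b, c, d, hva, hvb, hvc, hvd, ab, ac, ad, bc, bd, cd⟩))

/-- embeddings from injective tuples -/
lemma emb_tuple {m : ℕ} {F : SimpleGraph (Fin m)} (f : Fin m → W) (hf : Function.Injective f)
    (h : ∀ i j, H.Adj (f i) (f j) ↔ F.Adj i j) : Nonempty (F ↪g H) :=
  ⟨⟨⟨f, hf⟩, fun {i j} => h i j⟩⟩

lemma bK4 {a b c d : W} (hab : H.Adj a b) (hac : H.Adj a c) (had : H.Adj a d) (hbc : H.Adj b c)
    (hbd : H.Adj b d) (hcd : H.Adj c d) : Bad H := by
  have key : ∀ i j : Fin 4, i ≠ j → H.Adj (![a, b, c, d] i) (![a, b, c, d] j) := by
    have e1 := hab.symm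
    have e2 := hac.symm
    have e3 := had.symm
    have e4 := hbc.symm
    have e5 := hbd.symm
    have e6 := hcd.symm
    intro i j
    fin_cases i <;> fin_cases j <;> simp [hab, hac, had, hbc, hbd, hcd, e1, e2, e3, e4, e5, e6]
  have inj : Function.Injective ![a, b, c, d] := by
    intro i j hij
    by_contra hne
    exact (key i j hne).ne hij
  refine Or.inr (Or.inr (Or.inr (Or.inl ⟨![a, b, c, d], fun _ j => ![a, b, c, d] j, inj, ?_, ?_, ?_⟩)))
  · intro i j hij; exact key i j hij
  · intro i j k _ _ hjk h; exact hjk (inj h)
  · intro i j k _ _ _ _; exact ⟨rfl, rfl⟩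

lemma bC4 {a b c d : W} (ac : a ≠ c) (bd : b ≠ d) (hab : H.Adj a b) (hbc : H.Adj b c)
    (hcd : H.Adj c d) (hda : H.Adj d a) (nac : ¬ H.Adj a c) (nbd : ¬ H.Adj b d) : Bad H := by
  refine Or.inr (Or.inr (Or.inr (Or.inr (Or.inl (emb_tuple ![a, b, c, d] ?_ ?_)))))
  · have e1 := hab.ne
    have e2 := hbc.ne
    have e3 := hcd.ne
    have e4 := hda.ne
    intro i j hij
    fin_cases i <;> fin_cases j <;> simp at hij ⊢ <;>
      first
      | exact absurd hij e1 | exact absurd hij.symm e1
      | exact absurd hij e2 | exact absurd hij.symm e2
      | exact absurd hij e3 | exact absurd hij.symm e3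
      | exact absurd hij e4 | exact absurd hij.symm e4
      | exact absurd hij ac | exact absurd hij.symm ac
      | exact absurd hij bd | exact absurd hij.symm bd
  · have e1 := hab.symm
    have e2 := hbc.symm
    have e3 := hcd.symm
    have e4 := hda.symm
    have m1 : ¬ H.Adj c a := fun h => nac h.symm
    have m2 : ¬ H.Adj d b := fun h => nbd h.symm
    intro i j
    fin_cases i <;> fin_cases j <;>
      simp [C4, SimpleGraph.fromRel_adj, hab, hbc, hcd, hda, e1, e2, e3, e4, nac, nbd, m1, m2]

lemma bP1K3 {w a b c : W} (hab : H.Adj a b) (hac : H.Adj a c) (hbc : H.Adj b c) (wa : w ≠ a)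
    (wb : w ≠ b) (wc : w ≠ c) (nwa : ¬ H.Adj w a) (nwb : ¬ H.Adj w b) (nwc : ¬ H.Adj w c) :
    Bad H := by
  refine Or.inr (Or.inr (Or.inr (Or.inr (Or.inr (Or.inr (emb_tuple ![w, a, b, c] ?_ ?_))))))
  · have e1 := hab.ne
    have e2 := hac.ne
    have e3 := hbc.ne
    intro i j hij
    fin_cases i <;> fin_cases j <;> simp at hij ⊢ <;>
      first
      | exact absurd hij e1 | exact absurd hij.symm e1
      | exact absurd hij e2 | exact absurd hij.symm e2
      | exact absurd hij e3 | exact absurd hij.symm e3
      | exact absurd hij wa | exact absurd hij.symm wa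
      | exact absurd hij wb | exact absurd hij.symm wb
      | exact absurd hij wc | exact absurd hij.symm wc
  · have e1 := hab.symm
    have e2 := hac.symm
    have e3 := hbc.symm
    have m1 : ¬ H.Adj a w := fun h => nwa h.symm
    have m2 : ¬ H.Adj b w := fun h => nwb h.symm
    have m3 : ¬ H.Adj c w := fun h => nwc h.symm
    intro i j
    fin_cases i <;> fin_cases j <;>
      simp [P1K3, SimpleGraph.fromRel_adj, hab, hac, hbc, e1, e2, e3, nwa, nwb, nwc, m1, m2, m3]

lemma bC5 {a b c d e : W} (ac : a ≠ c) (ad : a ≠ d) (bd : b ≠ d) (be : b ≠ e) (ce : c ≠ e)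
    (hab : H.Adj a b) (hbc : H.Adj b c) (hcd : H.Adj c d) (hde : H.Adj d e) (hea : H.Adj e a)
    (nac : ¬ H.Adj a c) (nad : ¬ H.Adj a d) (nbd : ¬ H.Adj b d) (nbe : ¬ H.Adj b e)
    (nce : ¬ H.Adj c e) : Bad H := by
  refine Or.inr (Or.inr (Or.inr (Or.inr (Or.inr (Or.inl (emb_tuple ![a, b, c, d, e] ?_ ?_))))))
  · have e1 := hab.ne
    have e2 := hbc.ne
    have e3 := hcd.ne
    have e4 := hde.ne
    have e5 := hea.ne
    intro i j hij
    fin_cases i <;> fin_cases j <;> simp at hij ⊢ <;>
      first
      | exact absurd hij e1 | exact absurd hij.symm e1
      | exact absurd hij e2 | exact absurd hij.symm e2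
      | exact absurd hij e3 | exact absurd hij.symm e3
      | exact absurd hij e4 | exact absurd hij.symm e4
      | exact absurd hij e5 | exact absurd hij.symm e5
      | exact absurd hij ac | exact absurd hij.symm ac
      | exact absurd hij ad | exact absurd hij.symm ad
      | exact absurd hij bd | exact absurd hij.symm bd
      | exact absurd hij be | exact absurd hij.symm be
      | exact absurd hij ce | exact absurd hij.symm ce
  · have e1 := hab.symm
    have e2 := hbc.symm
    have e3 := hcd.symm
    have e4 := hde.symm
    have e5 := hea.symm
    have m1 : ¬ H.Adj c a := fun h => nac h.symm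
    have m2 : ¬ H.Adj d a := fun h => nad h.symm
    have m3 : ¬ H.Adj d b := fun h => nbd h.symm
    have m4 : ¬ H.Adj e b := fun h => nbe h.symm
    have m5 : ¬ H.Adj e c := fun h => nce h.symm
    intro i j
    fin_cases i <;> fin_cases j <;>
      simp [C5, SimpleGraph.fromRel_adj, hab, hbc, hcd, hde, hea, e1, e2, e3, e4, e5, nac, nad,
        nbd, nbe, nce, m1, m2, m3, m4, m5]

/-- embeddings into four-vertex graphs -/
lemma emb_into {m : ℕ} {P : SimpleGraph (Fin 4)} (g : Fin m → W) (hs : Function.Surjective g)
    (hi : Function.Injective g) (σ : Fin m → Fin 4) (hσ : Function.Injective σ)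
    (h : ∀ i j, H.Adj (g i) (g j) ↔ P.Adj (σ i) (σ j)) : Nonempty (H ↪g P) := by
  let e := Equiv.ofBijective g ⟨hi, hs⟩
  have he : ∀ x, g (e.symm x) = x := fun x => e.apply_symm_apply x
  refine ⟨⟨⟨fun x => σ (e.symm x), fun x y hxy => e.symm.injective (hσ hxy)⟩, ?_⟩⟩
  intro x y
  rw [← he x, ← he y, h]
  simp only [Function.Embedding.coeFn_mk, he]

lemma g_P4 {a b c d : W} (ac : a ≠ c) (ad : a ≠ d) (bd : b ≠ d) (hab : H.Adj a b)
    (hbc : H.Adj b c) (hcd : H.Adj c d) (nac : ¬ H.Adj a c) (nad : ¬ H.Adj a d)
    (nbd : ¬ H.Adj b d) (hall : ∀ x, x = a ∨ x = b ∨ x = c ∨ x = d) : Good H := by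
  have e1 := hab.ne
  have e2 := hbc.ne
  have e3 := hcd.ne
  refine Or.inl (emb_into ![a, b, c, d] ?_ ?_ id Function.injective_id ?_)
  · intro x
    rcases hall x with rfl | rfl | rfl | rfl
    exacts [⟨0, rfl⟩, ⟨1, rfl⟩, ⟨2, rfl⟩, ⟨3, rfl⟩]
  · intro i j hij
    fin_cases i <;> fin_cases j <;> simp at hij ⊢ <;>
      first
      | exact absurd hij e1 | exact absurd hij.symm e1
      | exact absurd hij e2 | exact absurd hij.symm e2
      | exact absurd hij e3 | exact absurd hij.symm e3
      | exact absurd hij ac | exact absurd hij.symm ac
      | exact absurd hij ad | exact absurd hij.symm ad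
      | exact absurd hij bd | exact absurd hij.symm bd
  · have f1 := hab.symm
    have f2 := hbc.symm
    have f3 := hcd.symm
    have m1 : ¬ H.Adj c a := fun h => nac h.symm
    have m2 : ¬ H.Adj d a := fun h => nad h.symm
    have m3 : ¬ H.Adj d b := fun h => nbd h.symm
    intro i j
    fin_cases i <;> fin_cases j <;>
      simp [P4, SimpleGraph.fromRel_adj, hab, hbc, hcd, f1, f2, f3, nac, nad, nbd, m1, m2, m3]

lemma g_paw {a b c d : W} (bd : b ≠ d) (cd : c ≠ d) (hab : H.Adj a b) (hac : H.Adj a c)
    (hbc : H.Adj b c) (had : H.Adj a d) (nbd : ¬ H.Adj b d) (ncd : ¬ H.Adj c d)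
    (hall : ∀ x, x = a ∨ x = b ∨ x = c ∨ x = d) : Good H := by
  have e1 := hab.ne
  have e2 := hac.ne
  have e3 := hbc.ne
  have e4 := had.ne
  refine Or.inr (Or.inl (emb_into ![a, b, c, d] ?_ ?_ id Function.injective_id ?_))
  · intro x
    rcases hall x with rfl | rfl | rfl | rfl
    exacts [⟨0, rfl⟩, ⟨1, rfl⟩, ⟨2, rfl⟩, ⟨3, rfl⟩]
  · intro i j hij
    fin_cases i <;> fin_cases j <;> simp at hij ⊢ <;>
      first
      | exact absurd hij e1 | exact absurd hij.symm e1
      | exact absurd hij e2 | exact absurd hij.symm e2
      | exact absurd hij e3 | exact absurd hij.symm e3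
      | exact absurd hij e4 | exact absurd hij.symm e4
      | exact absurd hij bd | exact absurd hij.symm bd
      | exact absurd hij cd | exact absurd hij.symm cd
  · have f1 := hab.symm
    have f2 := hac.symm
    have f3 := hbc.symm
    have f4 := had.symm
    have m1 : ¬ H.Adj d b := fun h => nbd h.symm
    have m2 : ¬ H.Adj d c := fun h => ncd h.symm
    intro i j
    fin_cases i <;> fin_cases j <;>
      simp [paw, SimpleGraph.fromRel_adj, hab, hac, hbc, had, f1, f2, f3, f4, nbd, ncd, m1, m2]

lemma g_dia {a b c d : W} (cd : c ≠ d) (hab : H.Adj a b) (hac : H.Adj a c) (had : H.Adj a d)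
    (hbc : H.Adj b c) (hbd : H.Adj b d) (ncd : ¬ H.Adj c d)
    (hall : ∀ x, x = a ∨ x = b ∨ x = c ∨ x = d) : Good H := by
  have e1 := hab.ne
  have e2 := hac.ne
  have e3 := had.ne
  have e4 := hbc.ne
  have e5 := hbd.ne
  refine Or.inr (Or.inr (emb_into ![a, b, c, d] ?_ ?_ id Function.injective_id ?_))
  · intro x
    rcases hall x with rfl | rfl | rfl | rfl
    exacts [⟨0, rfl⟩, ⟨1, rfl⟩, ⟨2, rfl⟩, ⟨3, rfl⟩]
  · intro i j hij
    fin_cases i <;> fin_cases j <;> simp at hij ⊢ <;>
      first
      | exact absurd hij e1 | exact absurd hij.symm e1
      | exact absurd hij e2 | exact absurd hij.symm e2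
      | exact absurd hij e3 | exact absurd hij.symm e3
      | exact absurd hij e4 | exact absurd hij.symm e4
      | exact absurd hij e5 | exact absurd hij.symm e5
      | exact absurd hij cd | exact absurd hij.symm cd
  · have f1 := hab.symm
    have f2 := hac.symm
    have f3 := had.symm
    have f4 := hbc.symm
    have f5 := hbd.symm
    have m1 : ¬ H.Adj d c := fun h => ncd h.symm
    intro i j
    fin_cases i <;> fin_cases j <;>
      simp [diamond, SimpleGraph.fromRel_adj, hab, hac, had, hbc, hbd, f1, f2, f3, f4, f5, ncd, m1]

lemma g_P3 {a b c : W} (ac : a ≠ c) (hab : H.Adj a b) (hbc : H.Adj b c) (nac : ¬ H.Adj a c)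
    (hall : ∀ x, x = a ∨ x = b ∨ x = c) : Good H := by
  have e1 := hab.ne
  have e2 := hbc.ne
  refine Or.inl (emb_into ![a, b, c] ?_ ?_ ![0, 1, 2] (by decide) ?_)
  · intro x
    rcases hall x with rfl | rfl | rfl
    exacts [⟨0, rfl⟩, ⟨1, rfl⟩, ⟨2, rfl⟩]
  · intro i j hij
    fin_cases i <;> fin_cases j <;> simp at hij ⊢ <;>
      first
      | exact absurd hij e1 | exact absurd hij.symm e1
      | exact absurd hij e2 | exact absurd hij.symm e2
      | exact absurd hij ac | exact absurd hij.symm ac
  · have f1 := hab.symm
    have f2 := hbc.symm
    have m1 : ¬ H.Adj c a := fun h => nac h.symm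
    intro i j
    fin_cases i <;> fin_cases j <;> simp [P4, SimpleGraph.fromRel_adj, hab, hbc, f1, f2, nac, m1]

lemma g_K3 {a b c : W} (hab : H.Adj a b) (hac : H.Adj a c) (hbc : H.Adj b c)
    (hall : ∀ x, x = a ∨ x = b ∨ x = c) : Good H := by
  have e1 := hab.ne
  have e2 := hbc.ne
  have e3 := hac.ne
  refine Or.inr (Or.inl (emb_into ![a, b, c] ?_ ?_ ![0, 1, 2] (by decide) ?_))
  · intro x
    rcases hall x with rfl | rfl | rfl
    exacts [⟨0, rfl⟩, ⟨1, rfl⟩, ⟨2, rfl⟩]
  · intro i j hij
    fin_cases i <;> fin_cases j <;> simp at hij ⊢ <;>
      first
      | exact absurd hij e1 | exact absurd hij.symm e1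
      | exact absurd hij e2 | exact absurd hij.symm e2
      | exact absurd hij e3 | exact absurd hij.symm e3
  · have f1 := hab.symm
    have f2 := hbc.symm
    have f3 := hac.symm
    intro i j
    fin_cases i <;> fin_cases j <;> simp [paw, SimpleGraph.fromRel_adj, hab, hbc, hac, f1, f2, f3]

lemma g_P2P1 {a b c : W} (ac : a ≠ c) (bc : b ≠ c) (hab : H.Adj a b) (nac : ¬ H.Adj a c)
    (nbc : ¬ H.Adj b c) (hall : ∀ x, x = a ∨ x = b ∨ x = c) : Good H := by
  have e1 := hab.ne
  refine Or.inl (emb_into ![a, b, c] ?_ ?_ ![0, 1, 3] (by decide) ?_)
  · intro x
    rcases hall x with rfl | rfl | rfl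
    exacts [⟨0, rfl⟩, ⟨1, rfl⟩, ⟨2, rfl⟩]
  · intro i j hij
    fin_cases i <;> fin_cases j <;> simp at hij ⊢ <;>
      first
      | exact absurd hij e1 | exact absurd hij.symm e1
      | exact absurd hij bc | exact absurd hij.symm bc
      | exact absurd hij ac | exact absurd hij.symm ac
  · have f1 := hab.symm
    have m1 : ¬ H.Adj c a := fun h => nac h.symm
    have m2 : ¬ H.Adj c b := fun h => nbc h.symm
    intro i j
    fin_cases i <;> fin_cases j <;>
      simp [P4, SimpleGraph.fromRel_adj, hab, f1, nac, nbc, m1, m2]

lemma g_two {a b : W} (ab : a ≠ b) (hall : ∀ x, x = a ∨ x = b) : Good H := by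
  by_cases hab : H.Adj a b
  · refine Or.inl (emb_into ![a, b] ?_ ?_ ![0, 1] (by decide) ?_)
    · intro x
      rcases hall x with rfl | rfl
      exacts [⟨0, rfl⟩, ⟨1, rfl⟩]
    · intro i j hij
      fin_cases i <;> fin_cases j <;> simp at hij ⊢
      · exact absurd hij ab
      · exact absurd hij.symm ab
    · have f1 := hab.symm
      intro i j
      fin_cases i <;> fin_cases j <;> simp [P4, SimpleGraph.fromRel_adj, hab, f1]
  · refine Or.inl (emb_into ![a, b] ?_ ?_ ![0, 2] (by decide) ?_)
    · intro x
      rcases hall x with rfl | rfl
      exacts [⟨0, rfl⟩, ⟨1, rfl⟩]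
    · intro i j hij
      fin_cases i <;> fin_cases j <;> simp at hij ⊢
      · exact absurd hij ab
      · exact absurd hij.symm ab
    · have m1 : ¬ H.Adj b a := fun h => hab h.symm
      intro i j
      fin_cases i <;> fin_cases j <;> simp [P4, SimpleGraph.fromRel_adj, hab, m1]

lemma g_one {a : W} (hall : ∀ x, x = a) : Good H := by
  refine Or.inl ⟨⟨⟨fun _ => 0, fun x y _ => (hall x).trans (hall y).symm⟩, ?_⟩⟩
  intro x y
  rw [hall x, hall y]
  simp

lemma g_zero (h : IsEmpty W) : Good H :=
  Or.inl ⟨⟨⟨fun _ => 0, fun x _ _ => (h.false x).elim⟩, fun {x} => (h.false x).elim⟩⟩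

theorem cls3 {v0 v1 v2 : W} (d01 : v0 ≠ v1) (d02 : v0 ≠ v2) (d12 : v1 ≠ v2)
    (hall : ∀ x, x = v0 ∨ x = v1 ∨ x = v2) : Bad H ∨ Good H := by
  by_cases h01 : H.Adj v0 v1
  · by_cases h02 : H.Adj v0 v2
    · by_cases h12 : H.Adj v1 v2
      · exact Or.inr (g_K3 h01 h02 h12 (fun x => by rcases hall x with h | h | h <;> simp [h]))
      · have n12 := h12
        exact Or.inr (g_P3 d12 h01.symm h02 n12 (fun x => by rcases hall x with h | h | h <;> simp [h]))
    · have n02 := h02
      by_cases h12 : H.Adj v1 v2
      · exact Or.inr (g_P3 d02 h01 h12 n02 (fun x => by rcases hall x with h | h | h <;> simp [h]))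
      · have n12 := h12
        exact Or.inr (g_P2P1 d02 d12 h01 n02 n12 (fun x => by rcases hall x with h | h | h <;> simp [h]))
  · have n01 := h01
    by_cases h02 : H.Adj v0 v2
    · by_cases h12 : H.Adj v1 v2
      · exact Or.inr (g_P3 d01 h02 h12.symm n01 (fun x => by rcases hall x with h | h | h <;> simp [h]))
      · have n12 := h12
        exact Or.inr (g_P2P1 d01 d12.symm h02 n01 (fun h => n12 h.symm) (fun x => by rcases hall x with h | h | h <;> simp [h]))
    · have n02 := h02
      by_cases h12 : H.Adj v1 v2
      · exact Or.inr (g_P2P1 d01.symm d02.symm h12 (fun h => n01 h.symm) (fun h => n02 h.symm) (fun x => by rcases hall x with h | h | h <;> simp [h]))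
      · have n12 := h12
        exact Or.inl (b3P1 d01 d02 d12 n01 n02 n12)

theorem cls4 {v0 v1 v2 v3 : W} (d01 : v0 ≠ v1) (d02 : v0 ≠ v2) (d03 : v0 ≠ v3) (d12 : v1 ≠ v2) (d13 : v1 ≠ v3) (d23 : v2 ≠ v3)
    (hall : ∀ x, x = v0 ∨ x = v1 ∨ x = v2 ∨ x = v3) : Bad H ∨ Good H := by
  by_cases h01 : H.Adj v0 v1
  · by_cases h02 : H.Adj v0 v2
    · by_cases h12 : H.Adj v1 v2
      · by_cases h03 : H.Adj v0 v3
        · by_cases h13 : H.Adj v1 v3
          · by_cases h23 : H.Adj v2 v3
            · exact Or.inl (bK4 h01 h02 h03 h12 h13 h23)
            · have n23 := h23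
              exact Or.inr (g_dia d23 h01 h02 h03 h12 h13 n23 (fun x => by rcases hall x with h | h | h | h <;> simp [h]))
          · have n13 := h13
            by_cases h23 : H.Adj v2 v3
            · exact Or.inr (g_dia d13 h02 h01 h03 h12.symm h23 n13 (fun x => by rcases hall x with h | h | h | h <;> simp [h]))
            · have n23 := h23
              exact Or.inr (g_paw d13 d23 h01 h02 h12 h03 n13 n23 (fun x => by rcases hall x with h | h | h | h <;> simp [h]))
        · have n03 := h03
          by_cases h13 : H.Adj v1 v3
          · by_cases h23 : H.Adj v2 v3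
            · exact Or.inr (g_dia d03 h12 h01.symm h13 h02.symm h23 n03 (fun x => by rcases hall x with h | h | h | h <;> simp [h]))
            · have n23 := h23
              exact Or.inr (g_paw d03 d23 h01.symm h12 h02 h13 n03 n23 (fun x => by rcases hall x with h | h | h | h <;> simp [h]))
          · have n13 := h13
            by_cases h23 : H.Adj v2 v3
            · exact Or.inr (g_paw d03 d13 h02.symm h12.symm h01 h23 n03 n13 (fun x => by rcases hall x with h | h | h | h <;> simp [h]))
            · have n23 := h23
              exact Or.inl (bP1K3 h01 h02 h12 d03.symm d13.symm d23.symm (fun h => n03 h.symm) (fun h => n13 h.symm) (fun h => n23 h.symm))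
      · have n12 := h12
        by_cases h13 : H.Adj v1 v3
        · by_cases h03 : H.Adj v0 v3
          · by_cases h23 : H.Adj v2 v3
            · exact Or.inr (g_dia d12 h03 h01 h02 h13.symm h23.symm n12 (fun x => by rcases hall x with h | h | h | h <;> simp [h]))
            · have n23 := h23
              exact Or.inr (g_paw d12 d23.symm h01 h03 h13 h02 n12 (fun h => n23 h.symm) (fun x => by rcases hall x with h | h | h | h <;> simp [h]))
          · have n03 := h03
            by_cases h23 : H.Adj v2 v3
            · exact Or.inl (bC4 d03 d12 h01 h13 h23.symm h02.symm n03 n12)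
            · have n23 := h23
              exact Or.inr (g_P4 d12.symm d23 d03 h02.symm h01 h13 (fun h => n12 h.symm) n23 n03 (fun x => by rcases hall x with h | h | h | h <;> simp [h]))
        · have n13 := h13
          by_cases h23 : H.Adj v2 v3
          · by_cases h03 : H.Adj v0 v3
            · exact Or.inr (g_paw d12.symm d13.symm h02 h03 h23 h01 (fun h => n12 h.symm) (fun h => n13 h.symm) (fun x => by rcases hall x with h | h | h | h <;> simp [h]))
            · have n03 := h03
              exact Or.inr (g_P4 d12 d13 d03 h01.symm h02 h23 n12 n13 n03 (fun x => by rcases hall x with h | h | h | h <;> simp [h]))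
          · have n23 := h23
            exact Or.inl (b3P1 d12 d13 d23 n12 n13 n23)
    · have n02 := h02
      by_cases h03 : H.Adj v0 v3
      · by_cases h12 : H.Adj v1 v2
        · by_cases h13 : H.Adj v1 v3
          · by_cases h23 : H.Adj v2 v3
            · exact Or.inr (g_dia d02 h13 h01.symm h12 h03.symm h23.symm n02 (fun x => by rcases hall x with h | h | h | h <;> simp [h]))
            · have n23 := h23
              exact Or.inr (g_paw d02 d23.symm h01.symm h13 h03 h12 n02 (fun h => n23 h.symm) (fun x => by rcases hall x with h | h | h | h <;> simp [h]))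
          · have n13 := h13
            by_cases h23 : H.Adj v2 v3
            · exact Or.inl (bC4 d02 d13 h01 h12 h23 h03.symm n02 n13)
            · have n23 := h23
              exact Or.inr (g_P4 d02.symm d23 d13 h12.symm h01.symm h03 (fun h => n02 h.symm) n23 n13 (fun x => by rcases hall x with h | h | h | h <;> simp [h]))
        · have n12 := h12
          by_cases h13 : H.Adj v1 v3
          · by_cases h23 : H.Adj v2 v3
            · exact Or.inr (g_paw d02 d12 h03.symm h13.symm h01 h23.symm n02 n12 (fun x => by rcases hall x with h | h | h | h <;> simp [h]))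
            · have n23 := h23
              exact Or.inl (bP1K3 h01 h03 h13 d02.symm d12.symm d23 (fun h => n02 h.symm) (fun h => n12 h.symm) n23)
          · have n13 := h13
            by_cases h23 : H.Adj v2 v3
            · exact Or.inr (g_P4 d13 d12 d02 h01.symm h03 h23.symm n13 n12 n02 (fun x => by rcases hall x with h | h | h | h <;> simp [h]))
            · have n23 := h23
              exact Or.inl (b3P1 d12 d13 d23 n12 n13 n23)
      · have n03 := h03
        by_cases h23 : H.Adj v2 v3
        · by_cases h12 : H.Adj v1 v2
          · by_cases h13 : H.Adj v1 v3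
            · exact Or.inr (g_paw d02.symm d03.symm h12 h13 h23 h01.symm (fun h => n02 h.symm) (fun h => n03 h.symm) (fun x => by rcases hall x with h | h | h | h <;> simp [h]))
            · have n13 := h13
              exact Or.inr (g_P4 d02 d03 d13 h01 h12 h23 n02 n03 n13 (fun x => by rcases hall x with h | h | h | h <;> simp [h]))
          · have n12 := h12
            by_cases h13 : H.Adj v1 v3
            · exact Or.inr (g_P4 d03 d02 d12 h01 h13 h23.symm n03 n02 n12 (fun x => by rcases hall x with h | h | h | h <;> simp [h]))
            · have n13 := h13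
              exact Or.inl (b2P2 h01 h23 d02 d03 d12 d13 n02 n03 n12 n13)
        · have n23 := h23
          exact Or.inl (b3P1 d02 d03 d23 n02 n03 n23)
  · have n01 := h01
    by_cases h02 : H.Adj v0 v2
    · by_cases h03 : H.Adj v0 v3
      · by_cases h12 : H.Adj v1 v2
        · by_cases h13 : H.Adj v1 v3
          · by_cases h23 : H.Adj v2 v3
            · exact Or.inr (g_dia d01 h23 h02.symm h12.symm h03.symm h13.symm n01 (fun x => by rcases hall x with h | h | h | h <;> simp [h]))
            · have n23 := h23
              exact Or.inl (bC4 d01 d23 h02 h12.symm h13 h03.symm n01 n23)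
          · have n13 := h13
            by_cases h23 : H.Adj v2 v3
            · exact Or.inr (g_paw d01 d13.symm h02.symm h23 h03 h12.symm n01 (fun h => n13 h.symm) (fun x => by rcases hall x with h | h | h | h <;> simp [h]))
            · have n23 := h23
              exact Or.inr (g_P4 d01.symm d13 d23 h12 h02.symm h03 (fun h => n01 h.symm) n13 n23 (fun x => by rcases hall x with h | h | h | h <;> simp [h]))
        · have n12 := h12
          by_cases h13 : H.Adj v1 v3
          · by_cases h23 : H.Adj v2 v3
            · exact Or.inr (g_paw d01 d12.symm h03.symm h23.symm h02 h13.symm n01 (fun h => n12 h.symm) (fun x => by rcases hall x with h | h | h | h <;> simp [h]))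
            · have n23 := h23
              exact Or.inr (g_P4 d01.symm d12 d23.symm h13 h03.symm h02 (fun h => n01 h.symm) n12 (fun h => n23 h.symm) (fun x => by rcases hall x with h | h | h | h <;> simp [h]))
          · have n13 := h13
            by_cases h23 : H.Adj v2 v3
            · exact Or.inl (bP1K3 h02 h03 h23 d01.symm d12 d13 (fun h => n01 h.symm) n12 n13)
            · have n23 := h23
              exact Or.inl (b3P1 d12 d13 d23 n12 n13 n23)
      · have n03 := h03
        by_cases h13 : H.Adj v1 v3
        · by_cases h12 : H.Adj v1 v2
          · by_cases h23 : H.Adj v2 v3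
            · exact Or.inr (g_paw d01.symm d03.symm h12.symm h23 h13 h02.symm (fun h => n01 h.symm) (fun h => n03 h.symm) (fun x => by rcases hall x with h | h | h | h <;> simp [h]))
            · have n23 := h23
              exact Or.inr (g_P4 d01 d03 d23 h02 h12.symm h13 n01 n03 n23 (fun x => by rcases hall x with h | h | h | h <;> simp [h]))
          · have n12 := h12
            by_cases h23 : H.Adj v2 v3
            · exact Or.inr (g_P4 d03 d01 d12.symm h02 h23 h13.symm n03 n01 (fun h => n12 h.symm) (fun x => by rcases hall x with h | h | h | h <;> simp [h]))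
            · have n23 := h23
              exact Or.inl (b2P2 h02 h13 d01 d03 d12.symm d23 n01 n03 (fun h => n12 h.symm) n23)
        · have n13 := h13
          exact Or.inl (b3P1 d01 d03 d13 n01 n03 n13)
    · have n02 := h02
      by_cases h12 : H.Adj v1 v2
      · by_cases h03 : H.Adj v0 v3
        · by_cases h13 : H.Adj v1 v3
          · by_cases h23 : H.Adj v2 v3
            · exact Or.inr (g_paw d01.symm d02.symm h13.symm h23.symm h12 h03.symm (fun h => n01 h.symm) (fun h => n02 h.symm) (fun x => by rcases hall x with h | h | h | h <;> simp [h]))
            · have n23 := h23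
              exact Or.inr (g_P4 d01 d02 d23.symm h03 h13.symm h12 n01 n02 (fun h => n23 h.symm) (fun x => by rcases hall x with h | h | h | h <;> simp [h]))
          · have n13 := h13
            by_cases h23 : H.Adj v2 v3
            · exact Or.inr (g_P4 d02 d01 d13.symm h03 h23.symm h12.symm n02 n01 (fun h => n13 h.symm) (fun x => by rcases hall x with h | h | h | h <;> simp [h]))
            · have n23 := h23
              exact Or.inl (b2P2 h03 h12 d01 d02 d13.symm d23.symm n01 n02 (fun h => n13 h.symm) (fun h => n23 h.symm))
        · have n03 := h03
          by_cases h13 : H.Adj v1 v3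
          · by_cases h23 : H.Adj v2 v3
            · exact Or.inl (bP1K3 h12 h13 h23 d01 d02 d03 n01 n02 n03)
            · have n23 := h23
              exact Or.inl (b3P1 d02 d03 d23 n02 n03 n23)
          · have n13 := h13
            exact Or.inl (b3P1 d01 d03 d13 n01 n03 n13)
      · have n12 := h12
        exact Or.inl (b3P1 d01 d02 d12 n01 n02 n12)

theorem cls5 {v0 v1 v2 v3 v4 : W} (d01 : v0 ≠ v1) (d02 : v0 ≠ v2) (d03 : v0 ≠ v3) (d04 : v0 ≠ v4) (d12 : v1 ≠ v2) (d13 : v1 ≠ v3) (d14 : v1 ≠ v4) (d23 : v2 ≠ v3) (d24 : v2 ≠ v4) (d34 : v3 ≠ v4) : Bad H := by
  by_cases h01 : H.Adj v0 v1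
  · by_cases h02 : H.Adj v0 v2
    · by_cases h03 : H.Adj v0 v3
      · by_cases h04 : H.Adj v0 v4
        · exact bD4 h01 h02 h03 h04 d12 d13 d14 d23 d24 d34
        · have n04 := h04
          by_cases h14 : H.Adj v1 v4
          · by_cases h24 : H.Adj v2 v4
            · by_cases h12 : H.Adj v1 v2
              · by_cases h13 : H.Adj v1 v3
                · exact bD4 h01.symm h12 h13 h14 d02 d03 d04 d23 d24 d34
                · have n13 := h13
                  by_cases h23 : H.Adj v2 v3
                  · exact bD4 h02.symm h12.symm h23 h24 d01 d03 d04 d13 d14 d34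
                  · have n23 := h23
                    by_cases h34 : H.Adj v3 v4
                    · exact bC4 d04 d13 h01 h14 h34.symm h03.symm n04 n13
                    · have n34 := h34
                      exact bP1K3 h12 h14 h24 d13.symm d23.symm d34 (fun h => n13 h.symm) (fun h => n23 h.symm) n34
              · have n12 := h12
                exact bC4 d04 d12 h01 h14 h24.symm h02.symm n04 n12
            · have n24 := h24
              by_cases h34 : H.Adj v3 v4
              · by_cases h13 : H.Adj v1 v3
                · by_cases h12 : H.Adj v1 v2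
                  · exact bD4 h01.symm h12 h13 h14 d02 d03 d04 d23 d24 d34
                  · have n12 := h12
                    by_cases h23 : H.Adj v2 v3
                    · exact bD4 h03.symm h13.symm h23.symm h34 d01 d02 d04 d12 d14 d24
                    · have n23 := h23
                      exact bP1K3 h13 h14 h34 d12.symm d23 d24 (fun h => n12 h.symm) n23 n24
                · have n13 := h13
                  exact bC4 d04 d13 h01 h14 h34.symm h03.symm n04 n13
              · have n34 := h34
                by_cases h23 : H.Adj v2 v3
                · exact bP1K3 h02 h03 h23 d04.symm d24.symm d34.symm (fun h => n04 h.symm) (fun h => n24 h.symm) (fun h => n34 h.symm)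
                · have n23 := h23
                  exact b3P1 d23 d24 d34 n23 n24 n34
          · have n14 := h14
            by_cases h24 : H.Adj v2 v4
            · by_cases h34 : H.Adj v3 v4
              · by_cases h23 : H.Adj v2 v3
                · by_cases h12 : H.Adj v1 v2
                  · exact bD4 h02.symm h12.symm h23 h24 d01 d03 d04 d13 d14 d34
                  · have n12 := h12
                    by_cases h13 : H.Adj v1 v3
                    · exact bD4 h03.symm h13.symm h23.symm h34 d01 d02 d04 d12 d14 d24
                    · have n13 := h13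
                      exact bP1K3 h23 h24 h34 d12 d13 d14 n12 n13 n14
                · have n23 := h23
                  exact bC4 d04 d23 h02 h24 h34.symm h03.symm n04 n23
              · have n34 := h34
                by_cases h13 : H.Adj v1 v3
                · exact bP1K3 h01 h03 h13 d04.symm d14.symm d34.symm (fun h => n04 h.symm) (fun h => n14 h.symm) (fun h => n34 h.symm)
                · have n13 := h13
                  exact b3P1 d13 d14 d34 n13 n14 n34
            · have n24 := h24
              by_cases h12 : H.Adj v1 v2
              · exact bP1K3 h01 h02 h12 d04.symm d14.symm d24.symm (fun h => n04 h.symm) (fun h => n14 h.symm) (fun h => n24 h.symm)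
              · have n12 := h12
                exact b3P1 d12 d14 d24 n12 n14 n24
      · have n03 := h03
        by_cases h13 : H.Adj v1 v3
        · by_cases h23 : H.Adj v2 v3
          · by_cases h12 : H.Adj v1 v2
            · by_cases h14 : H.Adj v1 v4
              · exact bD4 h01.symm h12 h13 h14 d02 d03 d04 d23 d24 d34
              · have n14 := h14
                by_cases h24 : H.Adj v2 v4
                · exact bD4 h02.symm h12.symm h23 h24 d01 d03 d04 d13 d14 d34
                · have n24 := h24
                  by_cases h04 : H.Adj v0 v4
                  · by_cases h34 : H.Adj v3 v4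
                    · exact bC4 d03 d14 h01 h13 h34 h04.symm n03 n14
                    · have n34 := h34
                      exact bP1K3 h12 h13 h23 d14.symm d24.symm d34.symm (fun h => n14 h.symm) (fun h => n24 h.symm) (fun h => n34 h.symm)
                  · have n04 := h04
                    exact bP1K3 h01 h02 h12 d04.symm d14.symm d24.symm (fun h => n04 h.symm) (fun h => n14 h.symm) (fun h => n24 h.symm)
            · have n12 := h12
              exact bC4 d03 d12 h01 h13 h23.symm h02.symm n03 n12
          · have n23 := h23
            by_cases h34 : H.Adj v3 v4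
            · by_cases h14 : H.Adj v1 v4
              · by_cases h12 : H.Adj v1 v2
                · exact bD4 h01.symm h12 h13 h14 d02 d03 d04 d23 d24 d34
                · have n12 := h12
                  by_cases h24 : H.Adj v2 v4
                  · by_cases h04 : H.Adj v0 v4
                    · exact bD4 h04.symm h14.symm h24.symm h34.symm d01 d02 d03 d12 d13 d23
                    · have n04 := h04
                      exact bC4 d04 d12 h01 h14 h24.symm h02.symm n04 n12
                  · have n24 := h24
                    exact bP1K3 h13 h14 h34 d12.symm d23 d24 (fun h => n12 h.symm) n23 n24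
              · have n14 := h14
                by_cases h04 : H.Adj v0 v4
                · exact bC4 d03 d14 h01 h13 h34 h04.symm n03 n14
                · have n04 := h04
                  by_cases h24 : H.Adj v2 v4
                  · by_cases h12 : H.Adj v1 v2
                    · exact bC4 d14 d23 h12 h24 h34.symm h13.symm n14 n23
                    · have n12 := h12
                      exact bC5 d03 d04 d14 d12 d23.symm h01 h13 h34 h24.symm h02.symm n03 n04 n14 n12 (fun h => n23 h.symm)
                  · have n24 := h24
                    exact b2P2 h02 h34 d03 d04 d23 d24 n03 n04 n23 n24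
            · have n34 := h34
              by_cases h04 : H.Adj v0 v4
              · by_cases h24 : H.Adj v2 v4
                · exact bP1K3 h02 h04 h24 d03.symm d23.symm d34 (fun h => n03 h.symm) (fun h => n23 h.symm) n34
                · have n24 := h24
                  exact b3P1 d23 d24 d34 n23 n24 n34
              · have n04 := h04
                exact b3P1 d03 d04 d34 n03 n04 n34
        · have n13 := h13
          by_cases h23 : H.Adj v2 v3
          · by_cases h34 : H.Adj v3 v4
            · by_cases h24 : H.Adj v2 v4
              · by_cases h12 : H.Adj v1 v2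
                · exact bD4 h02.symm h12.symm h23 h24 d01 d03 d04 d13 d14 d34
                · have n12 := h12
                  by_cases h14 : H.Adj v1 v4
                  · by_cases h04 : H.Adj v0 v4
                    · exact bD4 h04.symm h14.symm h24.symm h34.symm d01 d02 d03 d12 d13 d23
                    · have n04 := h04
                      exact bC4 d04 d12 h01 h14 h24.symm h02.symm n04 n12
                  · have n14 := h14
                    exact bP1K3 h23 h24 h34 d12 d13 d14 n12 n13 n14
              · have n24 := h24
                by_cases h04 : H.Adj v0 v4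
                · exact bC4 d03 d24 h02 h23 h34 h04.symm n03 n24
                · have n04 := h04
                  by_cases h14 : H.Adj v1 v4
                  · by_cases h12 : H.Adj v1 v2
                    · exact bC4 d13 d24 h12 h23 h34 h14.symm n13 n24
                    · have n12 := h12
                      exact bC5 d04 d03 d13 d12 d24.symm h01 h14 h34.symm h23.symm h02.symm n04 n03 n13 n12 (fun h => n24 h.symm)
                  · have n14 := h14
                    exact b2P2 h01 h34 d03 d04 d13 d14 n03 n04 n13 n14
            · have n34 := h34
              by_cases h04 : H.Adj v0 v4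
              · by_cases h14 : H.Adj v1 v4
                · exact bP1K3 h01 h04 h14 d03.symm d13.symm d34 (fun h => n03 h.symm) (fun h => n13 h.symm) n34
                · have n14 := h14
                  exact b3P1 d13 d14 d34 n13 n14 n34
              · have n04 := h04
                exact b3P1 d03 d04 d34 n03 n04 n34
          · have n23 := h23
            by_cases h12 : H.Adj v1 v2
            · exact bP1K3 h01 h02 h12 d03.symm d13.symm d23.symm (fun h => n03 h.symm) (fun h => n13 h.symm) (fun h => n23 h.symm)
            · have n12 := h12
              exact b3P1 d12 d13 d23 n12 n13 n23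
    · have n02 := h02
      by_cases h23 : H.Adj v2 v3
      · by_cases h04 : H.Adj v0 v4
        · by_cases h12 : H.Adj v1 v2
          · by_cases h13 : H.Adj v1 v3
            · by_cases h14 : H.Adj v1 v4
              · exact bD4 h01.symm h12 h13 h14 d02 d03 d04 d23 d24 d34
              · have n14 := h14
                by_cases h24 : H.Adj v2 v4
                · exact bC4 d02 d14 h01 h12 h24 h04.symm n02 n14
                · have n24 := h24
                  by_cases h34 : H.Adj v3 v4
                  · by_cases h03 : H.Adj v0 v3
                    · exact bD4 h03.symm h13.symm h23.symm h34 d01 d02 d04 d12 d14 d24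
                    · have n03 := h03
                      exact bC4 d03 d14 h01 h13 h34 h04.symm n03 n14
                  · have n34 := h34
                    exact bP1K3 h12 h13 h23 d14.symm d24.symm d34.symm (fun h => n14 h.symm) (fun h => n24 h.symm) (fun h => n34 h.symm)
            · have n13 := h13
              by_cases h03 : H.Adj v0 v3
              · exact bC4 d02 d13 h01 h12 h23 h03.symm n02 n13
              · have n03 := h03
                by_cases h14 : H.Adj v1 v4
                · by_cases h34 : H.Adj v3 v4
                  · by_cases h24 : H.Adj v2 v4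
                    · exact bD4 h04.symm h14.symm h24.symm h34.symm d01 d02 d03 d12 d13 d23
                    · have n24 := h24
                      exact bC4 d13 d24 h12 h23 h34 h14.symm n13 n24
                  · have n34 := h34
                    exact bP1K3 h01 h04 h14 d03.symm d13.symm d34 (fun h => n03 h.symm) (fun h => n13 h.symm) n34
                · have n14 := h14
                  by_cases h24 : H.Adj v2 v4
                  · exact bC4 d02 d14 h01 h12 h24 h04.symm n02 n14
                  · have n24 := h24
                    by_cases h34 : H.Adj v3 v4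
                    · exact bC5 d02 d03 d13 d14 d24 h01 h12 h23 h34 h04.symm n02 n03 n13 n14 n24
                    · have n34 := h34
                      exact b3P1 d13 d14 d34 n13 n14 n34
          · have n12 := h12
            by_cases h24 : H.Adj v2 v4
            · by_cases h34 : H.Adj v3 v4
              · by_cases h14 : H.Adj v1 v4
                · exact bD4 h04.symm h14.symm h24.symm h34.symm d01 d02 d03 d12 d13 d23
                · have n14 := h14
                  by_cases h13 : H.Adj v1 v3
                  · by_cases h03 : H.Adj v0 v3
                    · exact bD4 h03.symm h13.symm h23.symm h34 d01 d02 d04 d12 d14 d24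
                    · have n03 := h03
                      exact bC4 d03 d14 h01 h13 h34 h04.symm n03 n14
                  · have n13 := h13
                    exact bP1K3 h23 h24 h34 d12 d13 d14 n12 n13 n14
              · have n34 := h34
                by_cases h03 : H.Adj v0 v3
                · exact bC4 d02 d34 h03 h23.symm h24 h04.symm n02 n34
                · have n03 := h03
                  by_cases h13 : H.Adj v1 v3
                  · by_cases h14 : H.Adj v1 v4
                    · exact bC4 d12 d34 h13 h23.symm h24 h14.symm n12 n34
                    · have n14 := h14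
                      exact bC5 d03 d02 d12 d14 d34 h01 h13 h23.symm h24 h04.symm n03 n02 n12 n14 n34
                  · have n13 := h13
                    exact b2P2 h01 h23 d02 d03 d12 d13 n02 n03 n12 n13
            · have n24 := h24
              by_cases h14 : H.Adj v1 v4
              · exact bP1K3 h01 h04 h14 d02.symm d12.symm d24 (fun h => n02 h.symm) (fun h => n12 h.symm) n24
              · have n14 := h14
                exact b3P1 d12 d14 d24 n12 n14 n24
        · have n04 := h04
          by_cases h24 : H.Adj v2 v4
          · by_cases h03 : H.Adj v0 v3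
            · by_cases h13 : H.Adj v1 v3
              · by_cases h34 : H.Adj v3 v4
                · exact bD4 h03.symm h13.symm h23.symm h34 d01 d02 d04 d12 d14 d24
                · have n34 := h34
                  by_cases h14 : H.Adj v1 v4
                  · by_cases h12 : H.Adj v1 v2
                    · exact bD4 h01.symm h12 h13 h14 d02 d03 d04 d23 d24 d34
                    · have n12 := h12
                      exact bC4 d12 d34 h13 h23.symm h24 h14.symm n12 n34
                  · have n14 := h14
                    exact bP1K3 h01 h03 h13 d04.symm d14.symm d34.symm (fun h => n04 h.symm) (fun h => n14 h.symm) (fun h => n34 h.symm)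
              · have n13 := h13
                by_cases h12 : H.Adj v1 v2
                · exact bC4 d02 d13 h01 h12 h23 h03.symm n02 n13
                · have n12 := h12
                  by_cases h14 : H.Adj v1 v4
                  · by_cases h34 : H.Adj v3 v4
                    · exact bC4 d04 d13 h01 h14 h34.symm h03.symm n04 n13
                    · have n34 := h34
                      exact bC5 d04 d02 d12 d13 d34.symm h01 h14 h24.symm h23 h03.symm n04 n02 n12 n13 (fun h => n34 h.symm)
                  · have n14 := h14
                    exact b2P2 h01 h24 d02 d04 d12 d14 n02 n04 n12 n14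
            · have n03 := h03
              by_cases h34 : H.Adj v3 v4
              · exact bP1K3 h23 h24 h34 d02 d03 d04 n02 n03 n04
              · have n34 := h34
                exact b3P1 d03 d04 d34 n03 n04 n34
          · have n24 := h24
            exact b3P1 d02 d04 d24 n02 n04 n24
      · have n23 := h23
        by_cases h03 : H.Adj v0 v3
        · by_cases h12 : H.Adj v1 v2
          · by_cases h24 : H.Adj v2 v4
            · by_cases h14 : H.Adj v1 v4
              · by_cases h13 : H.Adj v1 v3
                · exact bD4 h01.symm h12 h13 h14 d02 d03 d04 d23 d24 d34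
                · have n13 := h13
                  by_cases h34 : H.Adj v3 v4
                  · by_cases h04 : H.Adj v0 v4
                    · exact bD4 h04.symm h14.symm h24.symm h34.symm d01 d02 d03 d12 d13 d23
                    · have n04 := h04
                      exact bC4 d04 d13 h01 h14 h34.symm h03.symm n04 n13
                  · have n34 := h34
                    exact bP1K3 h12 h14 h24 d13.symm d23.symm d34 (fun h => n13 h.symm) (fun h => n23 h.symm) n34
              · have n14 := h14
                by_cases h04 : H.Adj v0 v4
                · exact bC4 d02 d14 h01 h12 h24 h04.symm n02 n14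
                · have n04 := h04
                  by_cases h34 : H.Adj v3 v4
                  · by_cases h13 : H.Adj v1 v3
                    · exact bC4 d14 d23 h12 h24 h34.symm h13.symm n14 n23
                    · have n13 := h13
                      exact bC5 d02 d04 d14 d13 d23 h01 h12 h24 h34.symm h03.symm n02 n04 n14 n13 n23
                  · have n34 := h34
                    exact b2P2 h03 h24 d02 d04 d23.symm d34 n02 n04 (fun h => n23 h.symm) n34
            · have n24 := h24
              by_cases h04 : H.Adj v0 v4
              · by_cases h34 : H.Adj v3 v4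
                · exact bP1K3 h03 h04 h34 d02.symm d23 d24 (fun h => n02 h.symm) n23 n24
                · have n34 := h34
                  exact b3P1 d23 d24 d34 n23 n24 n34
              · have n04 := h04
                exact b3P1 d02 d04 d24 n02 n04 n24
          · have n12 := h12
            by_cases h13 : H.Adj v1 v3
            · exact bP1K3 h01 h03 h13 d02.symm d12.symm d23 (fun h => n02 h.symm) (fun h => n12 h.symm) n23
            · have n13 := h13
              exact b3P1 d12 d13 d23 n12 n13 n23
        · have n03 := h03
          exact b3P1 d02 d03 d23 n02 n03 n23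
  · have n01 := h01
    by_cases h02 : H.Adj v0 v2
    · by_cases h13 : H.Adj v1 v3
      · by_cases h04 : H.Adj v0 v4
        · by_cases h12 : H.Adj v1 v2
          · by_cases h23 : H.Adj v2 v3
            · by_cases h24 : H.Adj v2 v4
              · exact bD4 h02.symm h12.symm h23 h24 d01 d03 d04 d13 d14 d34
              · have n24 := h24
                by_cases h14 : H.Adj v1 v4
                · exact bC4 d01 d24 h02 h12.symm h14 h04.symm n01 n24
                · have n14 := h14
                  by_cases h34 : H.Adj v3 v4
                  · by_cases h03 : H.Adj v0 v3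
                    · exact bD4 h03.symm h13.symm h23.symm h34 d01 d02 d04 d12 d14 d24
                    · have n03 := h03
                      exact bC4 d03 d24 h02 h23 h34 h04.symm n03 n24
                  · have n34 := h34
                    exact bP1K3 h12 h13 h23 d14.symm d24.symm d34.symm (fun h => n14 h.symm) (fun h => n24 h.symm) (fun h => n34 h.symm)
            · have n23 := h23
              by_cases h03 : H.Adj v0 v3
              · exact bC4 d01 d23 h02 h12.symm h13 h03.symm n01 n23
              · have n03 := h03
                by_cases h14 : H.Adj v1 v4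
                · by_cases h24 : H.Adj v2 v4
                  · by_cases h34 : H.Adj v3 v4
                    · exact bD4 h04.symm h14.symm h24.symm h34.symm d01 d02 d03 d12 d13 d23
                    · have n34 := h34
                      exact bP1K3 h02 h04 h24 d03.symm d23.symm d34 (fun h => n03 h.symm) (fun h => n23 h.symm) n34
                  · have n24 := h24
                    exact bC4 d01 d24 h02 h12.symm h14 h04.symm n01 n24
                · have n14 := h14
                  by_cases h34 : H.Adj v3 v4
                  · by_cases h24 : H.Adj v2 v4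
                    · exact bC4 d14 d23 h12 h24 h34.symm h13.symm n14 n23
                    · have n24 := h24
                      exact bC5 d01 d03 d23 d24 d14 h02 h12.symm h13 h34 h04.symm n01 n03 n23 n24 n14
                  · have n34 := h34
                    exact b2P2 h04 h13 d01 d03 d14.symm d34.symm n01 n03 (fun h => n14 h.symm) (fun h => n34 h.symm)
          · have n12 := h12
            by_cases h14 : H.Adj v1 v4
            · by_cases h34 : H.Adj v3 v4
              · by_cases h24 : H.Adj v2 v4
                · exact bD4 h04.symm h14.symm h24.symm h34.symm d01 d02 d03 d12 d13 d23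
                · have n24 := h24
                  by_cases h23 : H.Adj v2 v3
                  · by_cases h03 : H.Adj v0 v3
                    · exact bD4 h03.symm h13.symm h23.symm h34 d01 d02 d04 d12 d14 d24
                    · have n03 := h03
                      exact bC4 d03 d24 h02 h23 h34 h04.symm n03 n24
                  · have n23 := h23
                    exact bP1K3 h13 h14 h34 d12.symm d23 d24 (fun h => n12 h.symm) n23 n24
              · have n34 := h34
                by_cases h03 : H.Adj v0 v3
                · exact bC4 d01 d34 h03 h13.symm h14 h04.symm n01 n34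
                · have n03 := h03
                  by_cases h23 : H.Adj v2 v3
                  · by_cases h24 : H.Adj v2 v4
                    · exact bC4 d12 d34 h13 h23.symm h24 h14.symm n12 n34
                    · have n24 := h24
                      exact bC5 d03 d01 d12.symm d24 d34 h02 h23 h13.symm h14 h04.symm n03 n01 (fun h => n12 h.symm) n24 n34
                  · have n23 := h23
                    exact b2P2 h02 h13 d01 d03 d12.symm d23 n01 n03 (fun h => n12 h.symm) n23
            · have n14 := h14
              by_cases h24 : H.Adj v2 v4
              · exact bP1K3 h02 h04 h24 d01.symm d12 d14 (fun h => n01 h.symm) n12 n14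
              · have n24 := h24
                exact b3P1 d12 d14 d24 n12 n14 n24
        · have n04 := h04
          by_cases h14 : H.Adj v1 v4
          · by_cases h03 : H.Adj v0 v3
            · by_cases h23 : H.Adj v2 v3
              · by_cases h34 : H.Adj v3 v4
                · exact bD4 h03.symm h13.symm h23.symm h34 d01 d02 d04 d12 d14 d24
                · have n34 := h34
                  by_cases h24 : H.Adj v2 v4
                  · by_cases h12 : H.Adj v1 v2
                    · exact bD4 h02.symm h12.symm h23 h24 d01 d03 d04 d13 d14 d34
                    · have n12 := h12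
                      exact bC4 d12 d34 h13 h23.symm h24 h14.symm n12 n34
                  · have n24 := h24
                    exact bP1K3 h02 h03 h23 d04.symm d24.symm d34.symm (fun h => n04 h.symm) (fun h => n24 h.symm) (fun h => n34 h.symm)
              · have n23 := h23
                by_cases h12 : H.Adj v1 v2
                · exact bC4 d01 d23 h02 h12.symm h13 h03.symm n01 n23
                · have n12 := h12
                  by_cases h24 : H.Adj v2 v4
                  · by_cases h34 : H.Adj v3 v4
                    · exact bC4 d04 d23 h02 h24 h34.symm h03.symm n04 n23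
                    · have n34 := h34
                      exact bC5 d04 d01 d12.symm d23 d34.symm h02 h24 h14.symm h13 h03.symm n04 n01 (fun h => n12 h.symm) n23 (fun h => n34 h.symm)
                  · have n24 := h24
                    exact b2P2 h02 h14 d01 d04 d12.symm d24 n01 n04 (fun h => n12 h.symm) n24
            · have n03 := h03
              by_cases h34 : H.Adj v3 v4
              · exact bP1K3 h13 h14 h34 d01 d03 d04 n01 n03 n04
              · have n34 := h34
                exact b3P1 d03 d04 d34 n03 n04 n34
          · have n14 := h14
            exact b3P1 d01 d04 d14 n01 n04 n14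
      · have n13 := h13
        by_cases h03 : H.Adj v0 v3
        · by_cases h12 : H.Adj v1 v2
          · by_cases h14 : H.Adj v1 v4
            · by_cases h24 : H.Adj v2 v4
              · by_cases h23 : H.Adj v2 v3
                · exact bD4 h02.symm h12.symm h23 h24 d01 d03 d04 d13 d14 d34
                · have n23 := h23
                  by_cases h34 : H.Adj v3 v4
                  · by_cases h04 : H.Adj v0 v4
                    · exact bD4 h04.symm h14.symm h24.symm h34.symm d01 d02 d03 d12 d13 d23
                    · have n04 := h04
                      exact bC4 d04 d23 h02 h24 h34.symm h03.symm n04 n23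
                  · have n34 := h34
                    exact bP1K3 h12 h14 h24 d13.symm d23.symm d34 (fun h => n13 h.symm) (fun h => n23 h.symm) n34
              · have n24 := h24
                by_cases h04 : H.Adj v0 v4
                · exact bC4 d01 d24 h02 h12.symm h14 h04.symm n01 n24
                · have n04 := h04
                  by_cases h34 : H.Adj v3 v4
                  · by_cases h23 : H.Adj v2 v3
                    · exact bC4 d13 d24 h12 h23 h34 h14.symm n13 n24
                    · have n23 := h23
                      exact bC5 d01 d04 d24 d23 d13 h02 h12.symm h14 h34.symm h03.symm n01 n04 n24 n23 n13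
                  · have n34 := h34
                    exact b2P2 h03 h14 d01 d04 d13.symm d34 n01 n04 (fun h => n13 h.symm) n34
            · have n14 := h14
              by_cases h04 : H.Adj v0 v4
              · by_cases h34 : H.Adj v3 v4
                · exact bP1K3 h03 h04 h34 d01.symm d13 d14 (fun h => n01 h.symm) n13 n14
                · have n34 := h34
                  exact b3P1 d13 d14 d34 n13 n14 n34
              · have n04 := h04
                exact b3P1 d01 d04 d14 n01 n04 n14
          · have n12 := h12
            by_cases h23 : H.Adj v2 v3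
            · exact bP1K3 h02 h03 h23 d01.symm d12 d13 (fun h => n01 h.symm) n12 n13
            · have n23 := h23
              exact b3P1 d12 d13 d23 n12 n13 n23
        · have n03 := h03
          exact b3P1 d01 d03 d13 n01 n03 n13
    · have n02 := h02
      by_cases h12 : H.Adj v1 v2
      · by_cases h03 : H.Adj v0 v3
        · by_cases h04 : H.Adj v0 v4
          · by_cases h13 : H.Adj v1 v3
            · by_cases h34 : H.Adj v3 v4
              · by_cases h23 : H.Adj v2 v3
                · exact bD4 h03.symm h13.symm h23.symm h34 d01 d02 d04 d12 d14 d24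
                · have n23 := h23
                  by_cases h24 : H.Adj v2 v4
                  · by_cases h14 : H.Adj v1 v4
                    · exact bD4 h04.symm h14.symm h24.symm h34.symm d01 d02 d03 d12 d13 d23
                    · have n14 := h14
                      exact bC4 d14 d23 h12 h24 h34.symm h13.symm n14 n23
                  · have n24 := h24
                    exact bP1K3 h03 h04 h34 d02.symm d23 d24 (fun h => n02 h.symm) n23 n24
              · have n34 := h34
                by_cases h14 : H.Adj v1 v4
                · exact bC4 d01 d34 h03 h13.symm h14 h04.symm n01 n34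
                · have n14 := h14
                  by_cases h24 : H.Adj v2 v4
                  · by_cases h23 : H.Adj v2 v3
                    · exact bC4 d02 d34 h03 h23.symm h24 h04.symm n02 n34
                    · have n23 := h23
                      exact bC5 d01 d02 d23.symm d34 d14 h03 h13.symm h12 h24 h04.symm n01 n02 (fun h => n23 h.symm) n34 n14
                  · have n24 := h24
                    exact b2P2 h04 h12 d01 d02 d14.symm d24.symm n01 n02 (fun h => n14 h.symm) (fun h => n24 h.symm)
            · have n13 := h13
              by_cases h14 : H.Adj v1 v4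
              · by_cases h23 : H.Adj v2 v3
                · by_cases h24 : H.Adj v2 v4
                  · by_cases h34 : H.Adj v3 v4
                    · exact bD4 h04.symm h14.symm h24.symm h34.symm d01 d02 d03 d12 d13 d23
                    · have n34 := h34
                      exact bC4 d02 d34 h03 h23.symm h24 h04.symm n02 n34
                  · have n24 := h24
                    by_cases h34 : H.Adj v3 v4
                    · exact bC4 d13 d24 h12 h23 h34 h14.symm n13 n24
                    · have n34 := h34
                      exact bC5 d02 d01 d13.symm d34 d24 h03 h23.symm h12.symm h14 h04.symm n02 n01 (fun h => n13 h.symm) n34 n24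
                · have n23 := h23
                  exact b2P2 h03 h12 d01 d02 d13.symm d23.symm n01 n02 (fun h => n13 h.symm) (fun h => n23 h.symm)
              · have n14 := h14
                by_cases h34 : H.Adj v3 v4
                · exact bP1K3 h03 h04 h34 d01.symm d13 d14 (fun h => n01 h.symm) n13 n14
                · have n34 := h34
                  exact b3P1 d13 d14 d34 n13 n14 n34
          · have n04 := h04
            by_cases h14 : H.Adj v1 v4
            · by_cases h24 : H.Adj v2 v4
              · exact bP1K3 h12 h14 h24 d01 d02 d04 n01 n02 n04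
              · have n24 := h24
                exact b3P1 d02 d04 d24 n02 n04 n24
            · have n14 := h14
              exact b3P1 d01 d04 d14 n01 n04 n14
        · have n03 := h03
          by_cases h13 : H.Adj v1 v3
          · by_cases h23 : H.Adj v2 v3
            · exact bP1K3 h12 h13 h23 d01 d02 d03 n01 n02 n03
            · have n23 := h23
              exact b3P1 d02 d03 d23 n02 n03 n23
          · have n13 := h13
            exact b3P1 d01 d03 d13 n01 n03 n13
      · have n12 := h12
        exact b3P1 d01 d02 d12 n01 n02 n12

/-- **the finite part of the classification** -/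
theorem cls (H : SimpleGraph W) : Bad H ∨ Good H := by
  by_cases h0 : IsEmpty W
  · exact Or.inr (g_zero h0)
  rw [not_isEmpty_iff] at h0
  obtain ⟨v0⟩ := h0
  by_cases h1 : ∀ x, x = v0
  · exact Or.inr (g_one h1)
  push Not at h1
  obtain ⟨v1, d1⟩ := h1
  by_cases h2 : ∀ x, x = v0 ∨ x = v1
  · exact Or.inr (g_two d1.symm h2)
  push Not at h2
  obtain ⟨v2, d2, d2'⟩ := h2
  by_cases h3 : ∀ x, x = v0 ∨ x = v1 ∨ x = v2
  · exact cls3 d1.symm d2.symm d2'.symm h3
  push Not at h3
  obtain ⟨v3, d3, d3', d3''⟩ := h3
  by_cases h4 : ∀ x, x = v0 ∨ x = v1 ∨ x = v2 ∨ x = v3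
  · exact cls4 d1.symm d2.symm d3.symm d2'.symm d3'.symm d3''.symm h4
  push Not at h4
  obtain ⟨v4, e0, e1, e2, e3⟩ := h4
  exact Or.inl (cls5 d1.symm d2.symm d3.symm e0.symm d2'.symm d3'.symm e1.symm d3''.symm
    e2.symm e3.symm)

end

end Run7.h274.Itm
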