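import Pool.Agent.Run7.h274.Itm.Path

/-! Configurations that give a subdivided diamond or a subdivided paw. -/

namespace Run7.h274.Itm

open Pool.Agent.H175R2 Finset Classical

variable {V : Type} {G : SimpleGraph V}

lemma diamond_of_cn {X : Finset V} {a b : V} (ha : a ∈ X) (hb : b ∈ X) (hab : a ≠ b)
    (hda : dg G X a = 3) (hdb : dg G X b = 3) (hd : ∀ x ∈ X, x ≠ a → x ≠ b → dg G X x = 2)
    (ca : Cn G (X.erase a)) (cb : Cn G (X.erase b)) : IsITM diamond G := by
  refine ⟨X, theta_sub X.card G X a b le_rfl ha hb hab hda hdb hd fun T hT haT hbT hne hcl => ?_⟩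
  constructor
  · by_contra hcon
    push Not at hcon
    obtain ⟨x, hx, y, hy, hxy⟩ := cb.2 T (fun t ht => mem_erase.2 ⟨by
      rintro rfl; exact hbT ht, hT ht⟩) hne ⟨a, mem_sdiff.2 ⟨mem_erase.2 ⟨hab, ha⟩, haT⟩⟩
    obtain ⟨h1, h2⟩ := mem_sdiff.1 hy
    obtain ⟨h3, h4⟩ := mem_erase.1 h1
    by_cases hya : y = a
    · subst hya; exact hcon x hx hxy
    · exact h2 (hcl x hx y h4 hya h3 hxy)
  · by_contra hcon
    push Not at hcon
    obtain ⟨x, hx, y, hy, hxy⟩ := ca.2 T (fun t ht => mem_erase.2 ⟨by
      rintro rfl; exact haT ht, hT ht⟩) hne ⟨b, mem_sdiff.2 ⟨mem_erase.2 ⟨hab.symm, hb⟩, hbT⟩⟩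
    obtain ⟨h1, h2⟩ := mem_sdiff.1 hy
    obtain ⟨h3, h4⟩ := mem_erase.1 h1
    by_cases hyb : y = b
    · subst hyb; exact hcon x hx hxy
    · exact h2 (hcl x hx y h4 h3 hyb hxy)

lemma paw_of_cn {X : Finset V} {a l : V} (ha : a ∈ X) (hl : l ∈ X) (hal : a ≠ l)
    (hda : dg G X a = 3) (hdl : dg G X l = 1) (hd : ∀ x ∈ X, x ≠ a → x ≠ l → dg G X x = 2)
    (c : Cn G X) : IsITM paw G := by
  refine ⟨X, tad_sub X.card G X a l le_rfl ha hl hal hda hdl hd fun T hT haT hne hcl => ?_⟩
  by_contra hcon
  push Not at hcon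
  obtain ⟨x, hx, y, hy, hxy⟩ := c.2 T hT hne ⟨a, mem_sdiff.2 ⟨ha, haT⟩⟩
  obtain ⟨h1, h2⟩ := mem_sdiff.1 hy
  by_cases hya : y = a
  · subst hya; exact hcon x hx hxy
  · exact h2 (hcl x hx y h1 hya hxy)

lemma diamond_of_four {p q r s : V} (hpq : G.Adj p q) (hpr : G.Adj p r) (hqr : G.Adj q r)
    (hps : G.Adj p s) (hqs : G.Adj q s) (hrs : ¬ G.Adj r s) (hne : r ≠ s) :
    IsITM diamond G := by
  refine ⟨(({p, q, r, s} : Finset V) : Set V), .iso (iso_of_fn (S := G)
    (X := {p, q, r, s}) (H := diamond) ![p, q, r, s] ?_ ?_ ?_).some⟩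
  · have h1 := hpq.ne
    have h2 := hpr.ne
    have h3 := hqr.ne
    have h4 := hps.ne
    have h5 := hqs.ne
    intro i j hij
    fin_cases i <;> fin_cases j <;> simp at hij ⊢ <;>
      first
      | exact absurd hij h1 | exact absurd hij.symm h1
      | exact absurd hij h2 | exact absurd hij.symm h2
      | exact absurd hij h3 | exact absurd hij.symm h3
      | exact absurd hij h4 | exact absurd hij.symm h4
      | exact absurd hij h5 | exact absurd hij.symm h5
      | exact absurd hij hne | exact absurd hij.symm hne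
  · intro x
    simp only [mem_insert, mem_singleton]
    constructor
    · rintro (rfl | rfl | rfl | rfl)
      · exact ⟨0, rfl⟩
      · exact ⟨1, rfl⟩
      · exact ⟨2, rfl⟩
      · exact ⟨3, rfl⟩
    · rintro ⟨i, rfl⟩
      fin_cases i <;> simp
  · have e1 := hpq.symm
    have e2 := hpr.symm
    have e3 := hqr.symm
    have e4 := hps.symm
    have e5 := hqs.symm
    have e6 : ¬ G.Adj s r := fun h => hrs h.symm
    intro i j
    fin_cases i <;> fin_cases j <;>
      simp [diamond, SimpleGraph.fromRel_adj, hpq, hpr, hqr, hps, hqs, hrs, e1, e2, e3, e4, e5, e6]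

/-- a vertex with three neighbours on an induced path -/
lemma three_nbrs : ∀ (n : ℕ) (y z v : V) (Q : Finset V), Q.card ≤ n → IP G y z Q → v ∉ Q →
    3 ≤ dg G Q v → IsITM diamond G := by
  intro n
  induction n with
  | zero =>
    intro y z v Q hc h
    have := card_pos.2 ⟨y, h.start⟩
    omega
  | succ n ih =>
    intro y z v Q hc h hv hd
    have hyz : y ≠ z := by
      intro he
      rw [h.eq_of_eq he] at hd
      have : dg G {y} v ≤ 1 := by
        unfold dg
        exact (card_filter_le _ _).trans (by simp)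
      omega
    -- drop an end when possible
    have drop : ∀ y z : V, IP G y z Q → y ≠ z → 3 ≤ dg G (Q.erase z) v → IsITM diamond G := by
      intro y z h hyz hd'
      obtain ⟨z0, P0, h1, h2, h3, h4, rfl⟩ := h.inv hyz
      rw [erase_insert h2] at hd'
      refine ih y z0 v P0 ?_ h1 (fun h5 => hv (mem_insert_of_mem h5)) hd'
      rw [card_insert_of_notMem h2] at hc
      omega
    by_cases d1 : 3 ≤ dg G (Q.erase z) v
    · exact drop y z h hyz d1
    by_cases d2 : 3 ≤ dg G (Q.erase y) v
    · exact drop z y h.symm hyz.symm d2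
    have hvz : G.Adj v z := by
      by_contra hn
      rw [dg_erase_of_not hn] at d1
      omega
    have hvy : G.Adj v y := by
      by_contra hn
      rw [dg_erase_of_not hn] at d2
      omega
    have hd3 : dg G Q v = 3 := by
      have := dg_erase (G := G) (P := Q) (x := v) (z := z)
      omega
    -- the third neighbour
    obtain ⟨f, hf, hvf, hfy, hfz⟩ : ∃ f ∈ Q, G.Adj v f ∧ f ≠ y ∧ f ≠ z := by
      by_contra hcon
      push Not at hcon
      have hsub : Q.filter (fun x => G.Adj v x) ⊆ {y, z} := by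
        intro t ht
        rw [mem_filter] at ht
        simp only [mem_insert, mem_singleton]
        by_cases hty : t = y
        · exact Or.inl hty
        · exact Or.inr (hcon t ht.1 ht.2 hty)
      have h1 := card_le_card hsub
      have h2 : ({y, z} : Finset V).card ≤ 2 := card_le_two
      unfold dg at hd3
      omega
    have hnb : ∀ x ∈ Q, G.Adj v x → x = y ∨ x = z ∨ x = f := by
      intro x hx hvx
      by_contra hcon
      push Not at hcon
      have hsub : ({x, y, z, f} : Finset V) ⊆ Q.filter (fun x => G.Adj v x) := by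
        intro t ht
        simp only [mem_insert, mem_singleton] at ht
        rw [mem_filter]
        rcases ht with rfl | rfl | rfl | rfl
        · exact ⟨hx, hvx⟩
        · exact ⟨h.start, hvy⟩
        · exact ⟨h.stop, hvz⟩
        · exact ⟨hf, hvf⟩
      have h1 := card_le_card hsub
      have h2 : ({x, y, z, f} : Finset V).card = 4 := by
        rw [card_insert_of_notMem, card_insert_of_notMem, card_insert_of_notMem, card_singleton]
        · simpa using hfz.symm
        · simp only [mem_insert, mem_singleton, not_or]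
          exact ⟨hyz, hfy.symm⟩
        · simp only [mem_insert, mem_singleton, not_or]
          exact ⟨hcon.1, hcon.2.1, hcon.2.2⟩
      unfold dg at hd3
      omega
    obtain ⟨i1, i2, i3⟩ := h.deg hyz
    have hvf' : v ≠ f := hvf.ne
    refine diamond_of_cn (X := insert v Q) (mem_insert_self v Q) (mem_insert_of_mem hf) hvf' ?_ ?_
      ?_ ?_ ?_
    · rw [dg_insert hv, hd3, if_neg (G.loopless.irrefl _)]
    · rw [dg_insert hv, i3 f hf hfy hfz, if_pos hvf.symm]
    · intro x hx hxv hxf
      rw [mem_insert] at hx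
      have hxQ := hx.resolve_left hxv
      rw [dg_insert hv]
      by_cases h1 : x = y
      · subst h1; rw [i1, if_pos hvy.symm]
      by_cases h2 : x = z
      · subst h2; rw [i2, if_pos hvz.symm]
      rw [i3 x hxQ h1 h2, if_neg]
      intro h3
      rcases hnb x hxQ h3.symm with h4 | h4 | h4
      · exact h1 h4
      · exact h2 h4
      · exact hxf h4
    · rw [erase_insert hv]; exact h.cn
    · obtain ⟨P1, P2, e, c1, hy1, c2, hz2⟩ := h.split hf hfy hfz
      rw [erase_insert_of_ne hvf', e]
      have e1 := c1.union (Cn.singleton (G := G) v) (Or.inl ⟨y, hy1, v, by simp, hvy.symm⟩)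
      have e2 := e1.union c2 (Or.inl ⟨v, by simp, z, hz2, hvz⟩)
      convert e2 using 1
      ext t
      simp only [mem_insert, mem_union, mem_singleton]
      tauto

/-- a vertex adjacent to both ends of an induced path with nonadjacent ends -/
lemma diamond_or_hole {x y v : V} {P : Finset V} (h : IP G x y P) : x ≠ y → ¬ G.Adj x y →
    v ∉ P → G.Adj v x → G.Adj v y → IsITM diamond G ∨ ∃ C, Hole G C := by
  induction h with
  | nil => intro h; exact absurd rfl h
  | @snoc z z' P h hz ha hu ih =>
    intro hxz' hn hv hvx hvz'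
    have hvP : v ∉ P := fun h1 => hv (mem_insert_of_mem h1)
    by_cases hvz : G.Adj v z
    · have hxz : x ≠ z := by
        rintro rfl
        exact hn ha.symm
      by_cases hxz'' : G.Adj x z
      · exact Or.inl (diamond_of_four hvz hvx hxz''.symm hvz' ha.symm hn hxz')
      · exact ih hxz hxz'' hvP hvx hvz
    · obtain ⟨w, Q, hQ, hip, hvw, hwu⟩ := h.suf (v := v) ⟨x, h.start, hvx⟩
      have hwz : w ≠ z := by rintro rfl; exact hvz hvw
      have hz'Q : z' ∉ Q := fun h1 => hz (hQ h1)
      have hip' : IP G w z' (insert z' Q) := .snoc hip hz'Q ha (fun t ht => hu t (hQ ht))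
      have hwz' : w ≠ z' := by rintro rfl; exact hz'Q hip.start
      refine Or.inr ⟨_, hole_of_path hip' (v := v) ?_ hvw hvz' hwz' ?_ ?_⟩
      · rw [mem_insert, not_or]
        refine ⟨fun h1 => hv (by rw [h1]; exact mem_insert_self _ _), fun h1 => hvP (hQ h1)⟩
      · intro h1
        exact hwz (hu w (hQ hip.start) h1.symm)
      · intro t ht hvt
        rw [mem_insert] at ht
        rcases ht with rfl | ht
        · exact Or.inr rfl
        · exact Or.inl (hwu t ht hvt)

end Run7.h274.Itm
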