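import Mathlib
import Pool.Agent.H175R2.Defs

/-! Definitions for MP_d0d08e_co: clique-width of graphs excluding an induced topological minor.

The clique-width `Pool.Agent.H175R2.cliqueWidth` and the graphs `Pool.Agent.H175R2.paw`,
`Pool.Agent.H175R2.diamond` come from the starting file `Pool/Agent/H175R2/Defs.lean`. -/

namespace Run7.h274.Itm

open Pool.Agent.H175R2

/-- Subdividing the edge `uv` of `G`: the new vertex `none` is adjacent to `u` and `v`, and
the edge `uv` is deleted. -/
def subdivideEdge {V : Type} (G : SimpleGraph V) (u v : V) : SimpleGraph (Option V) :=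
  SimpleGraph.fromRel (fun x y =>
    (∃ a b, x = some a ∧ y = some b ∧ G.Adj a b ∧ ¬(a = u ∧ b = v) ∧ ¬(a = v ∧ b = u)) ∨
    (x = none ∧ (y = some u ∨ y = some v)))

/-- `IsSubdivision H S`: the graph `S` is (isomorphic to) a subdivision of `H`, that is, it is
obtained from `H` by a sequence of zero or more subdivisions of edges. -/
inductive IsSubdivision : ∀ {V W : Type}, SimpleGraph V → SimpleGraph W → Prop
  | iso {V W : Type} {H : SimpleGraph V} {S : SimpleGraph W} (e : H ≃g S) : IsSubdivision H S
  | step {V W : Type} {H : SimpleGraph V} {S : SimpleGraph W} {u v : V} (huv : H.Adj u v)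
      (h : IsSubdivision (subdivideEdge H u v) S) : IsSubdivision H S

/-- `H` is an induced topological minor of `G`: some induced subgraph of `G` is (isomorphic to) a
subdivision of `H`. -/
def IsITM {V W : Type} (H : SimpleGraph W) (G : SimpleGraph V) : Prop :=
  ∃ X : Set V, IsSubdivision H (G.induce X)

/-- One constant bounds the clique-width of all finite graphs that do not contain `H` as an induced
topological minor. -/
def BddItm {W : Type} (H : SimpleGraph W) : Prop :=
  ∃ c : ℕ, ∀ (V : Type) [Finite V] (G : SimpleGraph V), ¬ IsITM H G → cliqueWidth G ≤ c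

/-- The path on four vertices `0 - 1 - 2 - 3`. -/
def P4 : SimpleGraph (Fin 4) := SimpleGraph.fromRel (fun x y => x.val + 1 = y.val)

end Run7.h274.Itm
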