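import Pool.Agent.Run7.h274.Itm.Conf
import Pool.Agent.H175R2.Blocks

/-! 2-connected graphs without a subdivided diamond. -/

namespace Run7.h274.Itm

open Pool.Agent.H175R2 Finset Classical

variable {V : Type} {G : SimpleGraph V}

/-- an ear of length `n` attached to `C` -/
def Ear (G : SimpleGraph V) (C : Finset V) (n : ℕ) : Prop :=
  ∃ d1 d2 P c1 c2, P.card = n ∧ Disjoint P C ∧ IP G d1 d2 P ∧ c1 ∈ C ∧ c2 ∈ C ∧ c1 ≠ c2 ∧
    G.Adj c1 d1 ∧ G.Adj c2 d2

lemma ear_exists [Fintype V] (hG : TwoConn G) {C : Finset V} (hC : Hole G C) {u : V} (hu : u ∉ C) :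
    ∃ n, Ear G C n := by
  have huW : u ∈ univ \ C := by simp [hu]
  set D := cpt G (univ \ C) u with hD
  have hDC : Disjoint D C := by
    rw [Finset.disjoint_left]
    intro t ht htC
    have := cpt_subset ht
    simp [htC] at this
  have hout : ∀ x ∈ D, ∀ y, y ∉ D → G.Adj x y → y ∈ C := by
    intro x hx y hy hxy
    by_contra hyC
    exact not_adj_cpt huW hx (by simp [hyC]) hy hxy
  have huD : u ∈ D := mem_cpt_self huW
  obtain ⟨c0, hc0⟩ := hC.cn.1
  obtain ⟨d1, hd1, c1, hc1, hadj1⟩ := hG.conn.2 D (subset_univ _) ⟨u, huD⟩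
    ⟨c0, mem_sdiff.2 ⟨mem_univ _, fun h => (Finset.disjoint_left.1 hDC) h hc0⟩⟩
  have hc1C := hout d1 hd1 c1 (mem_sdiff.1 hc1).2 hadj1
  obtain ⟨e, he, hne⟩ : ∃ e ∈ C, e ≠ c1 := by
    have : 1 < C.card := by have := hC.card; omega
    obtain ⟨e, he, hne⟩ := exists_mem_ne this c1
    exact ⟨e, he, hne⟩
  obtain ⟨d2, hd2, c2, hc2, hadj2⟩ := (hG.del c1).2 D (by
      intro t ht
      refine mem_erase.2 ⟨?_, mem_univ _⟩
      rintro rfl
      exact (Finset.disjoint_left.1 hDC) ht hc1C) ⟨u, huD⟩
    ⟨e, mem_sdiff.2 ⟨mem_erase.2 ⟨hne, mem_univ _⟩, fun h => (Finset.disjoint_left.1 hDC) h he⟩⟩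
  obtain ⟨h1, h2⟩ := mem_sdiff.1 hc2
  have hc2C := hout d2 hd2 c2 h2 hadj2
  obtain ⟨P, hP, hip⟩ := exists_IP (cn_cpt huW) hd1 hd2
  exact ⟨P.card, d1, d2, P, c1, c2, rfl, disjoint_of_subset_left hP hDC, hip, hc1C, hc2C,
    fun h => (mem_erase.1 h1).1 h.symm, hadj1.symm, hadj2.symm⟩

/-- a hole in a 2-connected graph without a subdivided diamond is everything -/
lemma hole_univ [Fintype V] (hG : TwoConn G) (hno : ¬ IsITM diamond G) {C : Finset V}
    (hC : Hole G C) : C = univ := by
  by_contra hne
  obtain ⟨u, hu⟩ : ∃ u, u ∉ C := by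
    by_contra hcon
    push Not at hcon
    exact hne (eq_univ_iff_forall.2 hcon)
  have hex := ear_exists hG hC hu
  obtain ⟨d1, d2, P, c1, c2, hcard, hd, hip, hc1, hc2, hc12, ha1, ha2⟩ := Nat.find_spec hex
  have hmin : ∀ m, m < P.card → ¬ Ear G C m := by
    intro m hm
    rw [hcard] at hm
    exact Nat.find_min hex hm
  apply hno
  have hPC : ∀ x ∈ P, x ∉ C := fun x hx => Finset.disjoint_left.1 hd hx
  by_cases h12 : d1 = d2
  · -- a single vertex
    have hP := hip.eq_of_eq h12
    subst h12
    have hpC : d1 ∉ C := hPC d1 hip.start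
    have hk2 : 2 ≤ dg G C d1 := by
      have h1 : ({c1, c2} : Finset V) ⊆ C.filter (fun y => G.Adj d1 y) := by
        intro t ht
        simp only [mem_insert, mem_singleton] at ht
        rw [mem_filter]
        rcases ht with rfl | rfl
        · exact ⟨hc1, ha1.symm⟩
        · exact ⟨hc2, ha2.symm⟩
      have := card_le_card h1
      rw [card_pair hc12] at this
      exact this
    by_cases hk : 3 ≤ dg G C d1
    · obtain ⟨z, hz, hz3⟩ : ∃ z ∈ C, 3 ≤ dg G (C.erase z) d1 := by
        by_cases hk4 : 4 ≤ dg G C d1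
        · refine ⟨c1, hc1, ?_⟩
          have := dg_erase (G := G) (P := C) (x := d1) (z := c1)
          omega
        · obtain ⟨z, hz, hnz⟩ : ∃ z ∈ C, ¬ G.Adj d1 z := by
            by_contra hcon
            push Not at hcon
            have : C.filter (fun y => G.Adj d1 y) = C := by
              rw [filter_eq_self]; exact hcon
            unfold dg at hk4
            rw [this] at hk4
            exact hk4 hC.card
          exact ⟨z, hz, by rw [dg_erase_of_not hnz]; exact hk⟩
      obtain ⟨e1, e2, _, _, _, hip', _⟩ := hC.erase hz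
      exact three_nbrs _ e1 e2 d1 (C.erase z) le_rfl hip' (fun h => hpC (mem_erase.1 h).2) hz3
    · have hk' : dg G C d1 = 2 := by omega
      obtain ⟨u1, hu1, u2, hu2, hu12, hau1, hau2, hnb⟩ := two_of_dg hk'
      have hn1 : u1 ≠ d1 := fun h => hpC (h ▸ hu1)
      have hn2 : u2 ≠ d1 := fun h => hpC (h ▸ hu2)
      refine diamond_of_cn (X := insert d1 C) (mem_insert_of_mem hu1) (mem_insert_of_mem hu2) hu12
        ?_ ?_ ?_ ?_ ?_
      · rw [dg_insert hpC, hC.deg u1 hu1, if_pos hau1.symm]
      · rw [dg_insert hpC, hC.deg u2 hu2, if_pos hau2.symm]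
      · intro x hx hx1 hx2
        rw [mem_insert] at hx
        rw [dg_insert hpC]
        rcases hx with rfl | hx
        · rw [hk', if_neg (G.loopless.irrefl _)]
        · rw [hC.deg x hx, if_neg]
          intro h
          rcases (hnb x hx).1 h.symm with h | h
          · exact hx1 h
          · exact hx2 h
      · rw [erase_insert_of_ne hn1.symm]
        have := (Cn.singleton (G := G) d1).union (hC.cn_erase hu1)
          (Or.inl ⟨d1, by simp, u2, mem_erase.2 ⟨hu12.symm, hu2⟩, hau2⟩)
        rwa [← insert_eq] at this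
      · rw [erase_insert_of_ne hn2.symm]
        have := (Cn.singleton (G := G) d1).union (hC.cn_erase hu2)
          (Or.inl ⟨d1, by simp, u1, mem_erase.2 ⟨hu12, hu1⟩, hau1⟩)
        rwa [← insert_eq] at this
  · -- a longer ear
    obtain ⟨i1, i2, i3⟩ := hip.deg h12
    have hnb : ∀ p ∈ P, ∀ c ∈ C, G.Adj c p → (p = d1 ∧ c = c1) ∨ (p = d2 ∧ c = c2) := by
      intro p hp c hc hcp
      have k1 : p = d2 ∨ c = c1 := by
        by_contra hcon
        push Not at hcon
        obtain ⟨Q, hQ, hipQ⟩ := hip.pre_mem hp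
        have hlt : Q.card < P.card := by
          apply card_lt_card
          refine ⟨hQ, fun hPQ => hcon.1 ?_⟩
          have := subset_antisymm hQ hPQ
          rw [this] at hipQ
          exact hipQ.end_unique hip
        exact hmin _ hlt ⟨d1, p, Q, c1, c, rfl, disjoint_of_subset_left hQ hd, hipQ, hc1, hc,
          Ne.symm hcon.2, ha1, hcp⟩
      have k2 : p = d1 ∨ c = c2 := by
        by_contra hcon
        push Not at hcon
        obtain ⟨Q, hQ, hipQ⟩ := hip.suf_mem hp
        have hlt : Q.card < P.card := by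
          apply card_lt_card
          refine ⟨hQ, fun hPQ => hcon.1 ?_⟩
          have := subset_antisymm hQ hPQ
          rw [this] at hipQ
          exact hipQ.symm.end_unique hip.symm
        exact hmin _ hlt ⟨p, d2, Q, c, c2, rfl, disjoint_of_subset_left hQ hd, hipQ, hc, hc2,
          hcon.2, hcp, ha2⟩
      rcases k1 with k1 | k1 <;> rcases k2 with k2 | k2
      · exact absurd (k2.symm.trans k1) h12
      · exact Or.inr ⟨k1, k2⟩
      · exact Or.inl ⟨k2, k1⟩
      · exact absurd (k1.symm.trans k2) hc12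
    have hdC : Disjoint C P := hd.symm
    refine diamond_of_cn (X := C ∪ P) (mem_union_left _ hc1) (mem_union_left _ hc2) hc12
      ?_ ?_ ?_ ?_ ?_
    · rw [dg_union hdC, hC.deg c1 hc1, dg_one hip.start]
      intro y hy
      constructor
      · intro h
        rcases hnb y hy c1 hc1 h with h1 | h1
        · exact h1.1
        · exact absurd h1.2 hc12
      · rintro rfl; exact ha1
    · rw [dg_union hdC, hC.deg c2 hc2, dg_one hip.stop]
      intro y hy
      constructor
      · intro h
        rcases hnb y hy c2 hc2 h with h1 | h1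
        · exact absurd h1.2.symm hc12
        · exact h1.1
      · rintro rfl; exact ha2
    · intro x hx hx1 hx2
      rw [dg_union hdC]
      rw [mem_union] at hx
      rcases hx with hx | hx
      · rw [hC.deg x hx, dg_zero]
        intro y hy hxy
        rcases hnb y hy x hx hxy with h1 | h1
        · exact hx1 h1.2
        · exact hx2 h1.2
      · by_cases h1 : x = d1
        · subst h1
          rw [i1, dg_one hc1]
          intro y hy
          constructor
          · intro h
            rcases hnb x hx y hy h.symm with h1 | h1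
            · exact h1.2
            · exact absurd h1.1 h12
          · rintro rfl; exact ha1.symm
        by_cases h2 : x = d2
        · subst h2
          rw [i2, dg_one hc2]
          intro y hy
          constructor
          · intro h
            rcases hnb x hx y hy h.symm with h1 | h1
            · exact absurd h1.1.symm h12
            · exact h1.2
          · rintro rfl; exact ha2.symm
        rw [i3 x hx h1 h2, dg_zero]
        intro y hy hxy
        rcases hnb x hx y hy hxy.symm with h3 | h3
        · exact h1 h3.1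
        · exact h2 h3.1
    · have e : (C ∪ P).erase c1 = C.erase c1 ∪ P := by
        rw [erase_union_distrib, erase_eq_of_notMem (a := c1) (s := P)]
        exact fun h => hPC c1 h hc1
      rw [e]
      exact (hC.cn_erase hc1).union hip.cn
        (Or.inl ⟨c2, mem_erase.2 ⟨hc12.symm, hc2⟩, d2, hip.stop, ha2⟩)
    · have e : (C ∪ P).erase c2 = C.erase c2 ∪ P := by
        rw [erase_union_distrib, erase_eq_of_notMem (a := c2) (s := P)]
        exact fun h => hPC c2 h hc2
      rw [e]
      exact (hC.cn_erase hc2).union hip.cn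
        (Or.inl ⟨c1, mem_erase.2 ⟨hc12, hc1⟩, d1, hip.start, ha1⟩)

/-- an induced path on three vertices in a connected graph that is not complete -/
lemma exists_P3 [Fintype V] (hG : Cn G univ) {x y : V} (hxy : x ≠ y) (hn : ¬ G.Adj x y) :
    ∃ v a b, G.Adj v a ∧ G.Adj v b ∧ ¬ G.Adj a b ∧ a ≠ b := by
  obtain ⟨P, _, hip⟩ := exists_IP hG (mem_univ x) (mem_univ y)
  obtain ⟨z0, P0, h1, h2, h3, h4, _⟩ := hip.inv hxy
  have hxz : x ≠ z0 := by rintro rfl; exact hn h3.symm
  obtain ⟨z1, P1, k1, k2, k3, k4, rfl⟩ := h1.inv hxz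
  have hz1 : z1 ∈ insert z0 P1 := mem_insert_of_mem k1.stop
  refine ⟨z0, z1, y, k3, h3.symm, ?_, ?_⟩
  · intro h
    exact k3.ne (h4 z1 hz1 h.symm).symm
  · rintro rfl; exact h2 hz1

/-- every 2-connected graph which is not complete contains a subdivided diamond or a hole -/
lemma diamond_or_hole' [Fintype V] (hG : TwoConn G) {x y : V} (hxy : x ≠ y) (hn : ¬ G.Adj x y) :
    IsITM diamond G ∨ ∃ C, Hole G C := by
  obtain ⟨v, a, b, hva, hvb, hab, hne⟩ := exists_P3 hG.conn hxy hn
  obtain ⟨P, hP, hip⟩ := exists_IP (hG.del v) (y := a) (z := b)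
    (mem_erase.2 ⟨hva.ne', mem_univ _⟩) (mem_erase.2 ⟨hvb.ne', mem_univ _⟩)
  exact diamond_or_hole hip hne hab (fun h => (mem_erase.1 (hP h)).1 rfl) hva hvb

/-- 2-connected graphs without subdivided diamond are complete or cycles -/
theorem two_conn_dia [Fintype V] (hG : TwoConn G) (hno : ¬ IsITM diamond G) :
    (∀ x y : V, x ≠ y → G.Adj x y) ∨ ∀ x : V, dg G univ x ≤ 2 := by
  by_cases h : ∀ x y : V, x ≠ y → G.Adj x y
  · exact Or.inl h
  push Not at h
  obtain ⟨x, y, hxy, hn⟩ := h
  rcases diamond_or_hole' hG hxy hn with h1 | ⟨C, hC⟩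
  · exact absurd h1 hno
  · right
    intro x
    have := hole_univ hG hno hC
    subst this
    exact (hC.deg x (mem_univ _)).le

end Run7.h274.Itm
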