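import Pool.Agent.H175R2.Cut

/-! A family of claw-free graphs of maximum degree three without diamonds and with unbounded
clique-width: the brick wall with every vertex replaced by a triangle. -/

namespace Run7.h274.Itm

open Pool.Agent.H175R2 Pool.Agent.H175R2.CutAux

/-- A grid-like set of vertices forces large clique-width. -/
theorem not_cwLE_of_rows {V : Type} [Finite V] (G : SimpleGraph V) (n k : ℕ) (hn : 6 * k + 2 ≤ n)
    (e : Fin n × Fin n → V) (he : Function.Injective e)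
    (hrow : ∀ A : Set V, Types G A k → (mixed (e ⁻¹' A)).card ≤ 2 * k)
    (hcol : ∀ A : Set V, Types G A k → (mixed ((fun p => e (p.2, p.1)) ⁻¹' A)).card ≤ 2 * k) :
    ¬ CwLE G k := by
  intro hcw
  have hcard : (Set.range e).ncard = n * n := by
    rw [← Set.image_univ, Set.ncard_image_of_injective _ he, Set.ncard_univ]; simp
  obtain ⟨A0, hT, h1, h2⟩ := balanced_cut G k hcw (Set.range e) (by rw [hcard]; nlinarith)
  have hm := hrow A0 hT
  have hm' := hcol A0 hT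
  have hA0 : (A0 ∩ Set.range e).ncard = (e ⁻¹' A0).ncard := by
    have : A0 ∩ Set.range e = e '' (e ⁻¹' A0) := by
      rw [Set.image_preimage_eq_inter_range]
    rw [this, Set.ncard_image_of_injective _ he]
  rw [hcard, hA0] at h1 h2
  set A := e ⁻¹' A0 with hA
  have hcompl : A.ncard + Aᶜ.ncard = n * n := by
    rw [Set.ncard_add_ncard_compl]; simp
  have hbig : n ≤ 3 * (mixed A).card → False := by
    intro h; omega
  by_cases hfull : ∃ i, ∀ j, (i, j) ∈ A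
  · by_cases hempty : ∃ i, ∀ j, (i, j) ∉ A
    · obtain ⟨i, hi⟩ := hfull
      obtain ⟨i', hi'⟩ := hempty
      have : mixed ((fun p => e (p.2, p.1)) ⁻¹' A0) = Finset.univ := by
        ext j
        simp only [mixed, Finset.mem_filter, Finset.mem_univ, true_and, iff_true]
        exact ⟨⟨i, hi j⟩, ⟨i', hi' j⟩⟩
      rw [this] at hm'
      simp at hm'
      omega
    · push Not at hempty
      have h3 : Aᶜ.ncard ≤ (mixed Aᶜ).card * n := by
        apply card_le_mixed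
        rintro i ⟨j, hj⟩
        rw [mixed_compl]
        simp only [mixed, Finset.mem_filter, Finset.mem_univ, true_and]
        exact ⟨hempty i, j, hj⟩
      rw [mixed_compl] at h3
      apply hbig
      have : n * n ≤ 3 * ((mixed A).card * n) := by omega
      have : n * n ≤ (3 * (mixed A).card) * n := by linarith
      exact Nat.le_of_mul_le_mul_right this (by omega)
  · push Not at hfull
    have h3 : A.ncard ≤ (mixed A).card * n := by
      apply card_le_mixed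
      rintro i ⟨j, hj⟩
      simp only [mixed, Finset.mem_filter, Finset.mem_univ, true_and]
      exact ⟨⟨j, hj⟩, hfull i⟩
    apply hbig
    have : n * n ≤ (3 * (mixed A).card) * n := by linarith
    exact Nat.le_of_mul_le_mul_right this (by omega)

/-- few mixed rows: `r` is a height function changing by at most one along edges, and every mixed
row contains an edge leaving `A` at this height -/
theorem mixed_le_of_height {V : Type} {G : SimpleGraph V} {n k : ℕ} (f : Fin n × Fin n → V)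
    (r : V → ℕ) (hr : ∀ x y, G.Adj x y → r x ≤ r y + 1) (A : Set V) (h : Types G A k)
    (hc : ∀ i ∈ mixed (f ⁻¹' A), ∃ a b, a ∈ A ∧ b ∉ A ∧ G.Adj a b ∧ r a = i.val ∧ r b = i.val) :
    (mixed (f ⁻¹' A)).card ≤ 2 * k := by
  classical
  obtain ⟨l, hl⟩ := h
  by_contra hcon
  push Not at hcon
  have hne : (mixed (f ⁻¹' A)).Nonempty := Finset.card_pos.1 (by omega)
  obtain ⟨i0, hi0⟩ := hne
  obtain ⟨a0, _⟩ := hc i0 hi0
  have : Nonempty V := ⟨a0⟩
  choose! a b ha hb hab hra hrb using hc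
  have hcard : (Finset.univ : Finset (Fin k)).card * 2 < (mixed (f ⁻¹' A)).card := by
    simp; omega
  obtain ⟨t, _, ht⟩ := Finset.exists_lt_card_fiber_of_mul_lt_card_of_maps_to
    (f := fun i => l (a i)) (s := mixed (f ⁻¹' A)) (t := Finset.univ)
    (fun _ _ => Finset.mem_univ _) hcard
  rw [Finset.two_lt_card] at ht
  obtain ⟨x, hx, y, hy, z, hz, hxy, hxz, hyz⟩ := ht
  simp only [Finset.mem_filter] at hx hy hz
  have key : ∀ x y : Fin n, x ∈ mixed (f ⁻¹' A) → y ∈ mixed (f ⁻¹' A) → l (a x) = l (a y) →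
      x.val ≤ y.val + 1 := by
    intro x y hx hy hxy
    have h2 := (hl _ (ha x hx) _ (ha y hy) hxy _ (hb x hx)).1 (hab x hx)
    have h3 := hr _ _ h2.symm
    rw [hrb x hx, hra y hy] at h3
    exact h3
  have k1 := key x y hx.1 hy.1 (hx.2.trans hy.2.symm)
  have k2 := key y x hy.1 hx.1 (hy.2.trans hx.2.symm)
  have k3 := key x z hx.1 hz.1 (hx.2.trans hz.2.symm)
  have k4 := key z x hz.1 hx.1 (hz.2.trans hx.2.symm)
  have k5 := key y z hy.1 hz.1 (hy.2.trans hz.2.symm)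
  have k6 := key z y hz.1 hy.1 (hz.2.trans hy.2.symm)
  have n1 : x.val ≠ y.val := fun h => hxy (Fin.ext h)
  have n2 : x.val ≠ z.val := fun h => hxz (Fin.ext h)
  have n3 : y.val ≠ z.val := fun h => hyz (Fin.ext h)
  omega

/-- the brick wall with every vertex replaced by a triangle; the cell `(i, j)` has the triangles
`{0, 1, 2}` and `{3, 4, 5}` joined by the edge `2 5`; `3` is joined to `0` of the next cell in the
row and `4` to `1` of the next cell in the column -/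
def Tn (n : ℕ) : SimpleGraph ((Fin n × Fin n) × Fin 6) :=
  SimpleGraph.fromRel (fun x y =>
    (x.1 = y.1 ∧ ((x.2.val < 3 ∧ y.2.val < 3) ∨ (3 ≤ x.2.val ∧ 3 ≤ y.2.val) ∨
      (x.2.val = 2 ∧ y.2.val = 5))) ∨
    (x.2.val = 3 ∧ y.2.val = 0 ∧ x.1.1 = y.1.1 ∧ x.1.2.val + 1 = y.1.2.val) ∨
    (x.2.val = 4 ∧ y.2.val = 1 ∧ x.1.2 = y.1.2 ∧ x.1.1.val + 1 = y.1.1.val))

lemma Tn_adj {n : ℕ} {x y : (Fin n × Fin n) × Fin 6} (h : (Tn n).Adj x y) :
    (x.1.1.val ≤ y.1.1.val + 1) ∧ (x.1.2.val ≤ y.1.2.val + 1) := by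
  simp only [Tn, SimpleGraph.fromRel_adj] at h
  rcases h.2 with (h | h | h) | (h | h | h)
  · rw [h.1]; omega
  · obtain ⟨_, _, h1, h2⟩ := h
    rw [h1]; omega
  · obtain ⟨_, _, h1, h2⟩ := h
    rw [h1]; omega
  · rw [h.1]; omega
  · obtain ⟨_, _, h1, h2⟩ := h
    rw [h1]; omega
  · obtain ⟨_, _, h1, h2⟩ := h
    rw [h1]; omega

/-- crossing a path of length four -/
lemma cross {V : Type} {G : SimpleGraph V} (A R : Set V) {x0 x1 x2 x3 x4 : V}
    (h1 : G.Adj x0 x1) (h2 : G.Adj x1 x2) (h3 : G.Adj x2 x3) (h4 : G.Adj x3 x4)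
    (r0 : x0 ∈ R) (r1 : x1 ∈ R) (r2 : x2 ∈ R) (r3 : x3 ∈ R) (r4 : x4 ∈ R)
    (ha : x0 ∈ A) (hb : x4 ∉ A) : ∃ a b, a ∈ A ∧ b ∉ A ∧ G.Adj a b ∧ a ∈ R ∧ b ∈ R := by
  by_cases c1 : x1 ∈ A
  · by_cases c2 : x2 ∈ A
    · by_cases c3 : x3 ∈ A
      · exact ⟨x3, x4, c3, hb, h4, r3, r4⟩
      · exact ⟨x2, x3, c2, c3, h3, r2, r3⟩
    · exact ⟨x1, x2, c1, c2, h2, r1, r2⟩
  · exact ⟨x0, x1, ha, c1, h1, r0, r1⟩

theorem Tn_unbounded : ∀ c N : ℕ, ∃ n ≥ N, ∀ k ≤ c, ¬ CwLE (Tn n) k := by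
  intro c N
  refine ⟨N + 6 * c + 2, by omega, fun k hk => ?_⟩
  refine not_cwLE_of_rows (Tn (N + 6 * c + 2)) (N + 6 * c + 2) k (by omega) (fun p => (p, 2))
    (fun p q h => congrArg Prod.fst h) ?_ ?_
  · intro A hA
    refine mixed_le_of_height (fun p => (p, (2 : Fin 6))) (fun x => x.1.1.val)
      (fun x y h => (Tn_adj h).1) A hA ?_
    intro i hi
    simp only [mixed, Finset.mem_filter, Finset.mem_univ, true_and] at hi
    obtain ⟨a, b, ha, hb, hab⟩ := step_exists (fun j => ((i, j), (2 : Fin 6)) ∈ A) hi.1 hi.2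
    have e1 : ∀ j : Fin (N + 6 * c + 2), (Tn (N + 6 * c + 2)).Adj ((i, j), 2) ((i, j), 5) := by
      intro j; simp [Tn, SimpleGraph.fromRel_adj]
    have e2 : ∀ j : Fin (N + 6 * c + 2), (Tn (N + 6 * c + 2)).Adj ((i, j), 5) ((i, j), 3) := by
      intro j; simp [Tn, SimpleGraph.fromRel_adj]
    have e3 : ∀ j j' : Fin (N + 6 * c + 2), j.val + 1 = j'.val →
        (Tn (N + 6 * c + 2)).Adj ((i, j), 3) ((i, j'), 0) := by
      intro j j' h; simp [Tn, SimpleGraph.fromRel_adj, h]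
    have e4 : ∀ j : Fin (N + 6 * c + 2), (Tn (N + 6 * c + 2)).Adj ((i, j), 0) ((i, j), 2) := by
      intro j; simp [Tn, SimpleGraph.fromRel_adj]
    have key : ∃ a b, a ∈ A ∧ b ∉ A ∧ (Tn (N + 6 * c + 2)).Adj a b ∧
        a ∈ {x : (Fin (N + 6 * c + 2) × Fin (N + 6 * c + 2)) × Fin 6 | x.1.1 = i} ∧
        b ∈ {x : (Fin (N + 6 * c + 2) × Fin (N + 6 * c + 2)) × Fin 6 | x.1.1 = i} := by
      rcases hab with hab | hab
      · exact cross A _ (e1 a) (e2 a) (e3 a b hab) (e4 b) rfl rfl rfl rfl rfl ha hb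
      · exact cross A _ (e4 a).symm (e3 b a hab).symm (e2 b).symm (e1 b).symm
          rfl rfl rfl rfl rfl ha hb
    obtain ⟨x, y, h1, h2, h3, h4, h5⟩ := key
    exact ⟨x, y, h1, h2, h3, congrArg Fin.val h4, congrArg Fin.val h5⟩
  · intro A hA
    refine mixed_le_of_height (fun p : Fin (N + 6 * c + 2) × Fin (N + 6 * c + 2) =>
      (((p.2, p.1), (2 : Fin 6)) : (Fin (N + 6 * c + 2) × Fin (N + 6 * c + 2)) × Fin 6))
      (fun x => x.1.2.val) (fun x y h => (Tn_adj h).2) A hA ?_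
    intro i hi
    simp only [mixed, Finset.mem_filter, Finset.mem_univ, true_and] at hi
    obtain ⟨a, b, ha, hb, hab⟩ := step_exists (fun j => ((j, i), (2 : Fin 6)) ∈ A) hi.1 hi.2
    have e1 : ∀ j : Fin (N + 6 * c + 2), (Tn (N + 6 * c + 2)).Adj ((j, i), 2) ((j, i), 5) := by
      intro j; simp [Tn, SimpleGraph.fromRel_adj]
    have e2 : ∀ j : Fin (N + 6 * c + 2), (Tn (N + 6 * c + 2)).Adj ((j, i), 5) ((j, i), 4) := by
      intro j; simp [Tn, SimpleGraph.fromRel_adj]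
    have e3 : ∀ j j' : Fin (N + 6 * c + 2), j.val + 1 = j'.val →
        (Tn (N + 6 * c + 2)).Adj ((j, i), 4) ((j', i), 1) := by
      intro j j' h; simp [Tn, SimpleGraph.fromRel_adj, h]
    have e4 : ∀ j : Fin (N + 6 * c + 2), (Tn (N + 6 * c + 2)).Adj ((j, i), 1) ((j, i), 2) := by
      intro j; simp [Tn, SimpleGraph.fromRel_adj]
    have key : ∃ a b, a ∈ A ∧ b ∉ A ∧ (Tn (N + 6 * c + 2)).Adj a b ∧
        a ∈ {x : (Fin (N + 6 * c + 2) × Fin (N + 6 * c + 2)) × Fin 6 | x.1.2 = i} ∧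
        b ∈ {x : (Fin (N + 6 * c + 2) × Fin (N + 6 * c + 2)) × Fin 6 | x.1.2 = i} := by
      rcases hab with hab | hab
      · exact cross A _ (e1 a) (e2 a) (e3 a b hab) (e4 b) rfl rfl rfl rfl rfl ha hb
      · exact cross A _ (e4 a).symm (e3 b a hab).symm (e2 b).symm (e1 b).symm
          rfl rfl rfl rfl rfl ha hb
    obtain ⟨x, y, h1, h2, h3, h4, h5⟩ := key
    exact ⟨x, y, h1, h2, h3, congrArg Fin.val h4, congrArg Fin.val h5⟩

/-- being in the same triangle -/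
def Same {n : ℕ} (x y : (Fin n × Fin n) × Fin 6) : Prop :=
  x.1 = y.1 ∧ (x.2.val < 3 ↔ y.2.val < 3)

lemma Same.symm {n : ℕ} {x y : (Fin n × Fin n) × Fin 6} (h : Same x y) : Same y x :=
  ⟨h.1.symm, h.2.symm⟩

lemma Same.trans {n : ℕ} {x y z : (Fin n × Fin n) × Fin 6} (h : Same x y) (h' : Same y z) :
    Same x z := ⟨h.1.trans h'.1, h.2.trans h'.2⟩

lemma Tn_same {n : ℕ} {x y : (Fin n × Fin n) × Fin 6} (h : Same x y) (hne : x ≠ y) :
    (Tn n).Adj x y := by
  simp only [Tn, SimpleGraph.fromRel_adj]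
  refine ⟨hne, Or.inl (Or.inl ⟨h.1, ?_⟩)⟩
  by_cases hx : x.2.val < 3
  · exact Or.inl ⟨hx, h.2.1 hx⟩
  · have := h.2
    exact Or.inr (Or.inl ⟨by omega, by omega⟩)

lemma Tn_out {n : ℕ} {x y : (Fin n × Fin n) × Fin 6} (h : (Tn n).Adj x y) (hs : ¬ Same x y) :
    (x.1.1.val = y.1.1.val ∧ x.1.2.val = y.1.2.val ∧ x.2.val = 2 ∧ y.2.val = 5) ∨
    (x.1.1.val = y.1.1.val ∧ x.1.2.val = y.1.2.val ∧ x.2.val = 5 ∧ y.2.val = 2) ∨
    (x.1.1.val = y.1.1.val ∧ x.1.2.val + 1 = y.1.2.val ∧ x.2.val = 3 ∧ y.2.val = 0) ∨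
    (x.1.1.val = y.1.1.val ∧ x.1.2.val = y.1.2.val + 1 ∧ x.2.val = 0 ∧ y.2.val = 3) ∨
    (x.1.1.val + 1 = y.1.1.val ∧ x.1.2.val = y.1.2.val ∧ x.2.val = 4 ∧ y.2.val = 1) ∨
    (x.1.1.val = y.1.1.val + 1 ∧ x.1.2.val = y.1.2.val ∧ x.2.val = 1 ∧ y.2.val = 4) := by
  simp only [Tn, SimpleGraph.fromRel_adj] at h
  rcases h.2 with (⟨h1, h | h | h⟩ | ⟨h1, h2, h3, h4⟩ | ⟨h1, h2, h3, h4⟩) |
    (⟨h1, h | h | h⟩ | ⟨h1, h2, h3, h4⟩ | ⟨h1, h2, h3, h4⟩)
  · exact absurd ⟨h1, by omega⟩ hs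
  · exact absurd ⟨h1, by omega⟩ hs
  · rw [h1]; omega
  · rw [h3]; omega
  · rw [h3]; omega
  · exact absurd ⟨h1.symm, by omega⟩ hs
  · exact absurd ⟨h1.symm, by omega⟩ hs
  · rw [h1]; omega
  · rw [h3]; omega
  · rw [h3]; omega

lemma Tn_ext {n : ℕ} {x y : (Fin n × Fin n) × Fin 6} (h1 : x.1.1.val = y.1.1.val)
    (h2 : x.1.2.val = y.1.2.val) (h3 : x.2.val = y.2.val) : x = y :=
  Prod.ext (Prod.ext (Fin.ext h1) (Fin.ext h2)) (Fin.ext h3)

lemma Tn_unique {n : ℕ} {x y z : (Fin n × Fin n) × Fin 6} (h : (Tn n).Adj x y) (hs : ¬ Same x y)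
    (h' : (Tn n).Adj x z) (hs' : ¬ Same x z) : y = z := by
  have a := Tn_out h hs
  have b := Tn_out h' hs'
  apply Tn_ext <;> omega

/-- claw-free with all degrees at most three: among three distinct neighbours two are adjacent -/
lemma Tn_claw {n : ℕ} {v p q r : (Fin n × Fin n) × Fin 6} (hp : (Tn n).Adj v p)
    (hq : (Tn n).Adj v q) (hr : (Tn n).Adj v r) (hpq : p ≠ q) (hpr : p ≠ r) (hqr : q ≠ r) :
    (Tn n).Adj p q ∨ (Tn n).Adj p r ∨ (Tn n).Adj q r := by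
  by_cases sp : Same v p
  · by_cases sq : Same v q
    · exact Or.inl (Tn_same (sp.symm.trans sq) hpq)
    · by_cases sr : Same v r
      · exact Or.inr (Or.inl (Tn_same (sp.symm.trans sr) hpr))
      · exact absurd (Tn_unique hq sq hr sr) hqr
  · by_cases sq : Same v q
    · by_cases sr : Same v r
      · exact Or.inr (Or.inr (Tn_same (sq.symm.trans sr) hqr))
      · exact absurd (Tn_unique hp sp hr sr) hpr
    · exact absurd (Tn_unique hp sp hq sq) hpq

lemma Tn_tri_same {n : ℕ} {v p q : (Fin n × Fin n) × Fin 6} (hvp : (Tn n).Adj v p)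
    (hvq : (Tn n).Adj v q) (hpq : (Tn n).Adj p q) : Same v p := by
  by_contra h
  by_cases h1 : Same v q
  · have h2 : ¬ Same p q := fun h3 => h (h1.trans h3.symm)
    exact hvq.ne (Tn_unique hvp.symm (fun h3 => h h3.symm) hpq h2)
  · exact hpq.ne (Tn_unique hvp h hvq h1)

/-- every edge is in at most one triangle -/
lemma Tn_tri {n : ℕ} {v p q r : (Fin n × Fin n) × Fin 6} (hvp : (Tn n).Adj v p)
    (hvq : (Tn n).Adj v q) (hpq : (Tn n).Adj p q) (hvr : (Tn n).Adj v r) (hpr : (Tn n).Adj p r) :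
    r = q := by
  have s1 := Tn_tri_same hvp hvq hpq
  have s2 := Tn_tri_same hvq hvp hpq.symm
  have s3 := Tn_tri_same hvr hvp hpr.symm
  have e1 : v.1.1.val = p.1.1.val ∧ v.1.2.val = p.1.2.val := by rw [s1.1]; exact ⟨rfl, rfl⟩
  have e2 : v.1.1.val = q.1.1.val ∧ v.1.2.val = q.1.2.val := by rw [s2.1]; exact ⟨rfl, rfl⟩
  have e3 : v.1.1.val = r.1.1.val ∧ v.1.2.val = r.1.2.val := by rw [s3.1]; exact ⟨rfl, rfl⟩
  have d1 : v.2.val ≠ p.2.val := fun h => hvp.ne (Tn_ext e1.1 e1.2 h)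
  have d2 : v.2.val ≠ q.2.val := fun h => hvq.ne (Tn_ext e2.1 e2.2 h)
  have d3 : v.2.val ≠ r.2.val := fun h => hvr.ne (Tn_ext e3.1 e3.2 h)
  have d4 : p.2.val ≠ q.2.val := fun h =>
    hpq.ne (Tn_ext (e1.1.symm.trans e2.1) (e1.2.symm.trans e2.2) h)
  have d5 : p.2.val ≠ r.2.val := fun h =>
    hpr.ne (Tn_ext (e1.1.symm.trans e3.1) (e1.2.symm.trans e3.2) h)
  have t1 := s1.2
  have t2 := s2.2
  have t3 := s3.2
  have b1 := v.2.isLt
  have b2 := p.2.isLt
  have b3 := q.2.isLt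
  have b4 := r.2.isLt
  apply Tn_ext (e3.1.symm.trans e2.1) (e3.2.symm.trans e2.2)
  omega

/-- maximum degree three -/
lemma Tn_deg {n : ℕ} {v p q r s : (Fin n × Fin n) × Fin 6} (hp : (Tn n).Adj v p)
    (hq : (Tn n).Adj v q) (hr : (Tn n).Adj v r) (hs : (Tn n).Adj v s) (hpq : p ≠ q) (hpr : p ≠ r)
    (hps : p ≠ s) (hqr : q ≠ r) (hqs : q ≠ s) (hrs : r ≠ s) : False := by
  -- three of them are in the triangle of `v`
  have key : ∀ a b c : (Fin n × Fin n) × Fin 6, (Tn n).Adj v a → (Tn n).Adj v b →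
      (Tn n).Adj v c → a ≠ b → a ≠ c → b ≠ c → Same v a → Same v b → Same v c → False := by
    intro a b c ha hb hc hab hac hbc sa sb sc
    exact hbc (Tn_tri ha hc (Tn_same (sa.symm.trans sc) hac) hb
      (Tn_same (sa.symm.trans sb) hab))
  by_cases sp : Same v p
  · by_cases sq : Same v q
    · by_cases sr : Same v r
      · exact key p q r hp hq hr hpq hpr hqr sp sq sr
      · by_cases ss : Same v s
        · exact key p q s hp hq hs hpq hps hqs sp sq ss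
        · exact hrs (Tn_unique hr sr hs ss)
    · by_cases sr : Same v r
      · by_cases ss : Same v s
        · exact key p r s hp hr hs hpr hps hrs sp sr ss
        · exact hqs (Tn_unique hq sq hs ss)
      · exact hqr (Tn_unique hq sq hr sr)
  · by_cases sq : Same v q
    · by_cases sr : Same v r
      · by_cases ss : Same v s
        · exact key q r s hq hr hs hqr hqs hrs sq sr ss
        · exact hps (Tn_unique hp sp hs ss)
      · exact hpr (Tn_unique hp sp hr sr)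
    · exact hpq (Tn_unique hp sp hq sq)

end Run7.h274.Itm
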