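import Pool.Agent.Run7.h274.Itm.Inv
import Pool.Agent.Run7.h274.Itm.Tn
import Pool.Agent.H175R2.Fam
import Pool.Agent.H175R2.Cw

/-! The unbounded cases. -/

namespace Run7.h274.Itm

open Pool.Agent.H175R2

lemma exists_cwLE {V : Type} [Finite V] [Nonempty V] (G : SimpleGraph V) : ∃ k, CwLE G k := by
  have : Fintype V := Fintype.ofFinite V
  have ht : Tame G (Fintype.card V) := ⟨Finset.univ, by simp, fun x hx => by simp at hx⟩
  exact ⟨_, cwLE_of_dt (dt_of_tame ht)⟩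

lemma cwLE_cliqueWidth {V : Type} [Finite V] [Nonempty V] (G : SimpleGraph V) :
    CwLE G (cliqueWidth G) :=
  Nat.sInf_mem (s := {k | CwLE G k}) (exists_cwLE G)

lemma not_bdd {W : Type} {H : SimpleGraph W} {V : ℕ → Type} [∀ n, Finite (V n)]
    (fam : ∀ n, SimpleGraph (V n)) (hne : ∀ n ≥ 2, Nonempty (V n))
    (hno : ∀ n, ¬ IsITM H (fam n))
    (hu : ∀ c N : ℕ, ∃ n ≥ N, ∀ k ≤ c, ¬ CwLE (fam n) k) : ¬ BddItm H := by
  rintro ⟨c, hc⟩
  obtain ⟨n, hn, hk⟩ := hu c 2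
  have := hne n hn
  exact hk _ (hc (V n) (fam n) (hno n)) (cwLE_cliqueWidth (fam n))

lemma cobip_ll {n : ℕ} {a b : Fin n} (h : a ≠ b) : (famCobip n).Adj (.inl a) (.inl b) := by
  rw [famCobip, SimpleGraph.fromRel_adj]
  exact ⟨fun h' => h (Sum.inl.inj h'), Or.inl (Or.inl ⟨a, b, rfl, rfl⟩)⟩

lemma cobip_rr {n : ℕ} {a b : Fin n × Fin n} (h : a ≠ b) :
    (famCobip n).Adj (.inr a) (.inr b) := by
  rw [famCobip, SimpleGraph.fromRel_adj]
  exact ⟨fun h' => h (Sum.inr.inj h'), Or.inl (Or.inr (Or.inl ⟨a, b, rfl, rfl⟩))⟩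

/-- three pairwise nonadjacent vertices -/
theorem unb_Q1 {W : Type} {H : SimpleGraph W} (h : Q1 H) : ¬ BddItm H := by
  refine not_bdd famCobip (fun n hn => ⟨.inl ⟨0, by omega⟩⟩) ?_ famCobip_unbounded
  rintro n ⟨X, hX⟩
  obtain ⟨⟨a, ha⟩, ⟨b, hb⟩, ⟨c, hc⟩, h1, h2, h3, h4, h5, h6⟩ := q1_inv hX h
  simp only [SimpleGraph.induce_adj, ne_eq, Subtype.mk.injEq] at h1 h2 h3 h4 h5 h6
  have ll : ∀ a b : Fin n, ¬ (Sum.inl a : Fin n ⊕ (Fin n × Fin n)) = Sum.inl b →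
      (famCobip n).Adj (.inl a) (.inl b) := fun a b h => cobip_ll (fun h' => h (by rw [h']))
  have rr : ∀ a b : Fin n × Fin n, ¬ (Sum.inr a : Fin n ⊕ (Fin n × Fin n)) = Sum.inr b →
      (famCobip n).Adj (.inr a) (.inr b) := fun a b h => cobip_rr (fun h' => h (by rw [h']))
  rcases a with a | a <;> rcases b with b | b <;> rcases c with c | c
  · exact h4 (ll _ _ h1)
  · exact h4 (ll _ _ h1)
  · exact h5 (ll _ _ h2)
  · exact h6 (rr _ _ h3)
  · exact h6 (ll _ _ h3)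
  · exact h5 (rr _ _ h2)
  · exact h4 (rr _ _ h1)
  · exact h4 (rr _ _ h1)

lemma split_ll {n : ℕ} {a b : Fin n} (h : a ≠ b) : (famSplit n).Adj (.inl a) (.inl b) := by
  simp [famSplit, SimpleGraph.fromRel_adj, h]

lemma split_rr {n : ℕ} {a b : Fin n × Fin n} : ¬ (famSplit n).Adj (.inr a) (.inr b) := by
  simp [famSplit, SimpleGraph.fromRel_adj]

/-- two edges far from each other -/
theorem unb_Q2 {W : Type} {H : SimpleGraph W} (h : Q2 H) : ¬ BddItm H := by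
  refine not_bdd famSplit (fun n hn => ⟨.inl ⟨0, by omega⟩⟩) ?_ famSplit_unbounded
  rintro n ⟨X, hX⟩
  obtain ⟨⟨a, ha⟩, ⟨b, hb⟩, ⟨c, hc⟩, ⟨d, hd⟩, hab, hcd, h1, h2, h3, h4, k1, k2, k3, k4⟩ :=
    q2_inv hX h
  simp only [SimpleGraph.induce_adj, ne_eq, Subtype.mk.injEq] at hab hcd h1 h2 h3 h4 k1 k2 k3 k4
  have key : ∀ x y, (famSplit n).Adj x y → (∃ i, x = .inl i) ∨ ∃ i, y = .inl i := by
    rintro (x | x) (y | y) hxy
    · exact Or.inl ⟨x, rfl⟩
    · exact Or.inl ⟨x, rfl⟩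
    · exact Or.inr ⟨y, rfl⟩
    · exact absurd hxy split_rr
  have key2 : ∀ x y, (∃ i, x = Sum.inl i) → (∃ i, y = Sum.inl i) → ¬ x = y → (famSplit n).Adj x y := by
    rintro x y ⟨i, rfl⟩ ⟨j, rfl⟩ hne
    exact split_ll (fun h => hne (by rw [h]))
  rcases key a b hab with h | h <;> rcases key c d hcd with h' | h'
  · exact k1 (key2 _ _ h h' h1)
  · exact k2 (key2 _ _ h h' h2)
  · exact k3 (key2 _ _ h h' h3)
  · exact k4 (key2 _ _ h h' h4)

/-- all degrees two and four vertices -/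
theorem unb_Q3 {W : Type} {H : SimpleGraph W} (h : Q3 H) : ¬ BddItm H := by
  refine not_bdd famSplit (fun n hn => ⟨.inl ⟨0, by omega⟩⟩) ?_ famSplit_unbounded
  rintro n ⟨X, hX⟩
  obtain ⟨hd, hfour⟩ := q3_inv hX h
  -- degrees at most two
  have deg : ∀ x a b c : X, ((famSplit n).induce X).Adj x a → ((famSplit n).induce X).Adj x b →
      ((famSplit n).induce X).Adj x c → a ≠ b → a ≠ c → b ≠ c → False := by
    intro x a b c ha hb hc hab hac hbc
    obtain ⟨p, q, hpq, hx⟩ := hd x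
    rw [hx] at ha hb hc
    rcases ha with rfl | rfl <;> rcases hb with rfl | rfl <;> rcases hc with rfl | rfl <;>
      first
      | exact hab rfl
      | exact hac rfl
      | exact hbc rfl
  have ll : ∀ a b : Fin n, ∀ (ha : Sum.inl a ∈ X) (hb : Sum.inl b ∈ X), a ≠ b →
      ((famSplit n).induce X).Adj ⟨.inl a, ha⟩ ⟨.inl b, hb⟩ := by
    intro a b ha hb hab
    rw [SimpleGraph.induce_adj]
    exact split_ll hab
  by_cases hR : ∃ r, Sum.inr r ∈ X
  · obtain ⟨r, hr⟩ := hR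
    -- the two neighbours of `r`
    have nb : ∀ s (hs : Sum.inr s ∈ X), ∃ (a b : Fin n) (ha : Sum.inl a ∈ X) (hb : Sum.inl b ∈ X),
        a ≠ b ∧ ((famSplit n).induce X).Adj ⟨.inr s, hs⟩ ⟨.inl a, ha⟩ ∧
        ((famSplit n).induce X).Adj ⟨.inr s, hs⟩ ⟨.inl b, hb⟩ := by
      intro s hs
      obtain ⟨⟨p, hp⟩, ⟨q, hq⟩, hpq, hx⟩ := hd ⟨.inr s, hs⟩
      have h1 := (hx ⟨p, hp⟩).2 (Or.inl rfl)
      have h2 := (hx ⟨q, hq⟩).2 (Or.inr rfl)
      rcases p with a | p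
      · rcases q with b | q
        · exact ⟨a, b, hp, hq, fun h => hpq (by subst h; rfl), h1, h2⟩
        · exact absurd h2 (by rw [SimpleGraph.induce_adj]; exact split_rr)
      · exact absurd h1 (by rw [SimpleGraph.induce_adj]; exact split_rr)
    obtain ⟨a, b, ha, hb, hab, hra, hrb⟩ := nb r hr
    -- everything is `a`, `b` or `r`
    have all : ∀ x : X, x = ⟨.inl a, ha⟩ ∨ x = ⟨.inl b, hb⟩ ∨ x = ⟨.inr r, hr⟩ := by
      have hL : ∀ c (hc : Sum.inl c ∈ X), c = a ∨ c = b := by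
        intro c hc
        by_contra hcon
        push Not at hcon
        exact deg ⟨.inl a, ha⟩ ⟨.inl b, hb⟩ ⟨.inl c, hc⟩ ⟨.inr r, hr⟩ (ll _ _ _ _ hab)
          (ll _ _ _ _ (Ne.symm hcon.1)) hra.symm (by simpa using Ne.symm hcon.2) (by simp)
          (by simp)
      rintro ⟨c | s, hc⟩
      · rcases hL c hc with rfl | rfl
        · exact Or.inl rfl
        · exact Or.inr (Or.inl rfl)
      · right; right
        by_contra hne
        obtain ⟨a', b', ha', hb', hab', hsa, hsb⟩ := nb s hc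
        have : ((famSplit n).induce X).Adj ⟨.inr s, hc⟩ ⟨.inl a, ha⟩ := by
          rcases hL a' ha' with h | h
          · subst h; exact hsa
          · rcases hL b' hb' with h' | h'
            · subst h'; exact hsb
            · exact absurd (h.trans h'.symm) hab'
        exact deg ⟨.inl a, ha⟩ ⟨.inl b, hb⟩ ⟨.inr s, hc⟩ ⟨.inr r, hr⟩ (ll _ _ _ _ hab)
          this.symm hra.symm (by simp) (by simp) hne
    obtain ⟨x, y, z, w, h1, h2, h3, h4, h5, h6⟩ := hfour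
    rcases all x with h | h | h <;> rcases all y with h' | h' | h' <;>
      rcases all z with h'' | h'' | h'' <;> rcases all w with k | k | k <;>
      subst h <;> subst h' <;> subst h'' <;> subst k <;>
      first
      | exact h1 rfl
      | exact h2 rfl
      | exact h3 rfl
      | exact h4 rfl
      | exact h5 rfl
      | exact h6 rfl
  · push Not at hR
    obtain ⟨x, y, z, w, h1, h2, h3, h4, h5, h6⟩ := hfour
    have adj : ∀ x y : X, x ≠ y → ((famSplit n).induce X).Adj x y := by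
      rintro ⟨x | x, hx⟩ ⟨y | y, hy⟩ hne
      · exact ll _ _ _ _ (fun h => hne (by subst h; rfl))
      · exact absurd hy (hR y)
      · exact absurd hx (hR x)
      · exact absurd hx (hR x)
    exact deg x y z w (adj _ _ h1) (adj _ _ h2) (adj _ _ h3) h4 h5 h6

/-- an isolated vertex next to a graph with all degrees two -/
theorem unb_Q4 {W : Type} {H : SimpleGraph W} (h : Q4 H) : ¬ BddItm H := by
  refine not_bdd famTrunc (fun n hn => ⟨⟨(⟨0, by omega⟩, ⟨1, by omega⟩), by simp⟩⟩) ?_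
    famTrunc_unbounded
  rintro n ⟨X, hX⟩
  obtain ⟨⟨w, hw⟩, h1, h2, h3⟩ := q4_inv hX h
  obtain ⟨⟨⟨i, j⟩, hij⟩, rfl⟩ : ∃ w', w' = w := ⟨w, rfl⟩
  simp only at hij
  -- the other vertices
  have oth : ∀ x : X, x ≠ ⟨⟨(i, j), hij⟩, hw⟩ → x.1.1.1 = i ∨ (x.1.1.1 = j ∧ x.1.1.2 = i) := by
    intro x hx
    by_contra hcon
    apply h1 x
    rw [SimpleGraph.induce_adj, famTrunc, SimpleGraph.fromRel_adj]
    exact ⟨fun h => hx (Subtype.ext h.symm), Or.inr hcon⟩
  -- vertices in row `i` are pairwise nonadjacent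
  have row : ∀ x y : X, x.1.1.1 = i → y.1.1.1 = i → ¬ ((famTrunc n).induce X).Adj x y := by
    intro x y hx hy
    rw [SimpleGraph.induce_adj]
    simp only [famTrunc, SimpleGraph.fromRel_adj, hx, hy, true_or, not_true_eq_false, or_self,
      and_false, not_false_eq_true]
  -- there is a vertex in row `i`
  have leaf : ∀ x : X, x ≠ ⟨⟨(i, j), hij⟩, hw⟩ → x.1.1.1 = i → False := by
    intro x hx hxi
    obtain ⟨p, q, hpq, hnb⟩ := h2 x hx
    have hp := (hnb p).2 (Or.inl rfl)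
    have hq := (hnb q).2 (Or.inr rfl)
    have hpw : p ≠ ⟨⟨(i, j), hij⟩, hw⟩ := by
      rintro rfl; exact h1 x hp.symm
    have hqw : q ≠ ⟨⟨(i, j), hij⟩, hw⟩ := by
      rintro rfl; exact h1 x hq.symm
    rcases oth p hpw with h | ⟨h, h'⟩
    · exact row x p hxi h hp
    · rcases oth q hqw with k | ⟨k, k'⟩
      · exact row x q hxi k hq
      · apply hpq
        apply Subtype.ext
        apply Subtype.ext
        exact Prod.ext (h.trans k.symm) (h'.trans k'.symm)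
  obtain ⟨x, hx⟩ := h3
  rcases oth x hx with h | ⟨h, h'⟩
  · exact leaf x hx h
  · obtain ⟨p, q, hpq, hnb⟩ := h2 x hx
    have hp := (hnb p).2 (Or.inl rfl)
    have hpw : p ≠ ⟨⟨(i, j), hij⟩, hw⟩ := by
      rintro rfl; exact h1 x hp.symm
    rcases oth p hpw with k | ⟨k, k'⟩
    · exact leaf p hpw k
    · have : x = p := by
        apply Subtype.ext
        apply Subtype.ext
        exact Prod.ext (h.trans k.symm) (h'.trans k'.symm)
      exact hp.ne this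

/-- a vertex of degree four -/
theorem unb_Q5 {W : Type} {H : SimpleGraph W} (h : Q5 H) : ¬ BddItm H := by
  refine not_bdd Tn (fun n hn => ⟨((⟨0, by omega⟩, ⟨0, by omega⟩), 0)⟩) ?_ Tn_unbounded
  rintro n ⟨X, hX⟩
  obtain ⟨⟨v, _⟩, ⟨p, _⟩, ⟨q, _⟩, ⟨r, _⟩, ⟨s, _⟩, k1, k2, k3, k4, h1, h2, h3, h4, h5, h6⟩ :=
    q5_inv hX h
  simp only [SimpleGraph.induce_adj, ne_eq, Subtype.mk.injEq] at k1 k2 k3 k4 h1 h2 h3 h4 h5 h6
  exact Tn_deg k1 k2 k3 k4 h1 h2 h3 h4 h5 h6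

lemma fin4_fourth : ∀ i p q : Fin 4, ∃ l : Fin 4, l ≠ i ∧ l ≠ p ∧ l ≠ q := by decide

lemma fin4_all : ∀ i p q l : Fin 4, p ≠ q → p ≠ i → q ≠ i → l ≠ i → l ≠ p → l ≠ q →
    ∀ t : Fin 4, t ≠ l → t = i ∨ t = p ∨ t = q := by decide

/-- a complete graph on four vertices -/
theorem unb_Q6 {W : Type} {H : SimpleGraph W} (h : Q6 H) : ¬ BddItm H := by
  refine not_bdd Tn (fun n hn => ⟨((⟨0, by omega⟩, ⟨0, by omega⟩), 0)⟩) ?_ Tn_unbounded
  rintro n ⟨X, hX⟩
  obtain ⟨b, x, hb, hx1, hx2, hx3⟩ := q6_inv hX h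
  -- every branch vertex is in a triangle of branch vertices
  have tri : ∀ i j k l : Fin 4, i ≠ j → i ≠ k → i ≠ l → j ≠ k → j ≠ l → k ≠ l →
      ∃ p q, p ≠ q ∧ p ≠ i ∧ q ≠ i ∧ (Tn n).Adj (b i).1 (b p).1 ∧ (Tn n).Adj (b i).1 (b q).1 ∧
        (Tn n).Adj (b p).1 (b q).1 := by
    intro i j k l hij hik hil hjk hjl hkl
    have a1 := hx1 i j hij
    have a2 := hx1 i k hik
    have a3 := hx1 i l hil
    have n1 := hx2 i j k hij hik hjk
    have n2 := hx2 i j l hij hil hjl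
    have n3 := hx2 i k l hik hil hkl
    have step : ∀ p q, i ≠ p → i ≠ q → p ≠ q → (Tn n).Adj (x i p).1 (x i q).1 →
        ∃ p q, p ≠ q ∧ p ≠ i ∧ q ≠ i ∧ (Tn n).Adj (b i).1 (b p).1 ∧ (Tn n).Adj (b i).1 (b q).1 ∧
        (Tn n).Adj (b p).1 (b q).1 := by
      intro p q hip hiq hpq hadj
      obtain ⟨e1, e2⟩ := hx3 i p q hip hiq hpq hadj
      have m1 := hx1 i p hip
      have m2 := hx1 i q hiq
      rw [e1] at m1 hadj
      rw [e2] at m2 hadj
      exact ⟨p, q, hpq, hip.symm, hiq.symm, m1, m2, hadj⟩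
    rcases Tn_claw (n := n) a1 a2 a3 (fun h => n1 (Subtype.ext h)) (fun h => n2 (Subtype.ext h))
      (fun h => n3 (Subtype.ext h)) with h | h | h
    · exact step j k hij hik hjk h
    · exact step j l hij hil hjl h
    · exact step k l hik hil hkl h
  have inj : ∀ i j : Fin 4, (b i).1 = (b j).1 → i = j := fun i j h => hb (Subtype.ext h)
  -- two triangles sharing an edge
  have fin : ∀ i p q : Fin 4, p ≠ q → p ≠ i → q ≠ i → (Tn n).Adj (b i).1 (b p).1 →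
      (Tn n).Adj (b i).1 (b q).1 → (Tn n).Adj (b p).1 (b q).1 → False := by
    intro i p q hpq hpi hqi e1 e2 e3
    -- the fourth branch vertex
    obtain ⟨l, hl1, hl2, hl3⟩ : ∃ l : Fin 4, l ≠ i ∧ l ≠ p ∧ l ≠ q :=
      fin4_fourth i p q
    obtain ⟨r, s, hrs, hrl, hsl, f1, f2, f3⟩ := tri l i p q hl1 hl2 hl3 hpi.symm hqi.symm hpq
    have four : ∀ t : Fin 4, t ≠ l → t = i ∨ t = p ∨ t = q :=
      fin4_all i p q l hpq hpi hqi hl1 hl2 hl3
    have T := fun {v p q r : (Fin n × Fin n) × Fin 6} (h1 : (Tn n).Adj v p) (h2 : (Tn n).Adj v q)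
      (h3 : (Tn n).Adj p q) (h4 : (Tn n).Adj v r) (h5 : (Tn n).Adj p r) => Tn_tri h1 h2 h3 h4 h5
    rcases four r hrl with rfl | rfl | rfl <;> rcases four s hsl with rfl | rfl | rfl
    · exact hrs rfl
    · exact hl3 (inj _ _ (T e1 e2 e3 f1.symm f2.symm))
    · exact hl2 (inj _ _ (T e2 e1 e3.symm f1.symm f2.symm))
    · exact hl3 (inj _ _ (T e1 e2 e3 f2.symm f1.symm))
    · exact hrs rfl
    · exact hl1 (inj _ _ (T e3 e1.symm e2.symm f1.symm f2.symm))
    · exact hl2 (inj _ _ (T e2 e1 e3.symm f2.symm f1.symm))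
    · exact hl1 (inj _ _ (T e3 e1.symm e2.symm f2.symm f1.symm))
    · exact hrs rfl
  obtain ⟨p, q, hpq, hp, hq, e1, e2, e3⟩ := tri 0 1 2 3 (by decide) (by decide) (by decide)
    (by decide) (by decide) (by decide)
  exact fin 0 p q hpq hp hq e1 e2 e3

end Run7.h274.Itm
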