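import Pool.Agent.Run7.h274.Itm.Bdd
import Pool.Agent.Run7.h274.Itm.Unb
import Pool.Agent.Run7.h274.Itm.Cls

/-! The classification of the graphs `H` such that clique-width is bounded on the graphs without `H`
as an induced topological minor. -/

namespace Run7.h274.Itm

open Pool.Agent.H175R2

lemma q3_C4 : Q3 C4 := by
  refine ⟨?_, 0, 1, 2, 3, by decide, by decide, by decide, by decide, by decide, by decide⟩
  intro x
  fin_cases x
  · refine ⟨1, 3, by decide, fun y => ?_⟩
    fin_cases y <;> simp [C4, SimpleGraph.fromRel_adj]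
  · refine ⟨0, 2, by decide, fun y => ?_⟩
    fin_cases y <;> simp [C4, SimpleGraph.fromRel_adj]
  · refine ⟨1, 3, by decide, fun y => ?_⟩
    fin_cases y <;> simp [C4, SimpleGraph.fromRel_adj]
  · refine ⟨0, 2, by decide, fun y => ?_⟩
    fin_cases y <;> simp [C4, SimpleGraph.fromRel_adj]

lemma q3_C5 : Q3 C5 := by
  refine ⟨?_, 0, 1, 2, 3, by decide, by decide, by decide, by decide, by decide, by decide⟩
  intro x
  fin_cases x
  · refine ⟨1, 4, by decide, fun y => ?_⟩
    fin_cases y <;> simp [C5, SimpleGraph.fromRel_adj]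
  · refine ⟨0, 2, by decide, fun y => ?_⟩
    fin_cases y <;> simp [C5, SimpleGraph.fromRel_adj]
  · refine ⟨1, 3, by decide, fun y => ?_⟩
    fin_cases y <;> simp [C5, SimpleGraph.fromRel_adj]
  · refine ⟨2, 4, by decide, fun y => ?_⟩
    fin_cases y <;> simp [C5, SimpleGraph.fromRel_adj]
  · refine ⟨0, 3, by decide, fun y => ?_⟩
    fin_cases y <;> simp [C5, SimpleGraph.fromRel_adj]

lemma q4_P1K3 : Q4 P1K3 := by
  refine ⟨0, ?_, ?_, 1, by decide⟩
  · intro y
    fin_cases y <;> simp [P1K3, SimpleGraph.fromRel_adj]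
  · intro x hx
    fin_cases x
    · exact absurd rfl hx
    · refine ⟨2, 3, by decide, fun y => ?_⟩
      fin_cases y <;> simp [P1K3, SimpleGraph.fromRel_adj]
    · refine ⟨1, 3, by decide, fun y => ?_⟩
      fin_cases y <;> simp [P1K3, SimpleGraph.fromRel_adj]
    · refine ⟨1, 2, by decide, fun y => ?_⟩
      fin_cases y <;> simp [P1K3, SimpleGraph.fromRel_adj]

theorem unb_bad {W : Type} {H : SimpleGraph W} (h : Bad H) : ¬ BddItm H := by
  rcases h with h | h | h | h | h | h | h
  · exact unb_Q1 h
  · exact unb_Q2 h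
  · exact unb_Q5 h
  · exact unb_Q6 h
  · exact fun hb => unb_Q3 q3_C4 (hb.mono h.some)
  · exact fun hb => unb_Q3 q3_C5 (hb.mono h.some)
  · exact fun hb => unb_Q4 q4_P1K3 (hb.mono h.some)

/-- **The classification.** Clique-width is bounded on the graphs without `H` as an induced
topological minor if and only if `H` is an induced subgraph of `P₄`, the paw or the diamond. -/
theorem classification {W : Type} (H : SimpleGraph W) :
    BddItm H ↔ H.IsIndContained P4 ∨ H.IsIndContained paw ∨ H.IsIndContained diamond := by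
  constructor
  · intro hb
    rcases cls H with h | h
    · exact absurd hb (unb_bad h)
    · exact h
  · rintro (⟨⟨f⟩⟩ | ⟨⟨f⟩⟩ | ⟨⟨f⟩⟩)
    · exact bdd_P4.mono f
    · exact bdd_paw.mono f
    · exact bdd_diamond.mono f

end Run7.h274.Itm
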