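import Pool.Agent.Run7.h274.Itm.Tad
import Pool.Agent.H175R2.Conn

/-! Induced paths and holes. -/

namespace Run7.h274.Itm

open Pool.Agent.H175R2 Finset Classical

variable {V : Type} {G : SimpleGraph V}

/-- `P` is the vertex set of an induced path of `G` from `y` to the second argument. -/
inductive IP (G : SimpleGraph V) (y : V) : V → Finset V → Prop
  | nil : IP G y y {y}
  | snoc {z z' : V} {P : Finset V} (h : IP G y z P) (hz : z' ∉ P) (ha : G.Adj z' z)
      (hu : ∀ x ∈ P, G.Adj z' x → x = z) : IP G y z' (insert z' P)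

lemma IP.start {y z : V} {P : Finset V} (h : IP G y z P) : y ∈ P := by
  induction h with
  | nil => simp
  | snoc _ _ _ _ ih => exact mem_insert_of_mem ih

lemma IP.stop {y z : V} {P : Finset V} (h : IP G y z P) : z ∈ P := by
  cases h with
  | nil => simp
  | snoc => simp

lemma IP.cn {y z : V} {P : Finset V} (h : IP G y z P) : Cn G P := by
  induction h with
  | nil => exact Cn.singleton _
  | @snoc z z' P h _ ha _ ih =>
    have := (Cn.singleton (G := G) z').union ih (Or.inl ⟨z', by simp, z, h.stop, ha⟩)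
    rwa [← insert_eq] at this

lemma IP.inv {y z : V} {P : Finset V} (h : IP G y z P) (hne : y ≠ z) :
    ∃ z0 P0, IP G y z0 P0 ∧ z ∉ P0 ∧ G.Adj z z0 ∧ (∀ x ∈ P0, G.Adj z x → x = z0) ∧
      P = insert z P0 := by
  cases h with
  | nil => exact absurd rfl hne
  | snoc h hz ha hu => exact ⟨_, _, h, hz, ha, hu, rfl⟩

lemma IP.eq_of_eq {y z : V} {P : Finset V} (h : IP G y z P) (he : y = z) : P = {y} := by
  cases h with
  | nil => rfl
  | snoc h hz ha hu => exact absurd (he ▸ h.start) hz

lemma dg_insert {P : Finset V} {z x : V} (hz : z ∉ P) :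
    dg G (insert z P) x = dg G P x + (if G.Adj x z then 1 else 0) := by
  unfold dg
  rw [filter_insert]
  split_ifs with h
  · rw [card_insert_of_notMem]
    simp [hz]
  · simp

lemma dg_union {P Q : Finset V} {x : V} (hd : Disjoint P Q) :
    dg G (P ∪ Q) x = dg G P x + dg G Q x := by
  unfold dg
  rw [filter_union, card_union_of_disjoint]
  exact disjoint_filter_filter hd

lemma dg_mono {P Q : Finset V} {x : V} (h : P ⊆ Q) : dg G P x ≤ dg G Q x :=
  card_le_card (filter_subset_filter _ h)

lemma dg_erase {P : Finset V} {x z : V} : dg G P x ≤ dg G (P.erase z) x + 1 := by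
  unfold dg
  rw [filter_erase]
  have := pred_card_le_card_erase (s := P.filter (fun y => G.Adj x y)) (a := z)
  omega

lemma dg_erase_of_not {P : Finset V} {x z : V} (h : ¬ G.Adj x z) :
    dg G (P.erase z) x = dg G P x := by
  unfold dg
  rw [filter_erase, erase_eq_of_notMem]
  simp [h]

lemma dg_zero {P : Finset V} {x : V} (h : ∀ y ∈ P, ¬ G.Adj x y) : dg G P x = 0 := by
  unfold dg
  rw [card_eq_zero, filter_eq_empty_iff]
  exact h

lemma dg_one {P : Finset V} {x z : V} (hz : z ∈ P) (h : ∀ y ∈ P, G.Adj x y ↔ y = z) :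
    dg G P x = 1 := by
  unfold dg
  have : P.filter (fun y => G.Adj x y) = {z} := by
    ext y
    rw [mem_filter, mem_singleton]
    constructor
    · rintro ⟨h1, h2⟩; exact (h y h1).1 h2
    · rintro rfl; exact ⟨hz, (h y hz).2 rfl⟩
  rw [this]; simp

lemma dg_two {P : Finset V} {x z w : V} (hz : z ∈ P) (hw : w ∈ P) (hzw : z ≠ w)
    (h : ∀ y ∈ P, G.Adj x y ↔ y = z ∨ y = w) : dg G P x = 2 := by
  unfold dg
  have : P.filter (fun y => G.Adj x y) = {z, w} := by
    ext y
    rw [mem_filter, mem_insert, mem_singleton]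
    constructor
    · rintro ⟨h1, h2⟩; exact (h y h1).1 h2
    · rintro (rfl | rfl)
      · exact ⟨hz, (h y hz).2 (Or.inl rfl)⟩
      · exact ⟨hw, (h y hw).2 (Or.inr rfl)⟩
  rw [this, card_pair hzw]

lemma one_of_dg {X : Finset V} {x : V} (h : dg G X x = 1) :
    ∃ u ∈ X, G.Adj x u ∧ ∀ y ∈ X, G.Adj x y → y = u := by
  unfold dg at h
  obtain ⟨u, hu⟩ := card_eq_one.1 h
  have h1 : u ∈ X.filter (fun y => G.Adj x y) := by rw [hu]; simp
  rw [mem_filter] at h1
  refine ⟨u, h1.1, h1.2, fun y hy hxy => ?_⟩
  have : y ∈ X.filter (fun y => G.Adj x y) := mem_filter.2 ⟨hy, hxy⟩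
  rw [hu] at this
  simpa using this

lemma dg_pos {X : Finset V} {x y : V} (hy : y ∈ X) (h : G.Adj x y) : 1 ≤ dg G X x :=
  card_pos.2 ⟨y, mem_filter.2 ⟨hy, h⟩⟩

/-- degrees in an induced path -/
lemma IP.deg {y z : V} {P : Finset V} (h : IP G y z P) : y ≠ z →
    dg G P y = 1 ∧ dg G P z = 1 ∧ ∀ x ∈ P, x ≠ y → x ≠ z → dg G P x = 2 := by
  induction h with
  | nil => intro h; exact absurd rfl h
  | @snoc z z' P h hz ha hu ih =>
    intro hne
    have hz'0 : dg G (insert z' P) z' = 1 := by
      refine dg_one (z := z) (mem_insert_of_mem h.stop) fun w hw => ⟨fun h1 => ?_, ?_⟩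
      · rw [mem_insert] at hw
        rcases hw with rfl | hw
        · exact absurd h1 (G.loopless.irrefl _)
        · exact hu w hw h1
      · rintro rfl; exact ha
    by_cases hyz : y = z
    · subst hyz
      have hP := h.eq_of_eq rfl
      subst hP
      refine ⟨?_, hz'0, ?_⟩
      · rw [dg_insert hz, if_pos ha.symm, dg_zero]
        intro w hw
        rw [mem_singleton] at hw
        subst hw
        exact G.loopless.irrefl _
      · intro x hx h1 h2
        simp only [mem_insert, mem_singleton] at hx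
        rcases hx with h3 | h3
        · exact absurd h3 h2
        · exact absurd h3 h1
    · obtain ⟨i1, i2, i3⟩ := ih hyz
      refine ⟨?_, hz'0, ?_⟩
      · rw [dg_insert hz, i1, if_neg]
        intro hadj
        exact hyz (hu y h.start hadj.symm)
      · intro x hx h1 h2
        rw [mem_insert] at hx
        rcases hx with h3 | h3
        · exact absurd h3 h2
        · rw [dg_insert hz]
          by_cases hxz : x = z
          · subst hxz
            rw [i2, if_pos ha.symm]
          · rw [i3 x h3 h1 hxz, if_neg]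
            intro hadj
            exact hxz (hu x h3 hadj.symm)

lemma IP.deg_le {y z : V} {P : Finset V} (h : IP G y z P) {x : V} (hx : x ∈ P) : dg G P x ≤ 2 := by
  by_cases hyz : y = z
  · rw [h.eq_of_eq hyz] at hx ⊢
    rw [mem_singleton] at hx
    subst hx
    rw [dg_zero]
    · omega
    · intro w hw
      rw [mem_singleton] at hw
      subst hw
      exact G.loopless.irrefl _
  · obtain ⟨i1, i2, i3⟩ := h.deg hyz
    by_cases h1 : x = y
    · subst h1; omega
    by_cases h2 : x = z
    · subst h2; omega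
    rw [i3 x hx h1 h2]

/-- the last neighbour of `v` -/
lemma IP.suf {y z v : V} {P : Finset V} (h : IP G y z P) : (∃ w ∈ P, G.Adj v w) →
    ∃ w Q, Q ⊆ P ∧ IP G w z Q ∧ G.Adj v w ∧ ∀ x ∈ Q, G.Adj v x → x = w := by
  induction h with
  | nil =>
    rintro ⟨w, hw, hvw⟩
    rw [mem_singleton] at hw
    subst hw
    exact ⟨w, {w}, Subset.refl _, .nil, hvw, fun x hx _ => by simpa using hx⟩
  | @snoc z z' P h hz ha hu ih =>
    rintro ⟨w, hw, hvw⟩
    by_cases hvz : G.Adj v z'
    · exact ⟨z', {z'}, by simp, .nil, hvz, fun x hx _ => by simpa using hx⟩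
    · have hwP : w ∈ P := by
        rw [mem_insert] at hw
        rcases hw with rfl | hw
        · exact absurd hvw hvz
        · exact hw
      obtain ⟨w', Q, hQ, hip, h1, h2⟩ := ih ⟨w, hwP, hvw⟩
      refine ⟨w', insert z' Q, insert_subset_insert _ hQ,
        .snoc hip (fun h => hz (hQ h)) ha (fun x hx => hu x (hQ hx)), h1, fun x hx hvx => ?_⟩
      rw [mem_insert] at hx
      rcases hx with rfl | hx
      · exact absurd hvx hvz
      · exact h2 x hx hvx

/-- the first neighbour of `v` -/
lemma IP.pre {y z v : V} {P : Finset V} (h : IP G y z P) : (∃ w ∈ P, G.Adj v w) →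
    ∃ w Q, Q ⊆ P ∧ IP G y w Q ∧ G.Adj v w ∧ ∀ x ∈ Q, G.Adj v x → x = w := by
  induction h with
  | nil =>
    rintro ⟨w, hw, hvw⟩
    rw [mem_singleton] at hw
    subst hw
    exact ⟨w, {w}, Subset.refl _, .nil, hvw, fun x hx _ => by simpa using hx⟩
  | @snoc z z' P h hz ha hu ih =>
    rintro ⟨w, hw, hvw⟩
    by_cases hex : ∃ w ∈ P, G.Adj v w
    · obtain ⟨w', Q, hQ, hip, h1, h2⟩ := ih hex
      exact ⟨w', Q, hQ.trans (subset_insert _ _), hip, h1, h2⟩
    · push Not at hex
      rw [mem_insert] at hw
      rcases hw with rfl | hw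
      · refine ⟨w, insert w P, Subset.refl _, .snoc h hz ha hu, hvw, fun x hx hvx => ?_⟩
        rw [mem_insert] at hx
        rcases hx with rfl | hx
        · rfl
        · exact absurd hvx (hex x hx)
      · exact absurd hvw (hex w hw)

lemma IP.pre_mem {y z w : V} {P : Finset V} (h : IP G y z P) : w ∈ P → ∃ Q ⊆ P, IP G y w Q := by
  induction h with
  | nil =>
    intro hw
    rw [mem_singleton] at hw
    subst hw
    exact ⟨{w}, Subset.refl _, .nil⟩
  | @snoc z z' P h hz ha hu ih =>
    intro hw
    rw [mem_insert] at hw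
    rcases hw with rfl | hw
    · exact ⟨_, Subset.refl _, .snoc h hz ha hu⟩
    · obtain ⟨Q, hQ, hip⟩ := ih hw
      exact ⟨Q, hQ.trans (subset_insert _ _), hip⟩

lemma IP.suf_mem {y z w : V} {P : Finset V} (h : IP G y z P) : w ∈ P → ∃ Q ⊆ P, IP G w z Q := by
  induction h with
  | nil =>
    intro hw
    rw [mem_singleton] at hw
    subst hw
    exact ⟨{w}, Subset.refl _, .nil⟩
  | @snoc z z' P h hz ha hu ih =>
    intro hw
    rw [mem_insert] at hw
    rcases hw with rfl | hw
    · exact ⟨{w}, by simp, .nil⟩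
    · obtain ⟨Q, hQ, hip⟩ := ih hw
      exact ⟨insert z' Q, insert_subset_insert _ hQ,
        .snoc hip (fun h => hz (hQ h)) ha (fun x hx => hu x (hQ hx))⟩

lemma IP.cons {y z v : V} {P : Finset V} (h : IP G y z P) : v ∉ P → G.Adj v y →
    (∀ x ∈ P, G.Adj v x → x = y) → IP G v z (insert v P) := by
  induction h with
  | nil =>
    intro hv hvy _
    have e : (insert v {y} : Finset V) = insert y {v} := by
      ext w; simp only [mem_insert, mem_singleton]; tauto
    rw [e]
    refine .snoc .nil ?_ hvy.symm ?_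
    · simp only [mem_singleton] at hv ⊢; exact Ne.symm hv
    · intro x hx _; simpa using hx
  | @snoc z z' P h hz ha hu ih =>
    intro hv hvy hvu
    rw [mem_insert, not_or] at hv
    have i := ih hv.2 hvy (fun x hx => hvu x (mem_insert_of_mem hx))
    rw [insert_comm]
    refine .snoc i ?_ ha ?_
    · rw [mem_insert, not_or]; exact ⟨Ne.symm hv.1, hz⟩
    · intro x hx hxa
      rw [mem_insert] at hx
      rcases hx with rfl | hx
      · have := hvu z' (mem_insert_self _ _) hxa.symm
        exact absurd (this ▸ h.start) hz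
      · exact hu x hx hxa

lemma IP.symm {y z : V} {P : Finset V} (h : IP G y z P) : IP G z y P := by
  induction h with
  | nil => exact .nil
  | @snoc z z' P h hz ha hu ih => exact ih.cons hz ha hu

lemma exists_IP {D : Finset V} (hD : Cn G D) {y z : V} (hy : y ∈ D) (hz : z ∈ D) :
    ∃ P ⊆ D, IP G y z P := by
  by_contra hcon
  let R := D.filter (fun z => ∃ P ⊆ D, IP G y z P)
  have hyR : y ∈ R := mem_filter.2 ⟨hy, {y}, by simpa using hy, .nil⟩
  have hzR : z ∈ D \ R := mem_sdiff.2 ⟨hz, fun h => hcon (mem_filter.1 h).2⟩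
  obtain ⟨x, hx, x', hx', hadj⟩ := hD.2 R (filter_subset _ _) ⟨y, hyR⟩ ⟨z, hzR⟩
  obtain ⟨hx'D, hx'R⟩ := mem_sdiff.1 hx'
  obtain ⟨_, P, hP, hip⟩ := mem_filter.1 hx
  apply hx'R
  refine mem_filter.2 ⟨hx'D, ?_⟩
  by_cases h : x' ∈ P
  · obtain ⟨Q, hQ, hip'⟩ := hip.pre_mem h
    exact ⟨Q, hQ.trans hP, hip'⟩
  · obtain ⟨w, Q, hQ, hip', h1, h2⟩ := hip.pre (v := x') ⟨x, hip.stop, hadj.symm⟩
    exact ⟨insert x' Q, insert_subset hx'D (hQ.trans hP), .snoc hip' (fun h' => h (hQ h')) h1 h2⟩

/-- removing an inner vertex -/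
lemma IP.split {y z w : V} {P : Finset V} (h : IP G y z P) : w ∈ P → w ≠ y → w ≠ z →
    ∃ P1 P2, P.erase w = P1 ∪ P2 ∧ Cn G P1 ∧ y ∈ P1 ∧ Cn G P2 ∧ z ∈ P2 := by
  induction h with
  | nil =>
    intro hw h1
    rw [mem_singleton] at hw
    exact absurd hw h1
  | @snoc z z' P h hz ha hu ih =>
    intro hw h1 h2
    rw [mem_insert] at hw
    have hwP := hw.resolve_left h2
    by_cases hwz : w = z
    · subst hwz
      obtain ⟨w1, P0, h3, h4, _, _, rfl⟩ := h.inv h1.symm
      refine ⟨P0, {z'}, ?_, h3.cn, h3.start, Cn.singleton _, by simp⟩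
      ext t
      simp only [mem_erase, mem_insert, mem_union, mem_singleton]
      constructor
      · rintro ⟨h5, h6 | h6 | h6⟩
        · exact Or.inr h6
        · exact absurd h6 h5
        · exact Or.inl h6
      · rintro (h5 | h5)
        · exact ⟨fun h6 => h4 (h6 ▸ h5), Or.inr (Or.inr h5)⟩
        · exact ⟨fun h6 => h2 (h6.symm.trans h5), Or.inl h5⟩
    · obtain ⟨P1, P2, e, c1, hy, c2, hz2⟩ := ih hwP h1 hwz
      refine ⟨P1, insert z' P2, ?_, c1, hy, ?_, mem_insert_self _ _⟩
      · rw [erase_insert_of_ne (Ne.symm h2), e, union_insert]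
      · have := (Cn.singleton (G := G) z').union c2 (Or.inl ⟨z', by simp, z, hz2, ha⟩)
        rwa [← insert_eq] at this

/-- the end of an induced path is determined by the set and the start -/
lemma IP.end_unique {y z w : V} {P : Finset V} (h : IP G y z P) (h' : IP G y w P) : z = w := by
  by_contra hne
  by_cases hyz : y = z
  · have := h.eq_of_eq hyz
    rw [this] at h'
    have := h'.stop
    rw [mem_singleton] at this
    exact hne (hyz.symm.trans this.symm)
  by_cases hyw : y = w
  · have := h'.eq_of_eq hyw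
    rw [this] at h
    have := h.stop
    rw [mem_singleton] at this
    exact hyz this.symm
  have h1 := (h.deg hyz).2.1
  have h2 := (h'.deg hyw).2.2 z h.stop (Ne.symm hyz) hne
  omega

/-- an induced cycle with at least four vertices -/
structure Hole (G : SimpleGraph V) (C : Finset V) : Prop where
  cn : Cn G C
  deg : ∀ x ∈ C, dg G C x = 2
  card : 4 ≤ C.card

lemma hole_of_path {y z v : V} {P : Finset V} (h : IP G y z P) (hv : v ∉ P) (hvy : G.Adj v y)
    (hvz : G.Adj v z) (hyz : y ≠ z) (hn : ¬ G.Adj y z)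
    (hu : ∀ x ∈ P, G.Adj v x → x = y ∨ x = z) : Hole G (insert v P) := by
  obtain ⟨i1, i2, i3⟩ := h.deg hyz
  refine ⟨?_, ?_, ?_⟩
  · have := (Cn.singleton (G := G) v).union h.cn (Or.inl ⟨v, by simp, y, h.start, hvy⟩)
    rwa [← insert_eq] at this
  · intro x hx
    rw [mem_insert] at hx
    rcases hx with rfl | hx
    · refine dg_two (mem_insert_of_mem h.start) (mem_insert_of_mem h.stop) hyz fun w hw => ?_
      rw [mem_insert] at hw
      constructor
      · intro h1
        rcases hw with rfl | hw
        · exact absurd h1 (G.loopless.irrefl _)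
        · exact hu w hw h1
      · rintro (rfl | rfl)
        · exact hvy
        · exact hvz
    · rw [dg_insert hv]
      by_cases h1 : x = y
      · subst h1; rw [i1, if_pos hvy.symm]
      by_cases h2 : x = z
      · subst h2; rw [i2, if_pos hvz.symm]
      rw [i3 x hx h1 h2, if_neg]
      intro h3
      rcases hu x hx h3.symm with h4 | h4
      · exact h1 h4
      · exact h2 h4
  · obtain ⟨z0, P0, h1, h2, h3, h4, rfl⟩ := h.inv hyz
    have hz0y : z0 ≠ y := by rintro rfl; exact hn h3.symm
    have hsub : ({v, z, z0, y} : Finset V) ⊆ insert v (insert z P0) := by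
      intro t ht
      simp only [mem_insert, mem_singleton] at ht ⊢
      rcases ht with rfl | rfl | rfl | rfl
      · simp
      · simp
      · exact Or.inr (Or.inr h1.stop)
      · exact Or.inr (Or.inr h1.start)
    have : ({v, z, z0, y} : Finset V).card = 4 := by
      rw [card_insert_of_notMem, card_insert_of_notMem, card_insert_of_notMem, card_singleton]
      · simpa using hz0y
      · simp only [mem_insert, mem_singleton, not_or]
        exact ⟨h3.ne, hyz.symm⟩
      · simp only [mem_insert, mem_singleton, not_or]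
        simp only [mem_insert, not_or] at hv
        exact ⟨hv.1, fun h5 => hv.2 (h5 ▸ h1.stop), fun h5 => hv.2 (h5 ▸ h1.start)⟩
    have := card_le_card hsub
    omega

/-- a hole minus a vertex is an induced path -/
lemma Hole.erase {C : Finset V} (h : Hole G C) {c : V} (hc : c ∈ C) :
    ∃ e1 e2, e1 ≠ e2 ∧ G.Adj c e1 ∧ G.Adj c e2 ∧ IP G e1 e2 (C.erase c) ∧
      ∀ x ∈ C, G.Adj c x ↔ x = e1 ∨ x = e2 := by
  -- a longest induced path in `C` starting at `c`
  obtain ⟨⟨w, Q⟩, hmem, hmax⟩ := exists_max_image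
    ((C ×ˢ C.powerset).filter (fun p : V × Finset V => IP G c p.1 p.2)) (fun p => p.2.card)
    ⟨(c, {c}), by simp [hc, IP.nil]⟩
  simp only [mem_filter, mem_product, mem_powerset] at hmem hmax
  obtain ⟨⟨hw, hQ⟩, hip⟩ := hmem
  obtain ⟨u, hu, u', hu', huu', hcu, hcu', hnb⟩ := two_of_dg (h.deg c hc)
  have hcw : c ≠ w := by
    intro he
    have hQ' := hip.eq_of_eq he
    have hcu'' : c ≠ u := hcu.ne
    have := hmax (u, insert u {c}) ⟨⟨hu, by
      intro t ht
      simp only [mem_insert, mem_singleton] at ht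
      rcases ht with rfl | rfl <;> assumption⟩, .snoc .nil (by simpa using hcu''.symm) hcu.symm
        (by intro x hx _; simpa using hx)⟩
    simp only [hQ'] at this
    rw [card_insert_of_notMem (by simpa using hcu''.symm)] at this
    simp at this
  obtain ⟨i1, i2, i3⟩ := hip.deg hcw
  -- the next vertex
  obtain ⟨w', hw'C, hw'Q, hww'⟩ : ∃ w' ∈ C, w' ∉ Q ∧ G.Adj w w' := by
    by_contra hcon
    push Not at hcon
    have : dg G C w ≤ dg G Q w := by
      unfold dg
      apply card_le_card
      intro t ht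
      rw [mem_filter] at ht ⊢
      refine ⟨?_, ht.2⟩
      by_contra htQ
      exact hcon t ht.1 htQ ht.2
    rw [h.deg w hw] at this
    omega
  have hthree : ∀ x ∈ Q, G.Adj w' x → x = w ∨ x = c := by
    intro x hx hadj
    by_contra hcon
    push Not at hcon
    have h1 := i3 x hx hcon.2 hcon.1
    have h2 : dg G (insert w' Q) x ≤ dg G C x := dg_mono (insert_subset hw'C hQ)
    rw [dg_insert hw'Q, if_pos hadj.symm, h1, h.deg x (hQ hx)] at h2
    omega
  have hw'c : G.Adj w' c := by
    by_contra hn
    have := hmax (w', insert w' Q) ⟨⟨hw'C, insert_subset hw'C hQ⟩, .snoc hip hw'Q hww'.symm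
      (by
        intro x hx hadj
        rcases hthree x hx hadj with h1 | h1
        · exact h1
        · subst h1; exact absurd hadj hn)⟩
    simp only [card_insert_of_notMem hw'Q] at this
    omega
  -- the path closes up
  have hall : insert w' Q = C := by
    by_contra hne
    have hsub : insert w' Q ⊆ C := insert_subset hw'C hQ
    obtain ⟨x, hx, x', hx', hadj⟩ := h.cn.2 (insert w' Q) hsub ⟨w', mem_insert_self _ _⟩ (by
      rw [sdiff_nonempty]
      intro hs
      exact hne (subset_antisymm hsub hs))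
    obtain ⟨hx'C, hx'n⟩ := mem_sdiff.1 hx'
    have h1 : dg G (insert x' (insert w' Q)) x ≤ dg G C x := dg_mono (insert_subset hx'C hsub)
    rw [dg_insert hx'n, if_pos hadj, h.deg x (hsub hx)] at h1
    have h2 : 2 ≤ dg G (insert w' Q) x := by
      rw [mem_insert] at hx
      rcases hx with rfl | hx
      · have h3 : ({w, c} : Finset V) ⊆ (insert x Q).filter (fun y => G.Adj x y) := by
          intro t ht
          simp only [mem_insert, mem_singleton] at ht
          rw [mem_filter, mem_insert]
          rcases ht with rfl | rfl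
          · exact ⟨Or.inr hip.stop, hww'.symm⟩
          · exact ⟨Or.inr hip.start, hw'c⟩
        have := card_le_card h3
        rw [card_pair hcw.symm] at this
        exact this
      · rw [dg_insert hw'Q]
        by_cases h3 : x = c
        · subst h3; rw [i1, if_pos hw'c.symm]
        by_cases h4 : x = w
        · subst h4; rw [i2, if_pos hww']
        rw [i3 x hx h3 h4]; omega
    omega
  obtain ⟨c2, Q0, hip0, hcQ0, hcc2, huc, hQe⟩ := hip.symm.inv hcw.symm
  have hw'c' : w' ≠ c := hw'c.ne
  have hcons : IP G w' c2 (insert w' Q0) := by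
    refine hip0.cons (fun h1 => hw'Q (by rw [hQe]; exact mem_insert_of_mem h1)) hww'.symm ?_
    intro x hx hadj
    rcases hthree x (by rw [hQe]; exact mem_insert_of_mem hx) hadj with h1 | h1
    · exact h1
    · subst h1; exact absurd hx hcQ0
  have herase : C.erase c = insert w' Q0 := by
    rw [← hall, hQe, erase_insert_of_ne hw'c', erase_insert hcQ0]
  have hne12 : w' ≠ c2 := by
    rintro rfl
    exact hw'Q (by rw [hQe]; exact mem_insert_of_mem hip0.stop)
  refine ⟨w', c2, hne12, hw'c.symm, hcc2, by rw [herase]; exact hcons, ?_⟩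
  intro x hx
  constructor
  · intro hadj
    have hxc : x ≠ c := hadj.ne'
    have : x ∈ C.erase c := mem_erase.2 ⟨hxc, hx⟩
    rw [herase, mem_insert] at this
    rcases this with h1 | h1
    · exact Or.inl h1
    · exact Or.inr (huc x h1 hadj)
  · rintro (rfl | rfl)
    · exact hw'c.symm
    · exact hcc2

lemma Hole.cn_erase {C : Finset V} (h : Hole G C) {c : V} (hc : c ∈ C) : Cn G (C.erase c) := by
  obtain ⟨e1, e2, _, _, _, h1, _⟩ := h.erase hc
  exact h1.cn

end Run7.h274.Itm
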