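import Pool.Agent.Run7.h274.Itm.Dia

/-! Graphs without a subdivided paw. -/

namespace Run7.h274.Itm

open Pool.Agent.H175R2 Finset Classical

variable {V : Type} {G : SimpleGraph V}

lemma paw_of_four {u p q v : V} (hup : G.Adj u p) (huq : G.Adj u q) (hpq : G.Adj p q)
    (huv : G.Adj u v) (hpv : ¬ G.Adj p v) (hqv : ¬ G.Adj q v) (h1 : p ≠ v) (h2 : q ≠ v) :
    IsITM paw G := by
  refine ⟨(({u, p, q, v} : Finset V) : Set V), .iso (iso_of_fn (S := G)
    (X := {u, p, q, v}) (H := paw) ![u, p, q, v] ?_ ?_ ?_).some⟩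
  · have e1 := hup.ne
    have e2 := huq.ne
    have e3 := hpq.ne
    have e4 := huv.ne
    intro i j hij
    fin_cases i <;> fin_cases j <;> simp at hij ⊢ <;>
      first
      | exact absurd hij e1 | exact absurd hij.symm e1
      | exact absurd hij e2 | exact absurd hij.symm e2
      | exact absurd hij e3 | exact absurd hij.symm e3
      | exact absurd hij e4 | exact absurd hij.symm e4
      | exact absurd hij h1 | exact absurd hij.symm h1
      | exact absurd hij h2 | exact absurd hij.symm h2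
  · intro x
    simp only [mem_insert, mem_singleton]
    constructor
    · rintro (rfl | rfl | rfl | rfl)
      · exact ⟨0, rfl⟩
      · exact ⟨1, rfl⟩
      · exact ⟨2, rfl⟩
      · exact ⟨3, rfl⟩
    · rintro ⟨i, rfl⟩
      fin_cases i <;> simp
  · have e1 := hup.symm
    have e2 := huq.symm
    have e3 := hpq.symm
    have e4 := huv.symm
    have e5 : ¬ G.Adj v p := fun h => hpv h.symm
    have e6 : ¬ G.Adj v q := fun h => hqv h.symm
    intro i j
    fin_cases i <;> fin_cases j <;>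
      simp [paw, SimpleGraph.fromRel_adj, hup, huq, hpq, huv, hpv, hqv, e1, e2, e3, e4, e5, e6]

/-! ### Olariu's theorem for connected graphs (paw-free with a triangle) -/

lemma ol_tri [Fintype V] (hc : Cn G univ) (hp : ¬ IsITM paw G) {a b c : V}
    (hab : G.Adj a b) (hac : G.Adj a c) (hbc : G.Adj b c) :
    ∀ v, ∃ p q, G.Adj v p ∧ G.Adj v q ∧ G.Adj p q := by
  by_contra hne
  push Not at hne
  obtain ⟨v0, hv0⟩ := hne
  obtain ⟨u, hu, v, hv, huv⟩ := hc.2 (univ.filter (fun v => ∃ p q, G.Adj v p ∧ G.Adj v q ∧ G.Adj p q))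
    (subset_univ _) ⟨a, mem_filter.2 ⟨mem_univ _, b, c, hab, hac, hbc⟩⟩
    ⟨v0, mem_sdiff.2 ⟨mem_univ _, fun h => by
      obtain ⟨_, p, q, h1, h2, h3⟩ := mem_filter.1 h
      exact hv0 p q h1 h2 h3⟩⟩
  rw [mem_filter] at hu
  obtain ⟨_, p, q, hup, huq, hpq⟩ := hu
  have hvn' : ¬ ∃ p q, G.Adj v p ∧ G.Adj v q ∧ G.Adj p q :=
    fun h => (mem_sdiff.1 hv).2 (mem_filter.2 ⟨mem_univ _, h⟩)
  refine hp (paw_of_four hup huq hpq huv ?_ ?_ ?_ ?_)
  · intro h
    exact hvn' ⟨u, p, huv.symm, h.symm, hup⟩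
  · intro h
    exact hvn' ⟨u, q, huv.symm, h.symm, huq⟩
  · rintro rfl
    exact hvn' ⟨u, q, hup.symm, hpq, huq⟩
  · rintro rfl
    exact hvn' ⟨u, p, huq.symm, hpq.symm, hup⟩

lemma ol_edge (hp : ¬ IsITM paw G) (ht : ∀ v, ∃ p q, G.Adj v p ∧ G.Adj v q ∧ G.Adj p q)
    {x y : V} (hxy : G.Adj x y) : ∃ z, G.Adj x z ∧ G.Adj y z := by
  obtain ⟨p, q, hxp, hxq, hpq⟩ := ht x
  by_cases h1 : p = y
  · subst h1
    exact ⟨q, hxq, hpq⟩
  by_cases h2 : q = y
  · subst h2
    exact ⟨p, hxp, hpq.symm⟩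
  by_cases h3 : G.Adj p y
  · exact ⟨p, hxp, h3.symm⟩
  by_cases h4 : G.Adj q y
  · exact ⟨q, hxq, h4.symm⟩
  exact absurd (paw_of_four hxp hxq hpq hxy h3 h4 h1 h2) hp

lemma ol_sub (hp : ¬ IsITM paw G) (ht : ∀ v, ∃ p q, G.Adj v p ∧ G.Adj v q ∧ G.Adj p q)
    {x y u w : V} (hxy : G.Adj x y)
    (hux : G.Adj u x) (huw : G.Adj u w) (h1 : w ≠ x) (h2 : w ≠ y) (h3 : ¬G.Adj w x)
    (h4 : ¬G.Adj w y) : False := by
  by_cases huy : G.Adj u y
  · exact hp (paw_of_four hux huy hxy huw (fun h => h3 h.symm) (fun h => h4 h.symm)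
      h1.symm h2.symm)
  obtain ⟨z, hxz, hyz⟩ := ol_edge hp ht hxy
  have huy' : y ≠ u := by
    rintro rfl
    exact h4 huw.symm
  have hzu : G.Adj z u := by
    by_contra hcon
    refine hp (paw_of_four hxy hxz hyz hux.symm (fun h => huy h.symm) hcon huy' ?_)
    rintro rfl
    exact huy hyz.symm
  have hzw : G.Adj z w := by
    by_contra hcon
    refine hp (paw_of_four hux hzu.symm hxz huw (fun h => h3 h.symm) hcon h1.symm ?_)
    rintro rfl
    exact h3 hxz.symm
  exact hp (paw_of_four hxz.symm hyz.symm hxy hzw (fun h => h3 h.symm)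
    (fun h => h4 h.symm) h1.symm h2.symm)

lemma ol_dom [Fintype V] (hc : Cn G univ) (hp : ¬ IsITM paw G)
    (ht : ∀ v, ∃ p q, G.Adj v p ∧ G.Adj v q ∧ G.Adj p q)
    {x y : V} (hxy : G.Adj x y) :
    ∀ w, w = x ∨ w = y ∨ G.Adj w x ∨ G.Adj w y := by
  by_contra hne
  push Not at hne
  obtain ⟨w0, hw0⟩ := hne
  obtain ⟨u, hu, w, hw, huw⟩ := hc.2
    (univ.filter (fun w => w = x ∨ w = y ∨ G.Adj w x ∨ G.Adj w y)) (subset_univ _)
    ⟨x, mem_filter.2 ⟨mem_univ _, Or.inl rfl⟩⟩
    ⟨w0, mem_sdiff.2 ⟨mem_univ _, fun h => by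
      rcases (mem_filter.1 h).2 with h | h | h | h
      · exact hw0.1 h
      · exact hw0.2.1 h
      · exact hw0.2.2.1 h
      · exact hw0.2.2.2 h⟩⟩
  have hu' := (mem_filter.1 hu).2
  have hwn : ¬ (w = x ∨ w = y ∨ G.Adj w x ∨ G.Adj w y) :=
    fun h => (mem_sdiff.1 hw).2 (mem_filter.2 ⟨mem_univ _, h⟩)
  push Not at hwn
  obtain ⟨h1, h2, h3, h4⟩ := hwn
  rcases hu' with rfl | rfl | h | h
  · exact h3 huw.symm
  · exact h4 huw.symm
  · exact ol_sub hp ht hxy h huw h1 h2 h3 h4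
  · exact ol_sub hp ht hxy.symm h huw h2 h1 h4 h3

/-- connected graphs without induced paw and with a triangle have transitive nonadjacency -/
theorem olariu [Fintype V] (hc : Cn G univ) (hp : ¬ IsITM paw G) {a b c : V}
    (hab : G.Adj a b) (hac : G.Adj a c) (hbc : G.Adj b c) {x y z : V} (hxy : x ≠ y) (hyz : y ≠ z)
    (h1 : ¬ G.Adj x y) (h2 : ¬ G.Adj y z) : ¬ G.Adj x z := by
  intro h
  rcases ol_dom hc hp (ol_tri hc hp hab hac hbc) h y with h3 | h3 | h3 | h3
  · exact hxy h3.symm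
  · exact hyz h3
  · exact h1 h3.symm
  · exact h2 h3

/-- connected, with a triangle, no subdivided paw: a cograph -/
theorem p4free_of_tri [Fintype V] (hc : Cn G univ) (hp : ¬ IsITM paw G) {a b c : V}
    (hab : G.Adj a b) (hac : G.Adj a c) (hbc : G.Adj b c) : P4Free G univ := by
  intro p _ q _ r _ s _ h1 h2 h3 h4 h5 h6
  by_contra hcon
  push Not at hcon
  -- p r s : p ≁ r, p ≁ s, r ~ s
  exact olariu hc hp hab hac hbc h1.symm h2 (fun h => hcon.1 h.symm) hcon.2.1 h6

/-! ### triangle-free graphs -/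

/-- no triangle -/
def TF (G : SimpleGraph V) : Prop := ∀ a b c : V, G.Adj a b → G.Adj b c → ¬ G.Adj a c

/-- a vertex adjacent to both ends of an induced path in a triangle-free graph -/
lemma hole_of_tf (htf : TF G) {x y v : V} {P : Finset V} (h : IP G x y P) : x ≠ y →
    v ∉ P → G.Adj v x → G.Adj v y → ∃ C, Hole G C := by
  induction h with
  | nil => intro h; exact absurd rfl h
  | @snoc z z' P h hz ha hu ih =>
    intro hxz' hv hvx hvz'
    have hvP : v ∉ P := fun h1 => hv (mem_insert_of_mem h1)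
    by_cases hvz : G.Adj v z
    · exact absurd hvz (htf v z' z hvz' ha)
    · obtain ⟨w, Q, hQ, hip, hvw, hwu⟩ := h.suf (v := v) ⟨x, h.start, hvx⟩
      have hwz : w ≠ z := by rintro rfl; exact hvz hvw
      have hz'Q : z' ∉ Q := fun h1 => hz (hQ h1)
      have hip' : IP G w z' (insert z' Q) := .snoc hip hz'Q ha (fun t ht => hu t (hQ ht))
      have hwz' : w ≠ z' := by rintro rfl; exact hz'Q hip.start
      refine ⟨_, hole_of_path hip' (v := v) ?_ hvw hvz' hwz' ?_ ?_⟩
      · rw [mem_insert, not_or]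
        refine ⟨fun h1 => hv (by rw [h1]; exact mem_insert_self _ _), fun h1 => hvP (hQ h1)⟩
      · intro h1
        exact hwz (hu w (hQ hip.start) h1.symm)
      · intro t ht hvt
        rw [mem_insert] at ht
        rcases ht with rfl | ht
        · exact Or.inr rfl
        · exact Or.inl (hwu t ht hvt)

/-- a vertex outside a hole with a neighbour in it has at least two -/
lemma two_le_of_hole (hp : ¬ IsITM paw G) {C : Finset V} (hC : Hole G C) {p f : V} (hpC : p ∉ C)
    (hf : f ∈ C) (hpf : G.Adj p f) : ∃ g ∈ C, g ≠ f ∧ G.Adj p g := by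
  by_contra hcon
  push Not at hcon
  apply hp
  have hfp : f ≠ p := hpf.ne'
  refine paw_of_cn (X := insert p C) (a := f) (l := p) (mem_insert_of_mem hf)
    (mem_insert_self _ _) hfp ?_ ?_ ?_ ?_
  · rw [dg_insert hpC, hC.deg f hf, if_pos hpf.symm]
  · rw [dg_insert hpC, if_neg (G.loopless.irrefl _), dg_one hf]
    intro y hy
    constructor
    · intro h
      by_contra hne
      exact hcon y hy hne h
    · rintro rfl; exact hpf
  · intro x hx h1 h2
    rw [mem_insert] at hx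
    have hxC := hx.resolve_left h2
    rw [dg_insert hpC, hC.deg x hxC, if_neg]
    intro h
    exact hcon x hxC h1 h.symm
  · have := (Cn.singleton (G := G) p).union hC.cn (Or.inl ⟨p, by simp, f, hf, hpf⟩)
    rwa [← insert_eq] at this

/-- key step: the first neighbour `g` of `p` on the path `C - f` from `y` is adjacent to `z` -/
lemma hole_step (htf : TF G) (hp : ¬ IsITM paw G) {C : Finset V} {p f y z : V}
    (hpC : p ∉ C) (hpf : G.Adj p f) (hyz : y ≠ z) (hfy : G.Adj f y)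
    (hfz : G.Adj f z) (hip : IP G y z (C.erase f)) (hnb : ∀ x ∈ C, G.Adj f x → x = y ∨ x = z)
    (hex : ∃ w ∈ C.erase f, G.Adj p w) :
    ∃ g Q, Q ⊆ C.erase f ∧ IP G y g Q ∧ G.Adj p g ∧ (∀ x ∈ Q, G.Adj p x → x = g) ∧ G.Adj z g ∧
      ∀ x ∈ C.erase f, G.Adj z x → x = g := by
  obtain ⟨g, Q, hQ, hipQ, hpg, huQ⟩ := hip.pre (v := p) hex
  have hpy : ¬ G.Adj p y := htf p f y hpf hfy
  have hpz : ¬ G.Adj p z := htf p f z hpf hfz
  have hyg : y ≠ g := by rintro rfl; exact hpy hpg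
  have hzg : z ≠ g := by rintro rfl; exact hpz hpg
  obtain ⟨i1, i2, i3⟩ := hip.deg hyz
  obtain ⟨j1, j2, j3⟩ := hipQ.deg hyg
  have hzQ : z ∉ Q := by
    intro h
    have h1 := j3 z h hyz.symm hzg
    have h2 := dg_mono (G := G) (x := z) hQ
    omega
  have hfQ : f ∉ Q := fun h => (mem_erase.1 (hQ h)).1 rfl
  have hQC : ∀ x ∈ Q, x ∈ C := fun x hx => (mem_erase.1 (hQ hx)).2
  have hpQ : p ∉ Q := fun h => hpC (hQC p h)
  have hf1 : ∀ x ∈ Q, G.Adj f x → x = y := by
    intro x hx hfx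
    rcases hnb x (hQC x hx) hfx with h | h
    · exact h
    · exact absurd (h ▸ hx) hzQ
  have hip' : IP G f g (insert f Q) := hipQ.cons hfQ hfy hf1
  have hfg : f ≠ g := by rintro rfl; exact hfQ hipQ.stop
  have hole : Hole G (insert p (insert f Q)) := by
    refine hole_of_path hip' ?_ hpf hpg hfg (htf f p g hpf.symm hpg) ?_
    · rw [mem_insert, not_or]
      exact ⟨hpf.ne, hpQ⟩
    · intro x hx hpx
      rw [mem_insert] at hx
      rcases hx with hx | hx
      · exact Or.inl hx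
      · exact Or.inr (huQ x hx hpx)
  have hzC : z ∈ C := (mem_erase.1 hip.stop).2
  have hzf : z ≠ f := (mem_erase.1 hip.stop).1
  have hzH : z ∉ insert p (insert f Q) := by
    rw [mem_insert, mem_insert, not_or, not_or]
    exact ⟨by rintro rfl; exact hpC hzC, hzf, hzQ⟩
  obtain ⟨g', hg', hg'f, hzg'⟩ := two_le_of_hole hp hole hzH (f := f)
    (mem_insert_of_mem (mem_insert_self _ _)) hfz.symm
  have hg'Q : g' ∈ Q := by
    rw [mem_insert, mem_insert] at hg'
    rcases hg' with h | h | h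
    · subst h; exact absurd hzg'.symm hpz
    · exact absurd h hg'f
    · exact h
  have hg'g : g' = g := by
    by_contra hne
    have hg'y : g' ≠ y := by
      rintro rfl
      exact htf g' f z hfy.symm hfz hzg'.symm
    have h1 := j3 g' hg'Q hg'y hne
    have h2 : dg G (insert z Q) g' = 3 := by rw [dg_insert hzQ, h1, if_pos hzg'.symm]
    have h3 : insert z Q ⊆ C.erase f := insert_subset hip.stop hQ
    have h4 := dg_mono (G := G) (x := g') h3
    have h5 := hip.deg_le (hQ hg'Q)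
    omega
  subst hg'g
  refine ⟨g', Q, hQ, hipQ, hpg, huQ, hzg', ?_⟩
  intro x hx hzx
  obtain ⟨u, hu, _, huu⟩ := one_of_dg i2
  rw [huu x hx hzx, huu g' (hQ hg'Q) hzg']

/-- a hole in a triangle-free graph without subdivided paw: if some outside vertex sees it, it is a
four-cycle -/
lemma hole_four (htf : TF G) (hp : ¬ IsITM paw G) {C : Finset V} (hC : Hole G C) {p f : V}
    (hpC : p ∉ C) (hf : f ∈ C) (hpf : G.Adj p f) :
    ∃ y z g, f ≠ g ∧ y ≠ z ∧ G.Adj f y ∧ G.Adj f z ∧ G.Adj g y ∧ G.Adj g z := by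
  obtain ⟨y, z, hyz, hfy, hfz, hip, hnb⟩ := hC.erase hf
  obtain ⟨w, hw, hwf, hpw⟩ := two_le_of_hole hp hC hpC hf hpf
  have hex : ∃ w ∈ C.erase f, G.Adj p w := ⟨w, mem_erase.2 ⟨hwf, hw⟩, hpw⟩
  obtain ⟨g, Q, hQ, hipQ, hpg, huQ, hzg, hzu⟩ := hole_step htf hp hpC hpf hyz hfy hfz hip
    (fun x hx => (hnb x hx).1) hex
  obtain ⟨g2, Q2, hQ2, hipQ2, hpg2, huQ2, hzg2, hzu2⟩ := hole_step htf hp hpC hpf hyz.symm hfz hfy
    hip.symm (fun x hx h => ((hnb x hx).1 h).symm) hex
  have hpz : ¬ G.Adj p z := htf p f z hpf hfz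
  have hz2 : z ≠ g2 := by rintro rfl; exact hpz hpg2
  -- the neighbour of `z` in `Q2`
  have hgQ2 : g ∈ Q2 := by
    obtain ⟨j1, _, _⟩ := hipQ2.deg hz2
    obtain ⟨u, hu, hzu', _⟩ := one_of_dg j1
    rw [← hzu u (hQ2 hu) hzu']
    exact hu
  have hgg2 : g = g2 := huQ2 g hgQ2 hpg
  subst hgg2
  refine ⟨y, z, g, ?_, hyz, hfy, hfz, hzg2.symm, hzg.symm⟩
  rintro rfl
  exact (mem_erase.1 (hQ2 hgQ2)).1 rfl

/-- a four-cycle in a triangle-free graph is a hole -/
lemma hole_of_four (htf : TF G) {a b c d : V} (hac : a ≠ c) (hbd : b ≠ d) (hab : G.Adj a b)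
    (hbc : G.Adj b c) (hcd : G.Adj c d) (hda : G.Adj d a) : Hole G {a, b, c, d} := by
  have nac : ¬ G.Adj a c := htf a b c hab hbc
  have nbd : ¬ G.Adj b d := htf b c d hbc hcd
  have nbd' : ¬ G.Adj d b := fun h => nbd h.symm
  have h1 : IP G b d (insert d (insert c {b})) := by
    refine .snoc (.snoc .nil ?_ hbc.symm ?_) ?_ hcd.symm ?_
    · simpa using hbc.ne'
    · intro x hx _; simpa using hx
    · simp only [mem_insert, mem_singleton, not_or]
      exact ⟨hcd.ne', hbd.symm⟩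
    · intro x hx hdx
      simp only [mem_insert, mem_singleton] at hx
      rcases hx with hx | hx
      · exact hx
      · subst hx; exact absurd hdx nbd'
  have h2 := hole_of_path (v := a) h1 ?_ hab hda.symm hbd nbd ?_
  · have e : (insert a (insert d (insert c {b})) : Finset V) = {a, b, c, d} := by
      ext x; simp only [mem_insert, mem_singleton]; tauto
    rwa [e] at h2
  · simp only [mem_insert, mem_singleton, not_or]
    exact ⟨hda.ne', hac, hab.ne⟩
  · intro x hx hax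
    simp only [mem_insert, mem_singleton] at hx
    rcases hx with hx | hx | hx
    · exact Or.inr hx
    · subst hx; exact absurd hax nac
    · exact Or.inl hx

/-- a connected triangle-free graph without subdivided paw with a four-cycle is complete
bipartite -/
lemma bip_of_four [Fintype V] (hc : Cn G univ) (htf : TF G) (hp : ¬ IsITM paw G) {a b c d : V}
    (hac : a ≠ c) (hbd : b ≠ d) (hab : G.Adj a b) (hbc : G.Adj b c) (hcd : G.Adj c d)
    (hda : G.Adj d a) : P4Free G univ := by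
  -- a largest complete bipartite pair
  obtain ⟨⟨A, B⟩, hmem, hmax⟩ := exists_max_image
    ((univ : Finset (Finset V × Finset V)).filter (fun p => 2 ≤ p.1.card ∧ 2 ≤ p.2.card ∧
      ∀ x ∈ p.1, ∀ y ∈ p.2, G.Adj x y)) (fun p => (p.1 ∪ p.2).card)
    ⟨({a, c}, {b, d}), by
      simp only [mem_filter, mem_univ, true_and, mem_insert, mem_singleton]
      refine ⟨by rw [card_pair hac], by rw [card_pair hbd], ?_⟩
      rintro x (rfl | rfl) y (rfl | rfl)
      · exact hab
      · exact hda.symm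
      · exact hbc.symm
      · exact hcd⟩
  simp only [mem_filter, mem_univ, true_and, and_imp, Prod.forall] at hmem hmax
  obtain ⟨hA, hB, hAB⟩ := hmem
  -- one side
  have ext : ∀ A B : Finset V, 2 ≤ A.card → 2 ≤ B.card → (∀ x ∈ A, ∀ y ∈ B, G.Adj x y) →
      ∀ f ∈ A, ∀ p, p ∉ A ∪ B → G.Adj f p → ∀ a ∈ A, G.Adj a p := by
    intro A B hA hB hAB f hf p hpU hfp a ha
    by_cases haf : a = f
    · subst haf; exact hfp
    obtain ⟨b1, b2, hb1, hb2, hb12⟩ : ∃ b1 b2, b1 ∈ B ∧ b2 ∈ B ∧ b1 ≠ b2 := by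
      obtain ⟨b1, hb1, b2, hb2, h⟩ := one_lt_card.1 (lt_of_lt_of_le one_lt_two hB)
      exact ⟨b1, b2, hb1, hb2, h⟩
    have hH := hole_of_four htf (a := f) (b := b1) (c := a) (d := b2) (Ne.symm haf) hb12
      (hAB f hf b1 hb1) (hAB a ha b1 hb1).symm (hAB a ha b2 hb2) (hAB f hf b2 hb2).symm
    obtain ⟨g, hg, hgf, hpg⟩ := two_le_of_hole hp hH (p := p) (f := f) (by
      simp only [mem_insert, mem_singleton, not_or]
      refine ⟨?_, ?_, ?_, ?_⟩
      · rintro rfl; exact hpU (mem_union_left _ hf)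
      · rintro rfl; exact hpU (mem_union_right _ hb1)
      · rintro rfl; exact hpU (mem_union_left _ ha)
      · rintro rfl; exact hpU (mem_union_right _ hb2)) (by simp) hfp.symm
    simp only [mem_insert, mem_singleton] at hg
    rcases hg with h | h | h | h
    · exact absurd h hgf
    · subst h; exact absurd hpg (htf p f g hfp.symm (hAB f hf g hb1))
    · subst h; exact hpg.symm
    · subst h; exact absurd hpg (htf p f g hfp.symm (hAB f hf g hb2))
  have hU : A ∪ B = univ := by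
    by_contra hne
    obtain ⟨u, hu⟩ : ∃ u, u ∉ A ∪ B := by
      by_contra hcon
      push Not at hcon
      exact hne (eq_univ_iff_forall.2 hcon)
    obtain ⟨a0, ha0⟩ : A.Nonempty := card_pos.1 (by omega)
    obtain ⟨f, hf, p, hp', hfp⟩ := hc.2 (A ∪ B) (subset_univ _) ⟨a0, mem_union_left _ ha0⟩
      ⟨u, mem_sdiff.2 ⟨mem_univ _, hu⟩⟩
    have hpU := (mem_sdiff.1 hp').2
    rcases mem_union.1 hf with hf | hf
    · have h1 := ext A B hA hB hAB f hf p hpU hfp
      have h2 := hmax A (insert p B) hA (hB.trans (card_le_card (subset_insert _ _))) (by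
        intro x hx y hy
        rw [mem_insert] at hy
        rcases hy with rfl | hy
        · exact h1 x hx
        · exact hAB x hx y hy)
      rw [union_insert, card_insert_of_notMem hpU] at h2
      omega
    · have hBA : ∀ x ∈ B, ∀ y ∈ A, G.Adj x y := fun x hx y hy => (hAB y hy x hx).symm
      have h1 := ext B A hB hA hBA f hf p (by rwa [union_comm]) hfp
      have h2 := hmax (insert p A) B (hA.trans (card_le_card (subset_insert _ _))) hB (by
        intro x hx y hy
        rw [mem_insert] at hx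
        rcases hx with rfl | hx
        · exact (h1 y hy).symm
        · exact hAB x hx y hy)
      rw [insert_union, card_insert_of_notMem hpU] at h2
      omega
  obtain ⟨a0, ha0⟩ : A.Nonempty := card_pos.1 (by omega)
  obtain ⟨b0, hb0⟩ : B.Nonempty := card_pos.1 (by omega)
  have hin : ∀ x y : V, G.Adj x y → (x ∈ A ∧ y ∈ B) ∨ (x ∈ B ∧ y ∈ A) := by
    intro x y hxy
    have hx : x ∈ A ∪ B := by rw [hU]; exact mem_univ _
    have hy : y ∈ A ∪ B := by rw [hU]; exact mem_univ _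
    rcases mem_union.1 hx with hx | hx <;> rcases mem_union.1 hy with hy | hy
    · exact absurd (hAB x hx b0 hb0) (htf x y b0 hxy (hAB y hy b0 hb0))
    · exact Or.inl ⟨hx, hy⟩
    · exact Or.inr ⟨hx, hy⟩
    · exact absurd (hAB a0 ha0 x hx).symm (htf x y a0 hxy (hAB a0 ha0 y hy).symm)
  intro p _ q _ r _ s _ h1 h2 h3 h4 h5 h6
  right; left
  have disj : ∀ x, x ∈ A → x ∈ B → False := fun x hx hx' => G.loopless.irrefl _ (hAB x hx x hx')
  rcases hin p q h4 with ⟨k1, k2⟩ | ⟨k1, k2⟩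
  · rcases hin q r h5 with ⟨k3, k4⟩ | ⟨k3, k4⟩
    · exact (disj q k3 k2).elim
    · rcases hin r s h6 with ⟨k5, k6⟩ | ⟨k5, k6⟩
      · exact hAB p k1 s k6
      · exact (disj r k4 k5).elim
  · rcases hin q r h5 with ⟨k3, k4⟩ | ⟨k3, k4⟩
    · rcases hin r s h6 with ⟨k5, k6⟩ | ⟨k5, k6⟩
      · exact (disj r k5 k4).elim
      · exact (hAB s k6 p k1).symm
    · exact (disj q k2 k3).elim

/-- 2-connected triangle-free graphs without subdivided paw are cycles or complete bipartite -/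
theorem two_conn_paw [Fintype V] (hG : TwoConn G) (htf : TF G) (hp : ¬ IsITM paw G) :
    P4Free G univ ∨ ∀ x : V, dg G univ x ≤ 2 := by
  have h3 := hG.card
  obtain ⟨x, y, hxy, hn⟩ : ∃ x y : V, x ≠ y ∧ ¬ G.Adj x y := by
    by_contra hcon
    push Not at hcon
    have h2 : 2 < (univ : Finset V).card := by rw [card_univ]; omega
    obtain ⟨a, _, b, _, c, _, hab, hac, hbc⟩ := two_lt_card.1 h2
    exact htf a b c (hcon a b hab) (hcon b c hbc) (hcon a c hac)
  obtain ⟨v, a, b, hva, hvb, hab, hne⟩ := exists_P3 hG.conn hxy hn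
  obtain ⟨P, hP, hip⟩ := exists_IP (hG.del v) (y := a) (z := b)
    (mem_erase.2 ⟨hva.ne', mem_univ _⟩) (mem_erase.2 ⟨hvb.ne', mem_univ _⟩)
  obtain ⟨C, hC⟩ := hole_of_tf htf hip hne (fun h => (mem_erase.1 (hP h)).1 rfl) hva hvb
  by_cases hCu : C = univ
  · right
    intro x
    subst hCu
    exact (hC.deg x (mem_univ _)).le
  · left
    obtain ⟨u, hu⟩ : ∃ u, u ∉ C := by
      by_contra hcon
      push Not at hcon
      exact hCu (eq_univ_iff_forall.2 hcon)
    obtain ⟨f, hf, p, hp', hfp⟩ := hG.conn.2 C (subset_univ _) hC.cn.1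
      ⟨u, mem_sdiff.2 ⟨mem_univ _, hu⟩⟩
    obtain ⟨y, z, g, h1, h2, h3, h4, h5, h6⟩ := hole_four htf hp hC (mem_sdiff.1 hp').2 hf hfp.symm
    exact bip_of_four hG.conn htf hp (a := f) (b := y) (c := g) (d := z) h1 h2 h3 h5.symm h6 h4.symm

end Run7.h274.Itm
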