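import Pool.Agent.Run7.h274.Itm.Defs

/-! Basic facts on subdivisions. -/

namespace Run7.h274.Itm

open Pool.Agent.H175R2

section
variable {V W : Type} {G : SimpleGraph V} {H : SimpleGraph W}

lemma subdiv_some {u v a b : V} : (subdivideEdge G u v).Adj (some a) (some b) ↔
    G.Adj a b ∧ ¬(a = u ∧ b = v) ∧ ¬(a = v ∧ b = u) := by
  simp only [subdivideEdge, SimpleGraph.fromRel_adj, ne_eq, Option.some.injEq]
  constructor
  · rintro ⟨hne, (⟨a', b', rfl, rfl, h⟩ | ⟨h, _⟩) | (⟨a', b', rfl, rfl, h⟩ | ⟨h, _⟩)⟩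
    · exact h
    · exact absurd h (by simp)
    · exact ⟨h.1.symm, fun h2 => h.2.2 ⟨h2.2, h2.1⟩, fun h2 => h.2.1 ⟨h2.2, h2.1⟩⟩
    · exact absurd h (by simp)
  · intro h
    exact ⟨fun hab => G.loopless.irrefl _ (hab ▸ h.1), Or.inl (Or.inl ⟨a, b, rfl, rfl, h⟩)⟩

lemma subdiv_none {u v a : V} : (subdivideEdge G u v).Adj none (some a) ↔ a = u ∨ a = v := by
  simp [subdivideEdge, SimpleGraph.fromRel_adj]

lemma subdiv_none' {u v a : V} : (subdivideEdge G u v).Adj (some a) none ↔ a = u ∨ a = v := by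
  rw [SimpleGraph.adj_comm, subdiv_none]

/-- isomorphic graphs have isomorphic subdivisions -/
def subdivIso (e : G ≃g H) (u v : V) : subdivideEdge G u v ≃g subdivideEdge H (e u) (e v) where
  toEquiv := e.toEquiv.optionCongr
  map_rel_iff' := by
    rintro (_ | a) (_ | b)
    · simp
    · simp [subdiv_none]
    · simp [subdiv_none']
    · simp only [Equiv.optionCongr_apply, Option.map_some, subdiv_some, RelIso.coe_fn_toEquiv,
        e.map_adj_iff, EmbeddingLike.apply_eq_iff_eq]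

lemma IsSubdivision.congr_left {U : Type} {S : SimpleGraph U} (h : IsSubdivision G S) :
    ∀ {W : Type} {H : SimpleGraph W} (_ : H ≃g G), IsSubdivision H S := by
  induction h with
  | iso e => intro W H f; exact .iso (f.trans e)
  | @step V U G S u v huv h ih =>
    intro W H f
    have g := subdivIso f (f.symm u) (f.symm v)
    simp only [RelIso.apply_symm_apply] at g
    refine .step (u := f.symm u) (v := f.symm v) ?_ (ih g)
    rw [← f.map_adj_iff]
    simpa using huv

lemma IsSubdivision.congr_right {U U' : Type} {S : SimpleGraph U} {S' : SimpleGraph U'}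
    (h : IsSubdivision G S) (e : S ≃g S') : IsSubdivision G S' := by
  induction h with
  | iso f => exact .iso (f.trans e)
  | step huv _ ih => exact .step huv (ih e)

/-- a further subdivision -/
lemma IsSubdivision.snoc {U : Type} {S : SimpleGraph U} (h : IsSubdivision G S) {u v : U}
    (huv : S.Adj u v) : IsSubdivision G (subdivideEdge S u v) := by
  induction h with
  | @iso V U G S e =>
    refine .step (u := e.symm u) (v := e.symm v) ?_ (.iso ?_)
    · rw [← e.map_adj_iff]; simpa using huv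
    · have g := subdivIso e (e.symm u) (e.symm v)
      simpa only [RelIso.apply_symm_apply] using g
  | step h1 _ ih => exact .step h1 (ih huv)

/-- transitivity -/
lemma IsSubdivision.trans {U : Type} {S : SimpleGraph U} (h1 : IsSubdivision G H)
    (h2 : IsSubdivision H S) : IsSubdivision G S := by
  induction h2 generalizing V with
  | iso e => exact h1.congr_right e
  | step huv _ ih => exact ih (h1.snoc huv)

end

section
variable {W : Type}

/-- **Undoing a subdivision**, with a fixed type of vertices: `w` has exactly the two neighbours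
`u`, `v` in `X`, which are not adjacent. -/
lemma unsub {Y : Type} {H : SimpleGraph Y} {S S' : SimpleGraph W} {X : Set W} {w u v : W}
    (hw : w ∈ X) (hu : u ∈ X) (hv : v ∈ X) (huv : u ≠ v) (huw : u ≠ w) (hvw : v ≠ w)
    (hn : ¬ S.Adj u v) (hnb : ∀ x ∈ X, S.Adj w x ↔ x = u ∨ x = v)
    (hS' : ∀ x y, S'.Adj x y ↔ S.Adj x y ∨ (x = u ∧ y = v) ∨ (x = v ∧ y = u))
    (h : IsSubdivision H (S'.induce (X \ {w}))) : IsSubdivision H (S.induce X) := by
  classical
  have hu' : u ∈ X \ {w} := ⟨hu, huw⟩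
  have hv' : v ∈ X \ {w} := ⟨hv, hvw⟩
  have hadj : (S'.induce (X \ {w})).Adj ⟨u, hu'⟩ ⟨v, hv'⟩ := by
    rw [SimpleGraph.induce_adj, hS']
    exact Or.inr (Or.inl ⟨rfl, rfl⟩)
  refine (h.snoc hadj).congr_right ?_
  let f : Option ↥(X \ {w}) → ↥X := fun o => match o with
    | none => ⟨w, hw⟩
    | some x => ⟨x.1, x.2.1⟩
  let g : ↥X → Option ↥(X \ {w}) := fun x => if hx : x.1 = w then none else some ⟨x.1, x.2, hx⟩
  refine ⟨⟨f, g, ?_, ?_⟩, ?_⟩
  · rintro (_ | x)
    · simp [f, g]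
    · have : x.1 ≠ w := x.2.2
      simp [f, g, this]
  · rintro ⟨x, hx⟩
    by_cases hxw : x = w
    · subst hxw; simp [f, g]
    · simp [f, g, hxw]
  · rintro (_ | ⟨x, hx⟩) (_ | ⟨y, hy⟩)
    · simp
    · simp only [Equiv.coe_fn_mk, f, SimpleGraph.induce_adj, subdiv_none, Subtype.mk.injEq]
      exact hnb y hy.1
    · simp only [Equiv.coe_fn_mk, f, SimpleGraph.induce_adj, subdiv_none', Subtype.mk.injEq]
      rw [SimpleGraph.adj_comm]
      exact hnb x hx.1
    · simp only [Equiv.coe_fn_mk, f, SimpleGraph.induce_adj, subdiv_some, Subtype.mk.injEq, hS']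
      constructor
      · intro h1
        refine ⟨Or.inl h1, ?_, ?_⟩
        · rintro ⟨rfl, rfl⟩; exact hn h1
        · rintro ⟨rfl, rfl⟩; exact hn h1.symm
      · rintro ⟨h1 | h1 | h1, h2, h3⟩
        · exact h1
        · exact absurd h1 h2
        · exact absurd h1 h3

end

/-- induced topological minors of induced subgraphs -/
lemma IsITM.of_induce {V W : Type} {H : SimpleGraph W} {G : SimpleGraph V} {X : Set V}
    (h : IsITM H (G.induce X)) : IsITM H G := by
  obtain ⟨Y, hY⟩ := h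
  refine ⟨Subtype.val '' Y, hY.congr_right ?_⟩
  refine ⟨⟨fun y => ⟨y.1.1, ⟨y.1, y.2, rfl⟩⟩, fun z => ⟨⟨z.1, ?_⟩, ?_⟩, ?_, ?_⟩, ?_⟩
  · obtain ⟨z, x, hx, rfl⟩ := z; exact x.2
  · obtain ⟨z, x, hx, rfl⟩ := z; exact hx
  · rintro ⟨⟨y, hy⟩, hy'⟩; rfl
  · rintro ⟨z, x, hx, rfl⟩; rfl
  · rintro ⟨⟨y, hy⟩, hy'⟩ ⟨⟨z, hz⟩, hz'⟩; rfl

lemma IsITM.of_comap {V W U : Type} {H : SimpleGraph W} {G : SimpleGraph V} (f : U ↪ V)
    (h : IsITM H (G.comap f)) : IsITM H G := by
  obtain ⟨Y, hY⟩ := h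
  refine ⟨f '' Y, hY.congr_right ?_⟩
  have hch : ∀ z : ↥(f '' Y), ∃ y ∈ Y, f y = z.1 := fun z => z.2
  choose g hg hg' using hch
  refine ⟨⟨fun y => ⟨f y.1, y.1, y.2, rfl⟩, fun z => ⟨g z, hg z⟩, ?_, ?_⟩, ?_⟩
  · rintro ⟨y, hy⟩
    exact Subtype.ext (f.injective (hg' _))
  · rintro ⟨z, hz⟩
    exact Subtype.ext (hg' _)
  · rintro ⟨y, hy⟩ ⟨z, hz⟩; rfl

end Run7.h274.Itm
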