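import Pool.Agent.Run7.h274.Itm.Theta

/-! Subdivided paws. -/

namespace Run7.h274.Itm

open Pool.Agent.H175R2 Finset Classical

/-- **Subdivided paws.** -/
theorem tad_sub {W : Type} : ∀ (n : ℕ) (S : SimpleGraph W) (X : Finset W) (a l : W),
    X.card ≤ n → a ∈ X → l ∈ X → a ≠ l → dg S X a = 3 → dg S X l = 1 →
    (∀ x ∈ X, x ≠ a → x ≠ l → dg S X x = 2) →
    (∀ T ⊆ X, a ∉ T → T.Nonempty →
      (∀ x ∈ T, ∀ y ∈ X, y ≠ a → S.Adj x y → y ∈ T) → ∃ x ∈ T, S.Adj x a) →
    IsSubdivision paw (S.induce (X : Set W)) := by
  intro n
  induction n with
  | zero =>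
    intro S X a b hc ha
    exfalso
    have := card_pos.2 ⟨a, ha⟩
    omega
  | succ n ih =>
    intro S X a l hc ha hl hal hda hdl hd hT
    by_cases hex : ∃ w ∈ X, w ≠ a ∧ w ≠ l ∧ ∃ u ∈ X, ∃ v ∈ X, u ≠ v ∧ S.Adj w u ∧ S.Adj w v ∧
        (∀ y ∈ X, S.Adj w y ↔ y = u ∨ y = v) ∧ ¬ S.Adj u v
    · obtain ⟨w, hw, hwa, hwl, u, hu, v, hv, huv, hwu, hwv, hnb, hn⟩ := hex
      have huw : u ≠ w := fun h => S.loopless.irrefl _ (h ▸ hwu)
      have hvw : v ≠ w := fun h => S.loopless.irrefl _ (h ▸ hwv)
      have hS' : ∀ x y, (addE S u v huv).Adj x y ↔ S.Adj x y ∨ (x = u ∧ y = v) ∨ (x = v ∧ y = u) :=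
        fun _ _ => Iff.rfl
      refine unsub (S' := addE S u v huv) (mem_coe.2 hw) (mem_coe.2 hu) (mem_coe.2 hv) huv huw hvw
        hn (fun x hx => hnb x (mem_coe.1 hx)) hS' ?_
      rw [← coe_erase]
      have hdg : ∀ x ∈ X, x ≠ w → dg (addE S u v huv) (X.erase w) x = dg S X x := fun x hx hxw =>
        dg_unsub hw hu hv huv huw hvw hn hnb hS' hx hxw
      refine ih (addE S u v huv) (X.erase w) a l ?_ (mem_erase.2 ⟨hwa.symm, ha⟩)
        (mem_erase.2 ⟨hwl.symm, hl⟩) hal ?_ ?_ ?_ ?_
      · rw [card_erase_of_mem hw]; omega
      · rw [hdg a ha hwa.symm, hda]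
      · rw [hdg l hl hwl.symm, hdl]
      · intro x hx hxa hxb
        rw [mem_erase] at hx
        rw [hdg x hx.2 hx.1]
        exact hd x hx.2 hxa hxb
      · intro T hTX haT hne hcl
        have hTX' : T ⊆ X := hTX.trans (erase_subset _ _)
        have hwT : w ∉ T := fun h => (mem_erase.1 (hTX h)).1 rfl
        by_cases huvT : u ∈ T ∨ v ∈ T
        · obtain ⟨x, hx, hxa⟩ := hT (insert w T)
            (insert_subset hw hTX') (by simp [hwa.symm, haT])
            ⟨w, mem_insert_self _ _⟩ (by
              intro x hx y hy hya hxy
              rw [mem_insert] at hx ⊢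
              by_cases hyw : y = w
              · exact Or.inl hyw
              right
              rcases hx with rfl | hx
              · rcases (hnb y hy).1 hxy with h | h
                · rcases huvT with h2 | h2
                  · rw [h]; exact h2
                  · exact hcl v h2 y (mem_erase.2 ⟨hyw, hy⟩) hya
                      (Or.inr (Or.inr ⟨rfl, h⟩))
                · rcases huvT with h2 | h2
                  · exact hcl u h2 y (mem_erase.2 ⟨hyw, hy⟩) hya
                      (Or.inr (Or.inl ⟨rfl, h⟩))
                  · rw [h]; exact h2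
              · exact hcl x hx y (mem_erase.2 ⟨hyw, hy⟩) hya (Or.inl hxy))
          rw [mem_insert] at hx
          rcases hx with rfl | hx
          · rcases (hnb a ha).1 hxa with h | h
            · rcases huvT with h2 | h2
              · exact absurd (h ▸ h2) haT
              · exact ⟨v, h2, Or.inr (Or.inr ⟨rfl, h⟩)⟩
            · rcases huvT with h2 | h2
              · exact ⟨u, h2, Or.inr (Or.inl ⟨rfl, h⟩)⟩
              · exact absurd (h ▸ h2) haT
          · exact ⟨x, hx, Or.inl hxa⟩
        · push Not at huvT
          obtain ⟨x, hx, hxa⟩ := hT T hTX' haT hne (by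
            intro x hx y hy hya hxy
            refine hcl x hx y (mem_erase.2 ⟨?_, hy⟩) hya (Or.inl hxy)
            rintro rfl
            rcases (hnb x (hTX' hx)).1 hxy.symm with h | h
            · exact huvT.1 (h ▸ hx)
            · exact huvT.2 (h ▸ hx))
          exact ⟨x, hx, Or.inl hxa⟩
    · push Not at hex
      have hl1 : ∀ x ∈ X, ∀ y ∈ X, S.Adj l x → S.Adj l y → x = y := by
        intro x hx y hy h1 h2
        unfold dg at hdl
        obtain ⟨z, hz⟩ := card_eq_one.1 hdl
        have e1 : x ∈ X.filter (fun y => S.Adj l y) := mem_filter.2 ⟨hx, h1⟩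
        have e2 : y ∈ X.filter (fun y => S.Adj l y) := mem_filter.2 ⟨hy, h2⟩
        rw [hz, mem_singleton] at e1 e2
        rw [e1, e2]
      -- every vertex of degree two is adjacent to `a` and to one more
      have key : ∀ w ∈ X, w ≠ a → w ≠ l → ∃ u ∈ X, u ≠ a ∧ u ≠ l ∧ S.Adj w a ∧ S.Adj w u ∧
          S.Adj u a ∧ ∀ y ∈ X, S.Adj w y → y = a ∨ y = u := by
        intro w hw hwa hwl
        obtain ⟨u, hu, v, hv, huv, hwu, hwv, hnb⟩ := two_of_dg (hd w hw hwa hwl)
        have huv' := hex w hw hwa hwl u hu v hv huv hwu hwv hnb
        have huw : u ≠ w := fun h => S.loopless.irrefl _ (h ▸ hwu)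
        have hvw : v ≠ w := fun h => S.loopless.irrefl _ (h ▸ hwv)
        have hul : u ≠ l := by
          rintro rfl
          exact hvw (hl1 v hv w hw huv' hwu.symm)
        have hvl : v ≠ l := by
          rintro rfl
          exact huw (hl1 u hu w hw huv'.symm hwv.symm)
        by_cases hua : u = a
        · subst hua
          exact ⟨v, hv, huv.symm, hvl, hwu, hwv, huv'.symm, fun y hy h => (hnb y hy).1 h⟩
        by_cases hva : v = a
        · subst hva
          exact ⟨u, hu, huv, hul, hwv, hwu, huv', fun y hy h => ((hnb y hy).1 h).symm⟩
        exfalso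
        obtain ⟨p, hp, q, hq, hpq, hup, huq, hnbu⟩ := two_of_dg (hd u hu hua hul)
        have hu1 : ∀ y ∈ X, S.Adj u y → y = w ∨ y = v := by
          intro y hy huy
          have h1 := (hnbu w hw).1 hwu.symm
          have h2 := (hnbu v hv).1 huv'
          have h3 := (hnbu y hy).1 huy
          grind
        obtain ⟨p', hp', q', hq', hpq', hvp', hvq', hnbv⟩ := two_of_dg (hd v hv hva hvl)
        have hv1 : ∀ y ∈ X, S.Adj v y → y = w ∨ y = u := by
          intro y hy hvy
          have h1 := (hnbv w hw).1 hwv.symm
          have h2 := (hnbv u hu).1 huv'.symm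
          have h3 := (hnbv y hy).1 hvy
          grind
        obtain ⟨x, hx, hxa⟩ := hT {w, u, v} (by
            intro z hz; simp only [mem_insert, mem_singleton] at hz
            rcases hz with rfl | rfl | rfl <;> assumption) (by
              simp only [mem_insert, mem_singleton, not_or]
              exact ⟨hwa.symm, Ne.symm hua, Ne.symm hva⟩)
            ⟨w, by simp⟩ (by
              intro x hx y hy hya hxy
              simp only [mem_insert, mem_singleton] at hx ⊢
              rcases hx with rfl | rfl | rfl
              · exact Or.inr ((hnb y hy).1 hxy)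
              · rcases hu1 y hy hxy with h | h
                · exact Or.inl h
                · exact Or.inr (Or.inr h)
              · rcases hv1 y hy hxy with h | h
                · exact Or.inl h
                · exact Or.inr (Or.inl h))
        simp only [mem_insert, mem_singleton] at hx
        rcases hx with rfl | rfl | rfl
        · rcases (hnb a ha).1 hxa with h | h
          · exact hua h.symm
          · exact hva h.symm
        · rcases hu1 a ha hxa with h | h
          · exact hwa h.symm
          · exact hva h.symm
        · rcases hv1 a ha hxa with h | h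
          · exact hwa h.symm
          · exact hua h.symm
      -- a vertex of degree two
      obtain ⟨w, hw, hwa, hwl⟩ : ∃ w ∈ X, w ≠ a ∧ w ≠ l := by
        by_contra hcon
        push Not at hcon
        have : (X.filter (fun y => S.Adj a y)) ⊆ {l} := by
          intro y hy
          rw [mem_filter] at hy
          rw [mem_singleton]
          exact hcon y hy.1 (fun h => S.loopless.irrefl _ (h ▸ hy.2))
        have := card_le_card this
        unfold dg at hda
        rw [hda] at this; simp at this
      obtain ⟨u, hu, hua, hul, hwa', hwu, hua', hw1⟩ := key w hw hwa hwl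
      obtain ⟨u2, hu2, hu2a, _, _, huu2, _, hu1⟩ := key u hu hua hul
      have hu2w : u2 = w := by
        rcases hu1 w hw hwu.symm with h | h
        · exact absurd h hwa
        · exact h.symm
      subst hu2w
      have huw : u ≠ u2 := fun h => S.loopless.irrefl _ (h ▸ hwu)
      -- no further vertex
      have hno : ∀ z ∈ X, z ≠ a → z ≠ l → z = u ∨ z = u2 := by
        intro z hz hza hzl
        by_contra hcon
        push Not at hcon
        obtain ⟨z', hz', hz'a, hz'l, hza', hzz', hz'a', hz1⟩ := key z hz hza hzl
        have hz'u : z' ≠ u := by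
          rintro rfl
          rcases hu1 z hz hzz'.symm with h | h
          · exact hza h
          · exact hcon.2 h
        have hz'w : z' ≠ u2 := by
          rintro rfl
          rcases hw1 z hz hzz'.symm with h | h
          · exact hza h
          · exact hcon.1 h
        have hzz : z ≠ z' := fun h => S.loopless.irrefl _ (h ▸ hzz')
        have hsub : ({u, u2, z, z'} : Finset W) ⊆ X.filter (fun y => S.Adj a y) := by
          intro y hy
          simp only [mem_insert, mem_singleton] at hy
          rw [mem_filter]
          rcases hy with rfl | rfl | rfl | rfl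
          · exact ⟨hu, hua'.symm⟩
          · exact ⟨hw, hwa'.symm⟩
          · exact ⟨hz, hza'.symm⟩
          · exact ⟨hz', hz'a'.symm⟩
        have h4 : ({u, u2, z, z'} : Finset W).card = 4 := by
          rw [card_insert_of_notMem, card_insert_of_notMem, card_insert_of_notMem, card_singleton]
          · simpa using hzz
          · simp only [mem_insert, mem_singleton, not_or]
            exact ⟨Ne.symm hcon.2, hz'w.symm⟩
          · simp only [mem_insert, mem_singleton, not_or]
            exact ⟨huw, Ne.symm hcon.1, hz'u.symm⟩
        have := card_le_card hsub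
        unfold dg at hda
        omega
      have hla : S.Adj a l := by
        by_contra hcon
        have hsub : X.filter (fun y => S.Adj a y) ⊆ {u, u2} := by
          intro y hy
          rw [mem_filter] at hy
          simp only [mem_insert, mem_singleton]
          refine hno y hy.1 (fun h => S.loopless.irrefl _ (h ▸ hy.2)) ?_
          rintro rfl
          exact hcon hy.2
        have h1 := card_le_card hsub
        have h2 : ({u, u2} : Finset W).card ≤ 2 := card_le_two
        unfold dg at hda
        omega
      have hnul : ¬ S.Adj u l := by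
        intro h
        rcases hu1 l hl h with h | h
        · exact hal h.symm
        · exact hwl h.symm
      have hnwl : ¬ S.Adj u2 l := by
        intro h
        rcases hw1 l hl h with h | h
        · exact hal h.symm
        · exact hul h.symm
      refine .iso (iso_of_fn (S := S) (X := X) (H := paw) ![a, u, u2, l] ?_ ?_ ?_).some
      · intro i j hij
        fin_cases i <;> fin_cases j <;> simp at hij ⊢ <;>
          first
          | exact absurd hij hal | exact absurd hij.symm hal
          | exact absurd hij hua | exact absurd hij.symm hua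
          | exact absurd hij hul | exact absurd hij.symm hul
          | exact absurd hij hwa | exact absurd hij.symm hwa
          | exact absurd hij hwl | exact absurd hij.symm hwl
          | exact absurd hij huw | exact absurd hij.symm huw
      · intro x
        constructor
        · intro hx
          by_cases h1 : x = a
          · exact ⟨0, h1.symm⟩
          by_cases h2 : x = l
          · exact ⟨3, h2.symm⟩
          rcases hno x hx h1 h2 with h | h
          · exact ⟨1, h.symm⟩
          · exact ⟨2, h.symm⟩
        · rintro ⟨i, rfl⟩
          fin_cases i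
          · exact ha
          · exact hu
          · exact hw
          · exact hl
      · have e1 := hua'.symm
        have e2 := hwa'.symm
        have e3 := hwu.symm
        have e4 := hla.symm
        have e5 : ¬ S.Adj l u := fun h => hnul h.symm
        have e6 : ¬ S.Adj l u2 := fun h => hnwl h.symm
        intro i j
        fin_cases i <;> fin_cases j <;>
          simp [paw, SimpleGraph.fromRel_adj, hua', hwa', hwu, hla, e1, e2, e3, e4, e5, e6, hnul, hnwl]

end Run7.h274.Itm
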