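import Pool.Agent.Run7.h274.Itm.Sub

/-! Characterisation of the subdivisions of the diamond and of the paw by degrees. -/

namespace Run7.h274.Itm

open Pool.Agent.H175R2 Finset Classical

/-- number of neighbours of `x` in `X` -/
noncomputable def dg {V : Type} (G : SimpleGraph V) (X : Finset V) (x : V) : ℕ :=
  (X.filter (fun y => G.Adj x y)).card

lemma iso_of_fn {W : Type} {n : ℕ} {H : SimpleGraph (Fin n)} {S : SimpleGraph W} {X : Finset W}
    (f : Fin n → W) (hf : Function.Injective f) (hX : ∀ x, x ∈ X ↔ ∃ i, f i = x)
    (hadj : ∀ i j, S.Adj (f i) (f j) ↔ H.Adj i j) : Nonempty (H ≃g S.induce (X : Set W)) := by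
  let g : Fin n → ↥(X : Set W) := fun i => ⟨f i, by
    rw [mem_coe, hX]; exact ⟨i, rfl⟩⟩
  have hg : Function.Bijective g := by
    constructor
    · intro i j hij
      exact hf (congrArg Subtype.val hij)
    · rintro ⟨x, hx⟩
      rw [mem_coe, hX] at hx
      obtain ⟨i, hi⟩ := hx
      exact ⟨i, Subtype.ext hi⟩
  exact ⟨⟨Equiv.ofBijective g hg, fun {i j} => hadj i j⟩⟩

/-- one unsubdivision step preserves the degrees -/
lemma dg_unsub {W : Type} {S S' : SimpleGraph W} {X : Finset W} {w u v : W}
    (hw : w ∈ X) (hu : u ∈ X) (hv : v ∈ X) (huv : u ≠ v) (huw : u ≠ w) (hvw : v ≠ w)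
    (hn : ¬ S.Adj u v) (hnb : ∀ x ∈ X, S.Adj w x ↔ x = u ∨ x = v)
    (hS' : ∀ x y, S'.Adj x y ↔ S.Adj x y ∨ (x = u ∧ y = v) ∨ (x = v ∧ y = u))
    {x : W} (hx : x ∈ X) (hxw : x ≠ w) : dg S' (X.erase w) x = dg S X x := by
  unfold dg
  by_cases h1 : x = u
  · subst h1
    have e : (X.erase w).filter (fun y => S'.Adj x y) =
        insert v ((X.filter (fun y => S.Adj x y)).erase w) := by
      ext y
      simp only [mem_filter, mem_erase, mem_insert, hS']
      constructor
      · rintro ⟨⟨h1, h2⟩, h3 | h3 | h3⟩
        · exact Or.inr ⟨h1, h2, h3⟩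
        · exact Or.inl h3.2
        · exact absurd h3.1 huv
      · rintro (rfl | ⟨h1, h2, h3⟩)
        · exact ⟨⟨hvw, hv⟩, by simp⟩
        · exact ⟨⟨h1, h2⟩, Or.inl h3⟩
    rw [e, card_insert_of_notMem, card_erase_of_mem]
    · have : 0 < (X.filter (fun y => S.Adj x y)).card :=
        card_pos.2 ⟨w, mem_filter.2 ⟨hw, ((hnb x hu).2 (Or.inl rfl)).symm⟩⟩
      omega
    · exact mem_filter.2 ⟨hw, ((hnb x hu).2 (Or.inl rfl)).symm⟩
    · simp only [mem_erase, mem_filter, not_and]
      intro _ _ h; exact hn h
  by_cases h2 : x = v
  · subst h2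
    have e : (X.erase w).filter (fun y => S'.Adj x y) =
        insert u ((X.filter (fun y => S.Adj x y)).erase w) := by
      ext y
      simp only [mem_filter, mem_erase, mem_insert, hS']
      constructor
      · rintro ⟨⟨h1, h2⟩, h3 | h3 | h3⟩
        · exact Or.inr ⟨h1, h2, h3⟩
        · exact absurd h3.1.symm huv
        · exact Or.inl h3.2
      · rintro (rfl | ⟨h1, h2, h3⟩)
        · exact ⟨⟨huw, hu⟩, by simp⟩
        · exact ⟨⟨h1, h2⟩, Or.inl h3⟩
    rw [e, card_insert_of_notMem, card_erase_of_mem]
    · have : 0 < (X.filter (fun y => S.Adj x y)).card :=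
        card_pos.2 ⟨w, mem_filter.2 ⟨hw, ((hnb x hv).2 (Or.inr rfl)).symm⟩⟩
      omega
    · exact mem_filter.2 ⟨hw, ((hnb x hv).2 (Or.inr rfl)).symm⟩
    · simp only [mem_erase, mem_filter, not_and]
      intro _ _ h; exact hn h.symm
  · congr 1
    ext y
    simp only [mem_filter, mem_erase, hS']
    constructor
    · rintro ⟨⟨h3, h4⟩, h5 | h5 | h5⟩
      · exact ⟨h4, h5⟩
      · exact absurd h5.1 h1
      · exact absurd h5.1 h2
    · rintro ⟨h3, h4⟩
      refine ⟨⟨?_, h3⟩, Or.inl h4⟩
      rintro rfl
      rcases (hnb x hx).1 h4.symm with h | h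
      · exact h1 h
      · exact h2 h

/-- adding an edge -/
def addE {W : Type} (S : SimpleGraph W) (u v : W) (huv : u ≠ v) : SimpleGraph W where
  Adj x y := S.Adj x y ∨ (x = u ∧ y = v) ∨ (x = v ∧ y = u)
  symm := ⟨by
    rintro x y (h | h | h)
    · exact Or.inl h.symm
    · exact Or.inr (Or.inr ⟨h.2, h.1⟩)
    · exact Or.inr (Or.inl ⟨h.2, h.1⟩)⟩
  loopless := ⟨by
    rintro x (h | h | h)
    · exact S.loopless.irrefl _ h
    · exact huv (h.1.symm.trans h.2)
    · exact huv (h.2.symm.trans h.1)⟩

lemma two_of_dg {W : Type} {S : SimpleGraph W} {X : Finset W} {x : W} (h : dg S X x = 2) :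
    ∃ u ∈ X, ∃ v ∈ X, u ≠ v ∧ S.Adj x u ∧ S.Adj x v ∧ ∀ y ∈ X, S.Adj x y ↔ y = u ∨ y = v := by
  obtain ⟨u, v, huv, he⟩ := card_eq_two.1 h
  have hu : u ∈ X.filter (fun y => S.Adj x y) := by rw [he]; simp
  have hv : v ∈ X.filter (fun y => S.Adj x y) := by rw [he]; simp
  rw [mem_filter] at hu hv
  refine ⟨u, hu.1, v, hv.1, huv, hu.2, hv.2, fun y hy => ?_⟩
  constructor
  · intro h
    have : y ∈ X.filter (fun y => S.Adj x y) := mem_filter.2 ⟨hy, h⟩
    rw [he] at this
    simpa using this
  · rintro (rfl | rfl)
    · exact hu.2
    · exact hv.2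

/-- **Subdivided diamonds.** -/
theorem theta_sub {W : Type} : ∀ (n : ℕ) (S : SimpleGraph W) (X : Finset W) (a b : W),
    X.card ≤ n → a ∈ X → b ∈ X → a ≠ b → dg S X a = 3 → dg S X b = 3 →
    (∀ x ∈ X, x ≠ a → x ≠ b → dg S X x = 2) →
    (∀ T ⊆ X, a ∉ T → b ∉ T → T.Nonempty →
      (∀ x ∈ T, ∀ y ∈ X, y ≠ a → y ≠ b → S.Adj x y → y ∈ T) →
      (∃ x ∈ T, S.Adj x a) ∧ ∃ x ∈ T, S.Adj x b) →
    IsSubdivision diamond (S.induce (X : Set W)) := by
  intro n
  induction n with
  | zero =>
    intro S X a b hc ha
    exfalso
    have := card_pos.2 ⟨a, ha⟩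
    omega
  | succ n ih =>
    intro S X a b hc ha hb hab hda hdb hd hT
    by_cases hex : ∃ w ∈ X, w ≠ a ∧ w ≠ b ∧ ∃ u ∈ X, ∃ v ∈ X, u ≠ v ∧ S.Adj w u ∧ S.Adj w v ∧
        (∀ y ∈ X, S.Adj w y ↔ y = u ∨ y = v) ∧ ¬ S.Adj u v
    · obtain ⟨w, hw, hwa, hwb, u, hu, v, hv, huv, hwu, hwv, hnb, hn⟩ := hex
      have huw : u ≠ w := fun h => S.loopless.irrefl _ (h ▸ hwu)
      have hvw : v ≠ w := fun h => S.loopless.irrefl _ (h ▸ hwv)
      have hS' : ∀ x y, (addE S u v huv).Adj x y ↔ S.Adj x y ∨ (x = u ∧ y = v) ∨ (x = v ∧ y = u) :=
        fun _ _ => Iff.rfl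
      refine unsub (S' := addE S u v huv) (mem_coe.2 hw) (mem_coe.2 hu) (mem_coe.2 hv) huv huw hvw
        hn (fun x hx => hnb x (mem_coe.1 hx)) hS' ?_
      rw [← coe_erase]
      have hdg : ∀ x ∈ X, x ≠ w → dg (addE S u v huv) (X.erase w) x = dg S X x := fun x hx hxw =>
        dg_unsub hw hu hv huv huw hvw hn hnb hS' hx hxw
      refine ih (addE S u v huv) (X.erase w) a b ?_ (mem_erase.2 ⟨hwa.symm, ha⟩)
        (mem_erase.2 ⟨hwb.symm, hb⟩) hab ?_ ?_ ?_ ?_
      · rw [card_erase_of_mem hw]; omega
      · rw [hdg a ha hwa.symm, hda]
      · rw [hdg b hb hwb.symm, hdb]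
      · intro x hx hxa hxb
        rw [mem_erase] at hx
        rw [hdg x hx.2 hx.1]
        exact hd x hx.2 hxa hxb
      · intro T hTX haT hbT hne hcl
        have hTX' : T ⊆ X := hTX.trans (erase_subset _ _)
        have hwT : w ∉ T := fun h => (mem_erase.1 (hTX h)).1 rfl
        by_cases huvT : u ∈ T ∨ v ∈ T
        · obtain ⟨⟨x, hx, hxa⟩, ⟨y, hy, hyb⟩⟩ := hT (insert w T)
            (insert_subset hw hTX') (by simp [hwa.symm, haT]) (by simp [hwb.symm, hbT])
            ⟨w, mem_insert_self _ _⟩ (by
              intro x hx y hy hya hyb hxy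
              rw [mem_insert] at hx ⊢
              by_cases hyw : y = w
              · exact Or.inl hyw
              right
              rcases hx with rfl | hx
              · rcases (hnb y hy).1 hxy with h | h
                · rcases huvT with h2 | h2
                  · rw [h]; exact h2
                  · exact hcl v h2 y (mem_erase.2 ⟨hyw, hy⟩) hya hyb
                      (Or.inr (Or.inr ⟨rfl, h⟩))
                · rcases huvT with h2 | h2
                  · exact hcl u h2 y (mem_erase.2 ⟨hyw, hy⟩) hya hyb
                      (Or.inr (Or.inl ⟨rfl, h⟩))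
                  · rw [h]; exact h2
              · exact hcl x hx y (mem_erase.2 ⟨hyw, hy⟩) hya hyb (Or.inl hxy))
          have key : ∀ c ∈ X, ∀ x, x ∈ insert w T → S.Adj x c → c ∉ T → c ≠ w →
              ∃ x ∈ T, (addE S u v huv).Adj x c := by
            intro c hcX x hx hxc hcT hcw
            rw [mem_insert] at hx
            rcases hx with rfl | hx
            · rcases (hnb c hcX).1 hxc with h | h
              · rcases huvT with h2 | h2
                · exact absurd (h ▸ h2) hcT
                · exact ⟨v, h2, Or.inr (Or.inr ⟨rfl, h⟩)⟩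
              · rcases huvT with h2 | h2
                · exact ⟨u, h2, Or.inr (Or.inl ⟨rfl, h⟩)⟩
                · exact absurd (h ▸ h2) hcT
            · exact ⟨x, hx, Or.inl hxc⟩
          exact ⟨key a ha x hx hxa haT hwa.symm, key b hb y hy hyb hbT hwb.symm⟩
        · push Not at huvT
          obtain ⟨⟨x, hx, hxa⟩, ⟨y, hy, hyb⟩⟩ := hT T hTX' haT hbT hne (by
            intro x hx y hy hya hyb hxy
            refine hcl x hx y (mem_erase.2 ⟨?_, hy⟩) hya hyb (Or.inl hxy)
            rintro rfl
            rcases (hnb x (hTX' hx)).1 hxy.symm with h | h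
            · exact huvT.1 (h ▸ hx)
            · exact huvT.2 (h ▸ hx))
          exact ⟨⟨x, hx, Or.inl hxa⟩, ⟨y, hy, Or.inl hyb⟩⟩
    · push Not at hex
      -- every vertex of degree two is adjacent to `a` and `b`, and `a`, `b` are adjacent
      have key : ∀ w ∈ X, w ≠ a → w ≠ b → S.Adj w a ∧ S.Adj w b ∧ S.Adj a b := by
        intro w hw hwa hwb
        obtain ⟨u, hu, v, hv, huv, hwu, hwv, hnb⟩ := two_of_dg (hd w hw hwa hwb)
        have huv' := hex w hw hwa hwb u hu v hv huv hwu hwv hnb
        -- `u` and `v` both in `{a, b}`
        have main : ∀ u v : W, u ∈ X → v ∈ X → u ≠ v → S.Adj w u → S.Adj w v →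
            (∀ y ∈ X, S.Adj w y ↔ y = u ∨ y = v) → S.Adj u v → u = a ∨ u = b := by
          intro u v hu hv huv hwu hwv hnb huv'
          by_contra hcon
          push Not at hcon
          obtain ⟨p, hp, q, hq, hpq, hup, huq, hnbu⟩ := two_of_dg (hd u hu hcon.1 hcon.2)
          -- the neighbours of `u` are `w` and `v`
          have hu1 : ∀ y ∈ X, S.Adj u y → y = w ∨ y = v := by
            intro y hy huy
            have h1 := (hnbu w hw).1 hwu.symm
            have h2 := (hnbu v hv).1 huv'
            have h3 := (hnbu y hy).1 huy
            have hvw : v ≠ w := fun h => S.loopless.irrefl _ (h ▸ hwv)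
            grind
          by_cases hva : v = a
          · obtain ⟨_, x, hx, hxb⟩ := hT {w, u} (by
              intro z hz; simp only [mem_insert, mem_singleton] at hz
              rcases hz with rfl | rfl <;> assumption) (by
                simp only [mem_insert, mem_singleton, not_or]; exact ⟨hwa.symm, Ne.symm hcon.1⟩) (by
                simp only [mem_insert, mem_singleton, not_or]; exact ⟨hwb.symm, Ne.symm hcon.2⟩)
              ⟨w, by simp⟩ (by
                intro x hx y hy hya hyb hxy
                simp only [mem_insert, mem_singleton] at hx ⊢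
                rcases hx with rfl | rfl
                · rcases (hnb y hy).1 hxy with h | h
                  · exact Or.inr h
                  · exact absurd (h.trans hva) hya
                · rcases hu1 y hy hxy with h | h
                  · exact Or.inl h
                  · exact absurd (h.trans hva) hya)
            simp only [mem_insert, mem_singleton] at hx
            rcases hx with rfl | rfl
            · rcases (hnb b hb).1 hxb with h | h
              · exact hcon.2 h.symm
              · exact hab (hva.symm.trans h.symm)
            · rcases hu1 b hb hxb with h | h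
              · exact hwb h.symm
              · exact hab (hva.symm.trans h.symm)
          by_cases hvb : v = b
          · obtain ⟨⟨x, hx, hxa⟩, _⟩ := hT {w, u} (by
              intro z hz; simp only [mem_insert, mem_singleton] at hz
              rcases hz with rfl | rfl <;> assumption) (by
                simp only [mem_insert, mem_singleton, not_or]; exact ⟨hwa.symm, Ne.symm hcon.1⟩) (by
                simp only [mem_insert, mem_singleton, not_or]; exact ⟨hwb.symm, Ne.symm hcon.2⟩)
              ⟨w, by simp⟩ (by
                intro x hx y hy hya hyb hxy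
                simp only [mem_insert, mem_singleton] at hx ⊢
                rcases hx with rfl | rfl
                · rcases (hnb y hy).1 hxy with h | h
                  · exact Or.inr h
                  · exact absurd (h.trans hvb) hyb
                · rcases hu1 y hy hxy with h | h
                  · exact Or.inl h
                  · exact absurd (h.trans hvb) hyb)
            simp only [mem_insert, mem_singleton] at hx
            rcases hx with rfl | rfl
            · rcases (hnb a ha).1 hxa with h | h
              · exact hcon.1 h.symm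
              · exact hab (h.trans hvb)
            · rcases hu1 a ha hxa with h | h
              · exact hwa h.symm
              · exact hab (h.trans hvb)
          -- `v` also has degree two
          obtain ⟨p', hp', q', hq', hpq', hvp', hvq', hnbv⟩ := two_of_dg (hd v hv hva hvb)
          have hv1 : ∀ y ∈ X, S.Adj v y → y = w ∨ y = u := by
            intro y hy hvy
            have h1 := (hnbv w hw).1 hwv.symm
            have h2 := (hnbv u hu).1 huv'.symm
            have h3 := (hnbv y hy).1 hvy
            have huw : u ≠ w := fun h => S.loopless.irrefl _ (h ▸ hwu)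
            grind
          obtain ⟨⟨x, hx, hxa⟩, _⟩ := hT {w, u, v} (by
              intro z hz; simp only [mem_insert, mem_singleton] at hz
              rcases hz with rfl | rfl | rfl <;> assumption) (by
                simp only [mem_insert, mem_singleton, not_or]
                exact ⟨hwa.symm, Ne.symm hcon.1, Ne.symm hva⟩) (by
                simp only [mem_insert, mem_singleton, not_or]
                exact ⟨hwb.symm, Ne.symm hcon.2, Ne.symm hvb⟩)
              ⟨w, by simp⟩ (by
                intro x hx y hy hya hyb hxy
                simp only [mem_insert, mem_singleton] at hx ⊢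
                rcases hx with rfl | rfl | rfl
                · exact Or.inr ((hnb y hy).1 hxy)
                · rcases hu1 y hy hxy with h | h
                  · exact Or.inl h
                  · exact Or.inr (Or.inr h)
                · rcases hv1 y hy hxy with h | h
                  · exact Or.inl h
                  · exact Or.inr (Or.inl h))
          simp only [mem_insert, mem_singleton] at hx
          rcases hx with rfl | rfl | rfl
          · rcases (hnb a ha).1 hxa with h | h
            · exact hcon.1 h.symm
            · exact hva h.symm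
          · rcases hu1 a ha hxa with h | h
            · exact hwa h.symm
            · exact hva h.symm
          · rcases hv1 a ha hxa with h | h
            · exact hwa h.symm
            · exact hcon.1 h.symm
        have h1 := main u v hu hv huv hwu hwv hnb huv'
        have h2 := main v u hv hu huv.symm hwv hwu (fun y hy => by rw [hnb y hy]; tauto) huv'.symm
        rcases h1 with rfl | rfl <;> rcases h2 with rfl | rfl
        · exact absurd rfl huv
        · exact ⟨hwu, hwv, huv'⟩
        · exact ⟨hwv, hwu, huv'.symm⟩
        · exact absurd rfl huv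
      -- there are exactly two other vertices
      have hrest : ((X.erase a).erase b).card = 2 := by
        have hne : ((X.erase a).erase b).Nonempty := by
          rw [nonempty_iff_ne_empty]
          intro he
          have : (X.filter (fun y => S.Adj a y)) ⊆ {b} := by
            intro y hy
            rw [mem_filter] at hy
            rw [mem_singleton]
            by_contra hyb
            have : y ∈ (X.erase a).erase b :=
              mem_erase.2 ⟨hyb, mem_erase.2 ⟨fun h => S.loopless.irrefl _ (h ▸ hy.2), hy.1⟩⟩
            rw [he] at this; simp at this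
          have := card_le_card this
          unfold dg at hda
          rw [hda] at this; simp at this
        obtain ⟨w, hw⟩ := hne
        rw [mem_erase, mem_erase] at hw
        have hab' := (key w hw.2.2 hw.2.1 hw.1).2.2
        have e : X.filter (fun y => S.Adj a y) = insert b ((X.erase a).erase b) := by
          ext y
          simp only [mem_filter, mem_insert, mem_erase]
          constructor
          · rintro ⟨h1, h2⟩
            by_cases h3 : y = b
            · exact Or.inl h3
            · exact Or.inr ⟨h3, fun h => S.loopless.irrefl _ (h ▸ h2), h1⟩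
          · rintro (rfl | ⟨h1, h2, h3⟩)
            · exact ⟨hb, hab'⟩
            · exact ⟨h3, (key y h3 h2 h1).1.symm⟩
        unfold dg at hda
        rw [e, card_insert_of_notMem (by simp)] at hda
        omega
      obtain ⟨p, q, hpq, he⟩ := card_eq_two.1 hrest
      have hp : p ∈ (X.erase a).erase b := by rw [he]; simp
      have hq : q ∈ (X.erase a).erase b := by rw [he]; simp
      rw [mem_erase, mem_erase] at hp hq
      obtain ⟨hpb, hpa, hpX⟩ := hp
      obtain ⟨hqb, hqa, hqX⟩ := hq
      obtain ⟨k1, k2, k3⟩ := key p hpX hpa hpb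
      obtain ⟨k4, k5, _⟩ := key q hqX hqa hqb
      have hnpq : ¬ S.Adj p q := by
        intro h
        obtain ⟨u, hu, v, hv, huv, hwu, hwv, hnb⟩ := two_of_dg (hd p hpX hpa hpb)
        have h1 := (hnb a ha).1 k1
        have h2 := (hnb b hb).1 k2
        have h3 := (hnb q hqX).1 h
        grind
      refine .iso (iso_of_fn (S := S) (X := X) (H := diamond) ![a, b, p, q] ?_ ?_ ?_).some
      · intro i j hij
        fin_cases i <;> fin_cases j <;> simp at hij ⊢ <;>
          first
          | exact absurd hij hab | exact absurd hij.symm hab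
          | exact absurd hij hpa | exact absurd hij.symm hpa
          | exact absurd hij hpb | exact absurd hij.symm hpb
          | exact absurd hij hqa | exact absurd hij.symm hqa
          | exact absurd hij hqb | exact absurd hij.symm hqb
          | exact absurd hij hpq | exact absurd hij.symm hpq
      · intro x
        constructor
        · intro hx
          by_cases h1 : x = a
          · exact ⟨0, h1.symm⟩
          by_cases h2 : x = b
          · exact ⟨1, h2.symm⟩
          have : x ∈ (X.erase a).erase b := mem_erase.2 ⟨h2, mem_erase.2 ⟨h1, hx⟩⟩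
          rw [he] at this
          simp only [mem_insert, mem_singleton] at this
          rcases this with h | h
          · exact ⟨2, h.symm⟩
          · exact ⟨3, h.symm⟩
        · rintro ⟨i, rfl⟩
          fin_cases i
          · exact ha
          · exact hb
          · exact hpX
          · exact hqX
      · have e1 := k1.symm
        have e2 := k2.symm
        have e3 := k3.symm
        have e4 := k4.symm
        have e5 := k5.symm
        have e6 : ¬ S.Adj q p := fun h => hnpq h.symm
        intro i j
        fin_cases i <;> fin_cases j <;>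
          simp [diamond, SimpleGraph.fromRel_adj, k1, k2, k3, k4, k5, e1, e2, e3, e4, e5, e6, hnpq]

end Run7.h274.Itm
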